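import Pool.Agent.ThA.L3

/-!
# ThA, module L3K: the integer `LamK` of a Laurent polynomial and the derivative at `exp (π i / 3)`

For `f = ∑ p_k A^k` with even exponents `LamK f = ∑ k p_k - 3 ∑_(6 ∣ k) k p_k`; the real part of
`∑ k p_k A^k` at `A = exp (π i / 3)` is `-(1/2) LamK f`.
-/

set_option autoImplicit false

open Complex LaurentPolynomial

namespace Pool.Agent.ThA

/-- The sum of `k p_k` over all exponents `k` minus three times the same sum over the `k` divisible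
by `6`. -/
noncomputable def LamK (P : ℤ[T;T⁻¹]) : ℤ :=
  (∑ k ∈ P.coeff.support, k * P.coeff k) -
    3 * ∑ k ∈ P.coeff.support.filter (fun k => (6 : ℤ) ∣ k), k * P.coeff k

theorem LamK_T_zero (P : ℤ[T;T⁻¹]) (h : ∀ k, P.coeff k ≠ 0 → k = 0) : LamK P = 0 := by
  unfold LamK
  rw [Finset.sum_eq_zero, Finset.sum_eq_zero]
  · norm_num
  · intro k hk
    rw [h k (Finsupp.mem_support_iff.1 (Finset.mem_filter.1 hk).1), zero_mul]
  · intro k hk
    rw [h k (Finsupp.mem_support_iff.1 hk), zero_mul]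

theorem LamK_one : LamK 1 = 0 := by
  refine LamK_T_zero 1 fun k hk => ?_
  by_contra h
  apply hk
  have h1 : (1 : ℤ[T;T⁻¹]) = T 0 := T_zero.symm
  rw [h1, T_apply, if_neg (Ne.symm h)]

/-- the real part of `exp (i π k / 3)` for even `k` -/
theorem re_TK (k : ℤ) (hk : (2 : ℤ) ∣ k) :
    (M2.ev (Real.pi / 3) (T k)).re = if (6 : ℤ) ∣ k then 1 else -1 / 2 := by
  obtain ⟨m, rfl⟩ := hk
  rw [M2.ev_T]
  have h1 : (((2 * m : ℤ) : ℂ) * (((Real.pi / 3 : ℝ) : ℂ) * I)) =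
      ((m * (2 * Real.pi / 3) : ℝ) : ℂ) * I := by
    push_cast
    ring
  rw [h1, exp_ofReal_mul_I_re]
  have h3 : ((6 : ℤ) ∣ 2 * m) ↔ (3 : ℤ) ∣ m := by
    constructor <;> intro h <;> omega
  rw [if_congr h3 rfl rfl]
  have h4 := re_T (4 * m) ⟨m, rfl⟩
  rw [M2.ev_T] at h4
  have h5 : (((4 * m : ℤ) : ℂ) * (((Real.pi / 6 : ℝ) : ℂ) * I)) =
      ((m * (2 * Real.pi / 3) : ℝ) : ℂ) * I := by
    push_cast
    ring
  rw [h5, exp_ofReal_mul_I_re] at h4
  rw [h4]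
  have h6 : ((12 : ℤ) ∣ 4 * m) ↔ (3 : ℤ) ∣ m := by
    constructor <;> intro h <;> omega
  rw [if_congr h6 rfl rfl]

/-- **L3K.** The imaginary part of the derivative of `x ↦ f (exp (x i))` at `π / 3`. -/
theorem deriv_imK (P : ℤ[T;T⁻¹]) (h2 : ∀ k, P.coeff k ≠ 0 → (2 : ℤ) ∣ k) (D : ℂ)
    (hD : HasDerivAt (fun x : ℝ => M2.ev x P) D (Real.pi / 3)) : D.im = -(1 / 2) * (LamK P : ℝ) := by
  rw [hD.unique (hasDerivAt_ev P (Real.pi / 3)), im_sum]
  have h1 : ∀ k ∈ P.coeff.support, ((P.coeff k : ℂ) * (k * I * M2.ev (Real.pi / 3) (T k))).im =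
      (-1 / 2) * ((k * P.coeff k : ℤ) : ℝ) +
        (3 / 2) * (if (6 : ℤ) ∣ k then ((k * P.coeff k : ℤ) : ℝ) else 0) := by
    intro k hk
    have h3 : ((P.coeff k : ℂ) * (k * I * M2.ev (Real.pi / 3) (T k))).im =
        (k : ℝ) * P.coeff k * (M2.ev (Real.pi / 3) (T k)).re := by
      simp [mul_im, mul_re]
      ring
    rw [h3, re_TK k (h2 k (Finsupp.mem_support_iff.1 hk))]
    push_cast
    split_ifs <;> ring
  rw [Finset.sum_congr rfl h1, Finset.sum_add_distrib, ← Finset.mul_sum, ← Finset.mul_sum,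
    ← Finset.sum_filter]
  unfold LamK
  push_cast
  ring

end Pool.Agent.ThA
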