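import Pool.Agent.ThA.Open

/-!
# The normalized bracket of a Gauss diagram and the f-polynomial of its code
-/

set_option autoImplicit false

open Module LaurentPolynomial

namespace Pool.Agent.ThA

open Pool.Agent.GaussJones Pool.Agent.Helper16.Knotoid Pool.Agent.UNI

variable {n : ℕ}

/-- the number of components of a state of the open diagram and the number of loops of the state
of the closed one -/
theorem loops_comps (D : GaussDiagram n) (s : Fin n → Bool) :
    GaussJones.loops D.pos (swE D.sign s) - 1 = D.comps s - 1 := by
  rw [loops_rank, D.comps_eq, gmat_eq, Nat.add_sub_cancel_left]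
  have h : (fun i => if swE D.sign s i = true then (0 : ZMod 2) else 1) =
      fun i => if s i = D.sign i then (0 : ZMod 2) else 1 := by
    funext i
    show (if (s i == D.sign i) = true then (0 : ZMod 2) else 1) = _
    cases s i <;> cases D.sign i <;> rfl
  rw [h]

/-- **the normalized bracket of a knotoid diagram is the f-polynomial of its code** -/
theorem normalizedBracket_eq (D : GaussDiagram n) :
    D.normalizedBracket = GaussJones.fPoly D.pos D.sign := by
  rcases Nat.eq_zero_or_pos n with rfl | hn
  · unfold fPoly GaussDiagram.normalizedBracket GaussJones.bracket GaussDiagram.bracket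
    have h1 : ∀ s : Fin 0 → Bool, D.comps s - 1 = 0 := by
      intro s
      rw [D.comps_eq, Nat.add_sub_cancel_left]
      refine Nat.le_zero.1 ((Submodule.finrank_le _).trans ?_)
      rw [finrank_fintype_fun_eq_card, Fintype.card_fin]
    have h2 : ∀ s : Fin 0 → Bool, GaussJones.loops D.pos s - 1 = 0 := by
      intro s
      rw [loops_rank]
      refine Nat.le_zero.1 ((Submodule.finrank_le _).trans ?_)
      rw [finrank_fintype_fun_eq_card, Fintype.card_fin]
    simp [h1, h2, GaussDiagram.writhe, GaussDiagram.stateSign]
  · exact (f_closed hn D.pos D.sign).symm

end Pool.Agent.ThA
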