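import Pool.Agent.ThA.SixMoves
import Pool.Agent.ThA.L3K
import Pool.Agent.ThA.PolyK

set_option autoImplicit false

/-!
# Knotoids: sequences of 6-moves
-/

namespace Pool.Agent.ThA

open Pool.Agent.GaussJones Pool.Agent.Helper16.Knotoid

/-- A knotoid diagram: a signed Gauss diagram with any number of crossings. -/
structure KDiagram where
  /-- the number of crossings -/
  n : ℕ
  /-- the Gauss diagram -/
  D : GaussDiagram n

/-- The normalized bracket polynomial `f` of a diagram. -/
noncomputable def KDiagram.f (D : KDiagram) : LaurentPolynomial ℤ := D.D.normalizedBracket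

/-- `D'` arises from `D` by inserting a twist region, see `Insertion`. -/
abbrev KInsertion (D D' : KDiagram) := Insertion D.D.pos D.D.sign D'.D.pos D'.D.sign

/-- `KMoves D D' k`: the knotoid diagram `D'` is obtained from `D` by a sequence of steps of three
kinds: a diagram may be replaced by any other one with the same polynomial `f` (for instance by one
of an isotopic knotoid), crossings may be inserted as in `Insertion`, with a sum of signs divisible
by `6`, and such crossings may be deleted.  The number `k` is the sum of the signs of all the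
parallel crossings inserted minus the sum of the signs of all the parallel crossings deleted. -/
inductive KMoves (D : KDiagram) : KDiagram → ℤ → Prop
  | refl : KMoves D D 0
  | same (D' D'' : KDiagram) (k : ℤ) : KMoves D D' k → D''.f = D'.f → KMoves D D'' k
  | insert (D' D'' : KDiagram) (k : ℤ) (I : KInsertion D' D'') : KMoves D D' k →
      (6 : ℤ) ∣ I.total → KMoves D D'' (k + if I.par = true then I.total else 0)
  | delete (D' D'' : KDiagram) (k : ℤ) (I : KInsertion D'' D') : KMoves D D' k →
      (6 : ℤ) ∣ I.total → KMoves D D'' (k - if I.par = true then I.total else 0)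

/-- the formula for `LamK` of a code -/
def FormulaK : Prop := ∀ (n : ℕ) (g : Code n) (e s : Fin n → Bool),
  (LamK (fPoly g e) : ℝ) / 12 = M2.PP e s + (M2.EE (kap g) e s).im / Real.sqrt 3

/-- the effect of one insertion -/
theorem Insertion.LamK_eq (h : FormulaK) {n n' : ℕ} {g : Code n} {e : Fin n → Bool} {g' : Code n'}
    {e' : Fin n' → Bool} (I : Insertion g e g' e') (h6 : (6 : ℤ) ∣ I.total) :
    LamK (fPoly g' e') = LamK (fPoly g e) + 12 * if I.par = true then I.total else 0 := by
  have h1 := h n g e (fun _ => true)
  have h2 := h n' g' e' (I.lift fun _ => true)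
  rw [I.EE_eq h6, I.PP_eq] at h2
  have h3 : (LamK (fPoly g' e') : ℝ) =
      ((LamK (fPoly g e) + 12 * if I.par = true then I.total else 0 : ℤ) : ℝ) := by
    push_cast at h1 h2 ⊢
    linarith
  exact_mod_cast h3

/-- **the 6-move law** -/
theorem KMoves.law (h : FormulaK) (hf : ∀ D : KDiagram, D.f = fPoly D.D.pos D.D.sign)
    {D D' : KDiagram} {k : ℤ} (hm : KMoves D D' k) : LamK D'.f = LamK D.f + 12 * k := by
  induction hm with
  | refl => rw [mul_zero, add_zero]
  | same D' D'' k _ hs ih => rw [hs, ih]
  | insert D' D'' k I _ h6 ih =>
    rw [hf D'', I.LamK_eq h h6, ← hf D', ih]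
    ring
  | delete D' D'' k I _ h6 ih =>
    have h1 := I.LamK_eq h h6
    rw [← hf D', ← hf D'', ih] at h1
    linarith

end Pool.Agent.ThA
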