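import Pool.Agent.Helper96.GJ.Defs

set_option autoImplicit false

/-!
# Theorem A: twist classes of a knot diagram and its signed number of parallel crossings
-/

namespace Pool.Agent.ThA

open Pool.Agent.GaussJones

variable {n : ℕ}

/-- Every crossing is interlaced with an even number of crossings.  Every planar diagram has this
property (Gauss); among the virtual knot diagrams it is that of the checkerboard colourable ones. -/
def EvenCode (g : Code n) : Prop := ∀ i, Even (Nat.card {j : Fin n // Interlaced g i j})

/-- A division of the crossings into `m` twist classes (some may be empty): crossings of the same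
class are interlaced with the same crossings of the other classes, and in every class either any two
different crossings are interlaced (a parallel class, `par = true`) or no two are (an antiparallel
class, `par = false`); a class with only one crossing may be declared to be of either kind. -/
structure TwistClasses (g : Code n) (m : ℕ) where
  /-- the class of a crossing -/
  cls : Fin n → Fin m
  /-- the parallel classes -/
  par : Fin m → Bool
  /-- crossings of different classes -/
  out : ∀ i j k, cls i = cls j → cls k ≠ cls i → (Interlaced g i k ↔ Interlaced g j k)
  /-- crossings of the same class -/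
  ins : ∀ i j, i ≠ j → cls i = cls j → (Interlaced g i j ↔ par (cls i) = true)

/-- The sign `1` or `-1` of the crossing `i`. -/
def sgn (e : Fin n → Bool) (i : Fin n) : ℤ := if e i = true then 1 else -1

namespace TwistClasses

variable {g : Code n} {m : ℕ}

/-- The signed number of parallel crossings: the sum of the signs of the crossings in the parallel
classes. -/
def mu (C : TwistClasses g m) (e : Fin n → Bool) : ℤ :=
  ∑ i, if C.par (C.cls i) = true then sgn e i else 0

/-- The sum of the signs of the crossings of the class `c`. -/
def length (C : TwistClasses g m) (e : Fin n → Bool) (c : Fin m) : ℤ :=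
  ∑ i, if C.cls i = c then sgn e i else 0

/-- The number of classes whose sum of signs is not divisible by `k`. -/
noncomputable def num (C : TwistClasses g m) (e : Fin n → Bool) (k : ℤ) : ℕ :=
  Nat.card {c : Fin m // ¬ k ∣ C.length e c}

end TwistClasses

/-- The bound `c(t, T) = t + (3 ^ T - 3 ^ (T - t)) / 2`; it is `0` for `t = 0`. -/
noncomputable def bnd (t T : ℕ) : ℝ := t + (3 ^ T - 3 ^ (T - t)) / 2

/-- `Λ(P) = ∑ m * v_m` over the `m` divisible by `3`, for `P = ∑ v_m t ^ m` with `t = A ^ (-4)`: the
coefficient `v_m` of `t ^ m` is that of `A ^ (-4 m)`. -/
noncomputable def Lam (P : LaurentPolynomial ℤ) : ℤ :=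
  ∑ k ∈ P.coeff.support.filter (fun k => (12 : ℤ) ∣ k), -(k / 4) * P.coeff k

end Pool.Agent.ThA
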