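import Mathlib
import Pool.Agent.ThA.Defs
import Pool.Agent.UNI.Knot

set_option autoImplicit false

/-!
# Theorem A: the loops of a state and the interlacement matrix
-/

open Module LaurentPolynomial

namespace Pool.Agent.ThA

open Pool.Agent.GaussJones Pool.Agent.Helper16.Knotoid Pool.Agent.UNI

variable {n : ℕ}

open Classical in
/-- the interlacement matrix -/
noncomputable def LL (g : Code n) : Matrix (Fin n) (Fin n) (ZMod 2) :=
  fun i j => if GaussJones.Interlaced g i j then 1 else 0

theorem LL_symm (g : Code n) (i j : Fin n) : LL g i j = LL g j i := by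
  classical
  unfold LL
  refine if_congr ?_ rfl rfl
  unfold GaussJones.Interlaced
  exact or_comm

theorem LL_self (g : Code n) (i : Fin n) : LL g i i = 0 := by
  unfold LL
  rw [if_neg]
  unfold GaussJones.Interlaced
  rintro (h | h)
  · exact lt_irrefl _ h.1
  · exact lt_irrefl _ h.1

theorem LL_even {g : Code n} (hg : EvenCode g) (i : Fin n) : ∑ j, LL g i j = 0 := by
  classical
  unfold LL
  rw [Finset.sum_boole, ZMod.natCast_eq_zero_iff_even]
  have h := hg i
  rwa [Nat.card_eq_fintype_card, Fintype.card_subtype] at h

/-- the number of loops of a state, less one -/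
theorem loops_rank (g : Code n) (s : Fin n → Bool) :
    GaussJones.loops g s - 1 = finrank (ZMod 2) (LinearMap.ker
      (LL g + Matrix.diagonal fun i => if s i = true then (0 : ZMod 2) else 1).mulVecLin) := by
  rcases Nat.eq_zero_or_pos n with rfl | hn
  · have h1 : GaussJones.loops g s = 0 := by
      unfold GaussJones.loops
      rw [Nat.card_eq_zero]
      left
      constructor
      intro q
      induction q using Quot.ind with
      | mk a => exact a.elim0
    have h2 : finrank (ZMod 2) (LinearMap.ker
      (LL g + Matrix.diagonal fun i => if s i = true then (0 : ZMod 2) else 1).mulVecLin) ≤ 0 := by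
      refine (Submodule.finrank_le _).trans ?_
      rw [finrank_fintype_fun_eq_card, Fintype.card_fin]
    omega
  · have h1 := loops_closed hn g (fun _ => true) s
    have h2 : (fun i => s i == true) = s := by
      funext i
      cases s i <;> rfl
    rw [h2, (cutOpen g fun _ => true).comps_eq] at h1
    have h3 : (cutOpen g fun _ => true).gmat s =
        LL g + Matrix.diagonal fun i => if s i = true then (0 : ZMod 2) else 1 := by
      ext i j
      rw [Matrix.add_apply]
      by_cases hij : i = j
      · subst hij
        rw [Matrix.diagonal_apply_eq, GaussDiagram.gmat_self, LL_self, zero_add]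
        rfl
      · rw [Matrix.diagonal_apply_ne _ hij, add_zero]
        apply zmod2_ext
        rw [← cut_iff, ← cut_closed]
        unfold LL GaussJones.Cut
        simp [hij]
    rw [h1, h3]
    omega

/-- the cutting smoothings of a division into twist classes -/
def cutting {g : Code n} {m : ℕ} (C : TwistClasses g m) : Fin n → Bool :=
  fun i => !(C.par (C.cls i))

/-- the diagonal of the cutting state -/
def pp {g : Code n} {m : ℕ} (C : TwistClasses g m) : Fin n → ZMod 2 :=
  fun i => if C.par (C.cls i) = true then 1 else 0

/-- the number of loops of a state, less one, in terms of the crossings with cutting smoothings -/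
theorem loops_cut {g : Code n} {m : ℕ} (C : TwistClasses g m) (s : Fin n → Bool)
    (W : Finset (Fin n)) (hW : ∀ i, i ∈ W ↔ s i = cutting C i) :
    GaussJones.loops g s - 1 = finrank (ZMod 2) (LinearMap.ker
      (LL g + Matrix.diagonal fun i => pp C i + if i ∈ W then (0 : ZMod 2) else 1).mulVecLin) := by
  rw [loops_rank]
  have h : (fun i => if s i = true then (0 : ZMod 2) else 1) =
      fun i => pp C i + if i ∈ W then (0 : ZMod 2) else 1 := by
    funext i
    rw [if_congr (hW i) rfl rfl]
    unfold pp cutting
    cases C.par (C.cls i) <;> cases s i <;> decide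
  rw [h]

/-- the rows of the matrix of the cutting state are equal on a class -/
theorem rows_eq {g : Code n} {m : ℕ} (C : TwistClasses g m) (i j : Fin n)
    (h : C.cls i = C.cls j) :
    (LL g + Matrix.diagonal (pp C)) i = (LL g + Matrix.diagonal (pp C)) j := by
  classical
  funext k
  rw [Matrix.add_apply, Matrix.add_apply]
  have key : ∀ a b : Fin n, C.cls a = C.cls b →
      LL g a b + Matrix.diagonal (pp C) a b = pp C a := by
    intro a b hab
    by_cases h1 : a = b
    · subst h1
      rw [LL_self, zero_add, Matrix.diagonal_apply_eq]
    · rw [Matrix.diagonal_apply_ne _ h1, add_zero]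
      unfold LL pp
      exact if_congr (C.ins a b h1 hab) rfl rfl
  by_cases hk : C.cls k = C.cls i
  · rw [key i k hk.symm, key j k (h.symm.trans hk.symm)]
    unfold pp
    rw [h]
  · have h1 : i ≠ k := fun h' => hk (by rw [h'])
    have h2 : j ≠ k := fun h' => hk (by rw [← h', h])
    rw [Matrix.diagonal_apply_ne _ h1, Matrix.diagonal_apply_ne _ h2]
    unfold LL
    rw [if_congr (C.out i j k h hk) rfl rfl]

end Pool.Agent.ThA
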