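import Pool.Agent.ThA.Defs

/-!
# Theorem A, module M2: the value and the derivative of the f-polynomial at `exp (π i / 6)`

`κ s` is the number of circles of the state `s` minus one (`s i = true`: the smoothing respects the
orientation at the crossing `i`), `e` gives the signs of the crossings.
-/

set_option autoImplicit false

open Complex LaurentPolynomial

namespace Pool.Agent.ThA.M2

variable {n : ℕ}

/-! ### Functions on the states which do not change when one smoothing is switched -/

theorem const_of_switch {R : Type} (h : (Fin n → Bool) → R)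
    (hs : ∀ s c, h (Function.update s c (!(s c))) = h s) (s t : Fin n → Bool) : h s = h t := by
  have key : ∀ S : Finset (Fin n), h (fun c => if c ∈ S then t c else s c) = h s := by
    intro S
    induction S using Finset.induction_on with
    | empty => simp
    | insert a S ha ih =>
      rw [← ih]
      by_cases hta : t a = s a
      · congr 1
        funext c
        by_cases hc : c = a
        · subst hc
          simp [ha, hta]
        · simp [hc]
      · have h1 : (fun c => if c ∈ insert a S then t c else s c) =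
            Function.update (fun c => if c ∈ S then t c else s c) a
              (!((fun c => if c ∈ S then t c else s c) a)) := by
          funext c
          by_cases hc : c = a
          · subst hc
            simp only [Finset.mem_insert, true_or, if_true, Function.update_self, ha, if_false]
            cases hs1 : s c <;> cases ht1 : t c <;> simp_all
          · rw [Function.update_of_ne hc]
            simp [hc]
        rw [h1, hs]
  have := key Finset.univ
  simp only [Finset.mem_univ, if_true] at this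
  rw [← this]

/-- the sign of a state: `-1` for every smoothing which respects the orientation -/
def osg (s : Fin n → Bool) : ℤ := ∏ c, if s c = true then -1 else 1

theorem osg_switch (s : Fin n → Bool) (c : Fin n) :
    osg (Function.update s c (!(s c))) = -osg s := by
  unfold osg
  rw [← Finset.mul_prod_erase Finset.univ _ (Finset.mem_univ c),
    ← Finset.mul_prod_erase Finset.univ (fun c => if s c = true then (-1 : ℤ) else 1)
      (Finset.mem_univ c), ← neg_mul]
  congr 1
  · rw [Function.update_self]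
    cases s c <;> rfl
  · refine Finset.prod_congr rfl fun d hd => ?_
    rw [Function.update_of_ne (Finset.ne_of_mem_erase hd)]

theorem osg_sq (s : Fin n → Bool) : osg s * osg s = 1 := by
  unfold osg
  rw [← Finset.prod_mul_distrib]
  refine Finset.prod_eq_one fun c _ => ?_
  split_ifs <;> norm_num

/-- the sign of the number of circles -/
theorem exists_eps (κ : (Fin n → Bool) → ℕ)
    (hκ : ∀ s c, κ (Function.update s c (!(s c))) = κ s + 1 ∨
      κ s = κ (Function.update s c (!(s c))) + 1) :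
    ∃ ε : ℤ, (ε = 1 ∨ ε = -1) ∧ ∀ s, (-1 : ℤ) ^ κ s = ε * osg s := by
  have h := const_of_switch (fun s => (-1 : ℤ) ^ κ s * osg s) (fun s c => by
    beta_reduce
    rw [osg_switch]
    rcases hκ s c with h | h <;> rw [h, pow_succ] <;> ring)
  set e : Fin n → Bool := fun _ => true with he
  refine ⟨(-1) ^ κ e * osg e, ?_, fun s => ?_⟩
  · have h1 : osg e = 1 ∨ osg e = -1 := mul_self_eq_one_iff.1 (osg_sq e)
    rcases neg_one_pow_eq_or ℤ (κ e) with h2 | h2 <;> rcases h1 with h1 | h1 <;> rw [h1, h2] <;>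
      norm_num
  · have h1 := h s e
    beta_reduce at h1
    rw [← h1, mul_assoc, osg_sq, mul_one]

/-! ### Sums of products over the states -/

theorem sum_prod (w : Fin n → Bool → ℂ) :
    ∑ s : Fin n → Bool, ∏ c, w c (s c) = ∏ c, (w c true + w c false) := by
  have h := Finset.prod_univ_sum (fun _ : Fin n => (Finset.univ : Finset Bool)) w
  rw [Fintype.piFinset_univ] at h
  rw [← h]
  refine Finset.prod_congr rfl fun c _ => ?_
  rw [Fintype.sum_bool]

theorem sum_prod_lin (q : Fin n → Bool → ℂ) (hq : ∀ c, q c true + q c false = 1)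
    (g : Fin n → Bool → ℂ) :
    ∑ s : Fin n → Bool, (∑ c, g c (s c)) * ∏ c, q c (s c) =
      ∑ c, (g c true * q c true + g c false * q c false) := by
  simp only [Finset.sum_mul]
  rw [Finset.sum_comm]
  refine Finset.sum_congr rfl fun c _ => ?_
  have h1 : ∀ s : Fin n → Bool, g c (s c) * ∏ d, q d (s d) =
      ∏ d, (if d = c then g c (s d) * q d (s d) else q d (s d)) := by
    intro s
    rw [← Finset.mul_prod_erase Finset.univ _ (Finset.mem_univ c),
      ← Finset.mul_prod_erase Finset.univ
        (fun d => if d = c then g c (s d) * q d (s d) else q d (s d))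
        (Finset.mem_univ c), if_pos rfl, mul_assoc]
    congr 2
    refine Finset.prod_congr rfl fun d hd => ?_
    rw [if_neg (Finset.ne_of_mem_erase hd)]
  rw [Finset.sum_congr rfl fun s _ => h1 s,
    sum_prod (fun d b => if d = c then g c b * q d b else q d b),
    ← Finset.mul_prod_erase Finset.univ _ (Finset.mem_univ c), if_pos rfl, if_pos rfl,
    Finset.prod_eq_one, mul_one]
  intro d hd
  rw [if_neg (Finset.ne_of_mem_erase hd), if_neg (Finset.ne_of_mem_erase hd), hq]

/-! ### The evaluation -/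

/-- the evaluation at `A = exp (x i)` -/
noncomputable def ev (x : ℝ) : ℤ[T;T⁻¹] →+* ℂ :=
  LaurentPolynomial.eval₂ (Int.castRingHom ℂ) (Units.mk0 (exp (x * I)) (exp_ne_zero _))

theorem ev_T (x : ℝ) (k : ℤ) : ev x (T k) = exp (k * (x * I)) := by
  unfold ev
  rw [eval₂_T, Units.val_zpow_eq_zpow_val, Units.val_mk0, ← exp_int_mul]

theorem ev_T_zpow (x : ℝ) (k : ℤ) : ev x (T k) = exp (x * I) ^ k := by
  rw [ev_T, exp_int_mul]

theorem hasDerivAt_ev_T (k : ℤ) (x : ℝ) :
    HasDerivAt (fun x : ℝ => ev x (T k)) (k * I * ev x (T k)) x := by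
  simp only [ev_T]
  have h1 : HasDerivAt (fun x : ℝ => (k : ℂ) * ((x : ℂ) * I)) (k * (1 * I)) x :=
    (((hasDerivAt_id x).ofReal_comp).mul_const I).const_mul _
  have h2 := h1.cexp
  rw [one_mul] at h2
  rw [mul_comm (k * I : ℂ)]
  exact h2

/-! ### The point `exp (π i / 6)` -/

/-- the point -/
noncomputable def om : ℂ := exp ((Real.pi / 6 : ℝ) * I)

/-- the weight of a smoothing of type `A` (`true`) or `B` (`false`) -/
noncomputable def q (b : Bool) : ℂ := if b then 1 / 2 - Real.sqrt 3 / 2 * I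
  else 1 / 2 + Real.sqrt 3 / 2 * I

theorem q_add : q true + q false = 1 := by
  unfold q
  rw [if_pos rfl, if_neg (by decide)]
  ring

theorem om_ne : om ≠ 0 := exp_ne_zero _

theorem om_sq : om ^ 2 = q false := by
  unfold om q
  rw [if_neg (by decide), ← Complex.exp_nat_mul]
  have h1 : ((2 : ℕ) : ℂ) * (((Real.pi / 6 : ℝ) : ℂ) * I) = ((Real.pi / 3 : ℝ) : ℂ) * I := by
    push_cast
    ring
  rw [h1, Complex.exp_mul_I, ← Complex.ofReal_cos, ← Complex.ofReal_sin, Real.cos_pi_div_three,
    Real.sin_pi_div_three]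
  push_cast
  ring

theorem sqrt3_sq : ((Real.sqrt 3 : ℝ) : ℂ) ^ 2 = 3 := by
  rw [← Complex.ofReal_pow, Real.sq_sqrt (by norm_num)]
  norm_num

theorem om_rel : om ^ 4 = om ^ 2 - 1 := by
  have h1 : om ^ 4 = (om ^ 2) ^ 2 := by ring
  rw [h1, om_sq]
  unfold q
  rw [if_neg (by decide)]
  have h2 := sqrt3_sq
  have h3 := I_sq
  linear_combination (1 / 4 : ℂ) * h2 * (I ^ 2) + (3 / 4 : ℂ) * h3

theorem q_false : q false = om ^ 2 := om_sq.symm

theorem q_true : q true = -om ^ 4 := by
  have h1 := q_add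
  rw [q_false] at h1
  rw [om_rel]
  linear_combination h1

theorem om_six : om ^ 6 = -1 := by
  have := om_rel
  linear_combination (om ^ 2 + 1) * this

/-- the variable of the loops -/
theorem ev_d : ev (Real.pi / 6) (-(T 2 + T (-2))) = -1 := by
  rw [map_neg, map_add, ev_T_zpow, ev_T_zpow]
  change -(om ^ (2 : ℤ) + om ^ (-2 : ℤ)) = -1
  have h0 := om_ne
  have h1 := om_rel
  rw [zpow_neg]
  have h2 : om ^ (2 : ℤ) = om ^ 2 := by norm_cast
  rw [h2]
  field_simp
  linear_combination -h1

theorem hasDerivAt_d : HasDerivAt (fun x : ℝ => ev x (-(T 2 + T (-2)))) (2 * Real.sqrt 3)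
    (Real.pi / 6) := by
  have h1 := ((hasDerivAt_ev_T 2 (Real.pi / 6)).fun_add
    (hasDerivAt_ev_T (-2) (Real.pi / 6))).fun_neg
  have h2 : (fun x : ℝ => ev x (-(T 2 + T (-2)))) = fun x : ℝ => -(ev x (T 2) + ev x (T (-2))) := by
    funext x
    rw [map_neg, map_add]
  rw [h2]
  refine h1.congr_deriv ?_
  rw [ev_T_zpow, ev_T_zpow]
  change -(((2 : ℤ) : ℂ) * I * om ^ (2 : ℤ) + ((-2 : ℤ) : ℂ) * I * om ^ (-2 : ℤ)) = _
  have h3 : om ^ (-2 : ℤ) = q true := by
    rw [zpow_neg, inv_eq_of_mul_eq_one_right]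
    rw [q_true]
    have h4 : om ^ (2 : ℤ) = om ^ 2 := by norm_cast
    rw [h4]
    have := om_six
    linear_combination -this
  have h4 : om ^ (2 : ℤ) = q false := by
    rw [q_false]
    norm_cast
  rw [h3, h4]
  unfold q
  rw [if_pos rfl, if_neg (by decide)]
  have h5 := I_sq
  push_cast
  linear_combination (-2 * (Real.sqrt 3 : ℂ)) * h5

theorem hasDerivAt_term (m : ℤ) (k : ℕ) :
    HasDerivAt (fun x : ℝ => ev x (T m * (-(T 2 + T (-2))) ^ k))
      ((m * I - 2 * Real.sqrt 3 * k) * (om ^ m * (-1) ^ k)) (Real.pi / 6) := by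
  have h1 := (hasDerivAt_ev_T m (Real.pi / 6)).fun_mul (hasDerivAt_d.fun_pow k)
  have h2 : (fun x : ℝ => ev x (T m * (-(T 2 + T (-2))) ^ k)) =
      fun x : ℝ => ev x (T m) * (ev x (-(T 2 + T (-2)))) ^ k := by
    funext x
    rw [map_mul, map_pow]
  rw [h2]
  refine h1.congr_deriv ?_
  rw [ev_d, ev_T_zpow]
  change (m * I * om ^ m) * (-1) ^ k + om ^ m * (k * (-1) ^ (k - 1) * (2 * Real.sqrt 3)) = _
  cases k with
  | zero =>
    push_cast
    ring
  | succ k =>
    rw [Nat.add_sub_cancel, pow_succ]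
    push_cast
    ring

/-! ### The normalized state sum -/

/-- the normalized state sum -/
noncomputable def fsum (κ : (Fin n → Bool) → ℕ) (e : Fin n → Bool) : ℤ[T;T⁻¹] :=
  (∏ i, if e i = true then -T (-3) else -T 3) *
    ∑ s : Fin n → Bool, (∏ i, if s i = e i then T 1 else T (-1)) *
      (-(T 2 + T (-2))) ^ κ s

theorem T_sum {ι : Type} (S : Finset ι) (f : ι → ℤ) :
    (T (∑ i ∈ S, f i) : ℤ[T;T⁻¹]) = ∏ i ∈ S, T (f i) := by
  classical
  induction S using Finset.induction_on with
  | empty => rw [Finset.sum_empty, Finset.prod_empty, T_zero]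
  | insert a S ha ih => rw [Finset.sum_insert ha, Finset.prod_insert ha, T_add, ih]

theorem fsum_eq (κ : (Fin n → Bool) → ℕ) (e : Fin n → Bool) :
    fsum κ e = (-1) ^ n * T (-3 * ∑ i, sgn e i) *
      ∑ s : Fin n → Bool, T (∑ i, if s i = e i then (1 : ℤ) else -1) *
        (-(T 2 + T (-2))) ^ κ s := by
  unfold fsum
  congr 1
  · rw [Finset.mul_sum, T_sum]
    have h1 : ((-1 : ℤ[T;T⁻¹]) ^ n) = ∏ _i : Fin n, (-1 : ℤ[T;T⁻¹]) := by
      rw [Finset.prod_const, Finset.card_univ, Fintype.card_fin]
    rw [h1, ← Finset.prod_mul_distrib]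
    refine Finset.prod_congr rfl fun i _ => ?_
    unfold sgn
    cases e i
    · simp
    · simp
  · refine Finset.sum_congr rfl fun s _ => ?_
    rw [T_sum]
    congr 1
    refine Finset.prod_congr rfl fun i _ => ?_
    split_ifs <;> rfl

theorem zpow_sum {ι : Type} (S : Finset ι) (u : ℂ) (hu : u ≠ 0) (f : ι → ℤ) :
    u ^ (∑ c ∈ S, f c) = ∏ c ∈ S, u ^ f c := by
  classical
  induction S using Finset.induction_on with
  | empty => rw [Finset.sum_empty, Finset.prod_empty, zpow_zero]
  | insert a S ha ih =>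
    rw [Finset.sum_insert ha, Finset.prod_insert ha, zpow_add₀ hu, ih]

/-- the weight of a state -/
theorem weight (e s : Fin n → Bool) :
    (-1) ^ n * om ^ (-3 * ∑ i, sgn e i) *
      (om ^ (∑ c, if s c = e c then (1 : ℤ) else -1) * (osg s : ℂ)) = ∏ c, q (s c == e c) := by
  have h6 := om_six
  have h0 : om ^ (-1 : ℤ) = -om ^ 5 := by
    rw [zpow_neg, inv_eq_of_mul_eq_one_right]
    rw [_root_.zpow_one]
    linear_combination -h6
  have h3 : om ^ (-3 : ℤ) = -om ^ 3 := by
    rw [zpow_neg, inv_eq_of_mul_eq_one_right]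
    have h4 : om ^ (3 : ℤ) = om ^ 3 := by norm_cast
    rw [h4]
    linear_combination -h6
  have h3' : om ^ (3 : ℤ) = om ^ 3 := by norm_cast
  have h1 : ((-1 : ℂ) ^ n) = ∏ _i : Fin n, (-1 : ℂ) := by
    rw [Finset.prod_const, Finset.card_univ, Fintype.card_fin]
  rw [h1, Finset.mul_sum, zpow_sum _ _ om_ne, zpow_sum _ _ om_ne]
  unfold osg sgn
  push_cast
  rw [← Finset.prod_mul_distrib, ← Finset.prod_mul_distrib, ← Finset.prod_mul_distrib]
  refine Finset.prod_congr rfl fun c _ => ?_
  cases hs : s c <;> cases he : e c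
  · simp only [if_true, Bool.false_eq_true, if_false, beq_self_eq_true, mul_neg, mul_one, neg_neg,
      _root_.zpow_one]
    rw [q_true, h3']
    ring
  · simp only [if_true, Bool.false_eq_true, if_false, mul_one]
    rw [h0, h3]
    change _ = q false
    rw [q_false]
    linear_combination (-om ^ 2) * h6
  · simp only [if_true, Bool.true_eq_false, Bool.false_eq_true, if_false, mul_neg, mul_one, neg_neg]
    rw [h0, h3']
    change _ = q false
    rw [q_false]
    linear_combination (-om ^ 2) * h6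
  · simp only [if_true, mul_one, _root_.zpow_one, beq_self_eq_true]
    rw [h3, q_true]
    ring

/-- the mean of the excess of a state `s` relative to the state `σ` -/
noncomputable def EE (κ : (Fin n → Bool) → ℕ) (e σ : Fin n → Bool) : ℂ :=
  ∑ s : Fin n → Bool, ((κ s : ℂ) - ∑ c, if s c = σ c then 1 else 0) * ∏ c, q (s c == e c)

/-- the sum of the signs of the crossings at which `σ` does not respect the orientation -/
def PP (e σ : Fin n → Bool) : ℤ := ∑ c, if σ c = true then 0 else sgn e c

theorem q_add' (b : Bool) : q (true == b) + q (false == b) = 1 := by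
  cases b
  · change q false + q true = 1
    rw [add_comm]
    exact q_add
  · exact q_add

theorem sum_q (e : Fin n → Bool) : ∑ s : Fin n → Bool, ∏ c, q (s c == e c) = 1 := by
  rw [sum_prod (fun c b => q (b == e c))]
  exact Finset.prod_eq_one fun c _ => q_add' (e c)

theorem sum_kappa (κ : (Fin n → Bool) → ℕ) (e σ : Fin n → Bool) :
    ∑ s : Fin n → Bool, (((-3 * ∑ i, sgn e i : ℤ) : ℂ) * I +
      (((∑ c, if s c = e c then (1 : ℤ) else -1 : ℤ) : ℂ) * I - 2 * Real.sqrt 3 * κ s)) *
      ∏ c, q (s c == e c) = -6 * PP e σ * I - 2 * Real.sqrt 3 * EE κ e σ := by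
  have h2 : ∀ s : Fin n → Bool, (((-3 * ∑ i, sgn e i : ℤ) : ℂ) * I +
      (((∑ c, if s c = e c then (1 : ℤ) else -1 : ℤ) : ℂ) * I - 2 * Real.sqrt 3 * κ s)) *
      ∏ c, q (s c == e c) =
      ((-3 * ∑ i, sgn e i : ℤ) : ℂ) * I * ∏ c, q (s c == e c) +
      (∑ c, ((if s c = e c then (1 : ℂ) else -1) * I -
        2 * Real.sqrt 3 * if s c = σ c then (1 : ℂ) else 0)) * ∏ c, q (s c == e c) -
      2 * Real.sqrt 3 * (((κ s : ℂ) - ∑ c, if s c = σ c then 1 else 0) *
        ∏ c, q (s c == e c)) := by
    intro s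
    rw [Finset.sum_sub_distrib, ← Finset.sum_mul, ← Finset.mul_sum]
    push_cast
    ring
  rw [Finset.sum_congr rfl fun s _ => h2 s, Finset.sum_sub_distrib, Finset.sum_add_distrib,
    ← Finset.mul_sum, ← Finset.mul_sum, sum_q,
    sum_prod_lin (fun c b => q (b == e c)) (fun c => q_add' (e c)) (fun c b =>
      (if b = e c then (1 : ℂ) else -1) * I - 2 * Real.sqrt 3 * if b = σ c then (1 : ℂ) else 0)]
  change _ + _ - _ * EE κ e σ = _
  have h3 : ((PP e σ : ℤ) : ℂ) = ∑ c, ((if σ c = true then 0 else sgn e c : ℤ) : ℂ) := by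
    unfold PP
    push_cast
    rfl
  have h4 : (((-3 * ∑ i, sgn e i : ℤ) : ℂ)) = ∑ c, (-3 * ((sgn e c : ℤ) : ℂ)) := by
    rw [← Finset.mul_sum]
    push_cast
    rfl
  rw [h3, h4, mul_one, Finset.mul_sum, Finset.sum_mul, Finset.sum_mul, ← Finset.sum_add_distrib]
  congr 1
  refine Finset.sum_congr rfl fun c _ => ?_
  have h5 := sqrt3_sq
  have h6 := I_sq
  have q1 : q true = 1 / 2 - Real.sqrt 3 / 2 * I := rfl
  have q2 : q false = 1 / 2 + Real.sqrt 3 / 2 * I := rfl
  unfold sgn
  cases hs : σ c <;> cases he : e c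
  · change (-3 * (((if false = true then 1 else -1 : ℤ)) : ℂ)) * I +
      (((if true = false then (1 : ℂ) else -1) * I -
        2 * Real.sqrt 3 * if true = false then (1 : ℂ) else 0) * q false +
      ((if false = false then (1 : ℂ) else -1) * I -
        2 * Real.sqrt 3 * if false = false then (1 : ℂ) else 0) * q true) = _
    simp only [if_true, Bool.false_eq_true, Bool.true_eq_false, if_false]
    rw [q1, q2]
    push_cast
    linear_combination (I) * h5 - (Real.sqrt 3 : ℂ) * h6
  · change (-3 * (((if true = true then 1 else -1 : ℤ)) : ℂ)) * I +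
      (((if true = true then (1 : ℂ) else -1) * I -
        2 * Real.sqrt 3 * if true = false then (1 : ℂ) else 0) * q true +
      ((if false = true then (1 : ℂ) else -1) * I -
        2 * Real.sqrt 3 * if false = false then (1 : ℂ) else 0) * q false) = _
    simp only [if_true, Bool.false_eq_true, Bool.true_eq_false, if_false]
    rw [q1, q2]
    push_cast
    linear_combination (-I) * h5 - (Real.sqrt 3 : ℂ) * h6
  · change (-3 * (((if false = true then 1 else -1 : ℤ)) : ℂ)) * I +
      (((if true = false then (1 : ℂ) else -1) * I -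
        2 * Real.sqrt 3 * if true = true then (1 : ℂ) else 0) * q false +
      ((if false = false then (1 : ℂ) else -1) * I -
        2 * Real.sqrt 3 * if false = true then (1 : ℂ) else 0) * q true) = _
    simp only [if_true, Bool.false_eq_true, Bool.true_eq_false, if_false]
    rw [q1, q2]
    push_cast
    linear_combination (-I) * h5 - (Real.sqrt 3 : ℂ) * h6
  · change (-3 * (((if true = true then 1 else -1 : ℤ)) : ℂ)) * I +
      (((if true = true then (1 : ℂ) else -1) * I -
        2 * Real.sqrt 3 * if true = true then (1 : ℂ) else 0) * q true +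
      ((if false = true then (1 : ℂ) else -1) * I -
        2 * Real.sqrt 3 * if false = true then (1 : ℂ) else 0) * q false) = _
    simp only [if_true, Bool.false_eq_true, if_false]
    rw [q1, q2]
    push_cast
    linear_combination (I) * h5 - (Real.sqrt 3 : ℂ) * h6

theorem aux {ι : Type} [Fintype ι] (a b c ε : ℂ) (U V W : ι → ℂ)
    (h : ∀ s, c * (a * U s + b * V s) = ε * W s) :
    c * (a * ∑ s, U s + b * ∑ s, V s) = ε * ∑ s, W s := by
  rw [Finset.mul_sum Finset.univ U, Finset.mul_sum Finset.univ V, ← Finset.sum_add_distrib,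
    Finset.mul_sum, Finset.mul_sum]
  exact Finset.sum_congr rfl fun s _ => h s

/-- **the value and the derivative of the normalized state sum at `exp (π i / 6)`** -/
theorem main (κ : (Fin n → Bool) → ℕ) (e : Fin n → Bool)
    (hκ : ∀ s c, κ (Function.update s c (!(s c))) = κ s + 1 ∨
      κ s = κ (Function.update s c (!(s c))) + 1) :
    ∃ ε : ℤ, (ε = 1 ∨ ε = -1) ∧ ev (Real.pi / 6) (fsum κ e) = ε ∧
      ∀ σ : Fin n → Bool, HasDerivAt (fun x : ℝ => ev x (fsum κ e))
        (ε * (-6 * PP e σ * I - 2 * Real.sqrt 3 * EE κ e σ)) (Real.pi / 6) := by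
  obtain ⟨ε, h1, h2⟩ := exists_eps κ hκ
  have h2' : ∀ s, (-1 : ℂ) ^ κ s = ε * osg s := by
    intro s
    have := congrArg (fun z : ℤ => (z : ℂ)) (h2 s)
    push_cast at this
    exact this
  refine ⟨ε, h1, ?_, fun σ => ?_⟩
  · rw [fsum_eq, map_mul, map_mul, map_pow, map_neg, map_one, map_sum, ev_T_zpow, Finset.mul_sum]
    have h3 : ∀ s : Fin n → Bool,
        (-1) ^ n * exp ((Real.pi / 6 : ℝ) * I) ^ (-3 * ∑ i, sgn e i) *
        ev (Real.pi / 6) (T (∑ i, if s i = e i then (1 : ℤ) else -1) *
        (-(T 2 + T (-2))) ^ κ s) = ε * ∏ c, q (s c == e c) := by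
      intro s
      rw [map_mul, map_pow, ev_d, ev_T_zpow, h2', ← weight e s]
      unfold om
      ring
    rw [Finset.sum_congr rfl fun s _ => h3 s, ← Finset.mul_sum, sum_q, mul_one]
  · have h4 : HasDerivAt (fun x : ℝ => ∑ s : Fin n → Bool,
          ev x (T (∑ c, if s c = e c then (1 : ℤ) else -1) * (-(T 2 + T (-2))) ^ κ s))
        (∑ s : Fin n → Bool, (((∑ c, if s c = e c then (1 : ℤ) else -1 : ℤ) : ℂ) * I -
          2 * Real.sqrt 3 * κ s) * (om ^ (∑ c, if s c = e c then (1 : ℤ) else -1) * (-1) ^ κ s))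
        (Real.pi / 6) :=
      HasDerivAt.fun_sum fun s _ =>
        hasDerivAt_term (∑ c, if s c = e c then (1 : ℤ) else -1) (κ s)
    have h5 := (((hasDerivAt_ev_T (-3 * ∑ i, sgn e i)
      (Real.pi / 6)).fun_mul h4).const_mul ((-1 : ℂ) ^ n))
    have h6 : (fun x : ℝ => ev x (fsum κ e)) = fun x : ℝ =>
        (-1 : ℂ) ^ n * (ev x (T (-3 * ∑ i, sgn e i)) * ∑ s : Fin n → Bool,
          ev x (T (∑ c, if s c = e c then (1 : ℤ) else -1) * (-(T 2 + T (-2))) ^ κ s)) := by
      funext x
      rw [fsum_eq, map_mul, map_mul, map_pow, map_neg, map_one, map_sum, mul_assoc]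
    rw [h6]
    refine h5.congr_deriv ?_
    rw [← sum_kappa]
    refine aux _ _ _ _ _ _ _ fun s => ?_
    rw [map_mul, map_pow, ev_d, ev_T_zpow, ev_T_zpow, h2', ← weight e s]
    unfold om
    ring

/-- **two diagrams with the same polynomial** -/
theorem compare {n' : ℕ} (κ : (Fin n → Bool) → ℕ) (e : Fin n → Bool)
    (hκ : ∀ s c, κ (Function.update s c (!(s c))) = κ s + 1 ∨
      κ s = κ (Function.update s c (!(s c))) + 1)
    (κ' : (Fin n' → Bool) → ℕ) (e' : Fin n' → Bool)
    (hκ' : ∀ s c, κ' (Function.update s c (!(s c))) = κ' s + 1 ∨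
      κ' s = κ' (Function.update s c (!(s c))) + 1)
    (h : fsum κ e = fsum κ' e') (σ : Fin n → Bool) (σ' : Fin n' → Bool) :
    -6 * (PP e σ : ℂ) + 2 * I * Real.sqrt 3 * EE κ e σ =
      -6 * (PP e' σ' : ℂ) + 2 * I * Real.sqrt 3 * EE κ' e' σ' := by
  obtain ⟨ε, h1, h2, h3⟩ := main κ e hκ
  obtain ⟨ε', h1', h2', h3'⟩ := main κ' e' hκ'
  rw [← h, h2] at h2'
  rw [← h] at h3'
  have h4 := (h3 σ).unique (h3' σ')
  rw [← h2'] at h4
  have h5 : (ε : ℂ) ≠ 0 := by
    rcases h1 with h1 | h1 <;> rw [h1] <;> norm_num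
  have h6 := mul_left_cancel₀ h5 h4
  have h7 := I_sq
  linear_combination (-I) * h6 - (6 * (PP e σ : ℂ) - 6 * (PP e' σ' : ℂ)) * h7

/-- **a diagram with trivial polynomial** -/
theorem compare_one (κ : (Fin n → Bool) → ℕ) (e : Fin n → Bool)
    (hκ : ∀ s c, κ (Function.update s c (!(s c))) = κ s + 1 ∨
      κ s = κ (Function.update s c (!(s c))) + 1)
    (h : fsum κ e = 1) (σ : Fin n → Bool) :
    -6 * (PP e σ : ℂ) + 2 * I * Real.sqrt 3 * EE κ e σ = 0 := by
  have h0 : fsum (n := 0) (fun _ => 0) (fun _ => true) = 1 := by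
    simp [fsum]
  have h1 := compare κ e hκ (n' := 0) (fun _ => 0) (fun _ => true) (fun _ c => Fin.elim0 c)
    (h.trans h0.symm) σ (fun _ => true)
  rw [h1]
  simp [PP, EE]

end Pool.Agent.ThA.M2
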