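import Mathlib

/-!
# ThA, module M1: flipping one diagonal entry of a symmetric matrix with even rows over `ZMod 2`

`N` is symmetric over `ZMod 2` and the off-diagonal part of every row has even sum.  Then adding `1`
to one diagonal entry changes the dimension of the kernel by exactly one.
-/

set_option autoImplicit false

open Module

namespace Pool.Agent.ThA

section Flip

variable {ι : Type*} [Fintype ι] [DecidableEq ι]

theorem z2_cases (a : ZMod 2) : a = 0 ∨ a = 1 := by
  revert a
  decide

/-- the kernel of a matrix -/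
abbrev kerM (N : Matrix ι ι (ZMod 2)) : Submodule (ZMod 2) (ι → ZMod 2) :=
  LinearMap.ker N.mulVecLin

/-- the elements of the kernel which vanish at `c` -/
def ker0 (N : Matrix ι ι (ZMod 2)) (c : ι) : Submodule (ZMod 2) (ι → ZMod 2) :=
  kerM N ⊓ LinearMap.ker (LinearMap.proj c : (ι → ZMod 2) →ₗ[ZMod 2] ZMod 2)

omit [DecidableEq ι] in
theorem mem_kerM (N : Matrix ι ι (ZMod 2)) (x : ι → ZMod 2) : x ∈ kerM N ↔ N.mulVec x = 0 := by
  rw [LinearMap.mem_ker, Matrix.mulVecLin_apply]

omit [DecidableEq ι] in
theorem mem_ker0 (N : Matrix ι ι (ZMod 2)) (c : ι) (x : ι → ZMod 2) :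
    x ∈ ker0 N c ↔ N.mulVec x = 0 ∧ x c = 0 := by
  unfold ker0
  rw [Submodule.mem_inf, mem_kerM]
  rfl

/-- the matrix with `1` added at the place `(c, c)` -/
def flip (N : Matrix ι ι (ZMod 2)) (c : ι) : Matrix ι ι (ZMod 2) :=
  fun i j => N i j + if i = c ∧ j = c then 1 else 0

theorem flip_mulVec (N : Matrix ι ι (ZMod 2)) (c : ι) (x : ι → ZMod 2) (i : ι) :
    (flip N c).mulVec x i = N.mulVec x i + if i = c then x c else 0 := by
  unfold flip Matrix.mulVec dotProduct
  simp only [add_mul, Finset.sum_add_distrib]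
  congr 1
  by_cases h : i = c
  · rw [if_pos h, Finset.sum_eq_single c]
    · rw [if_pos ⟨h, rfl⟩, one_mul]
    · intro j _ hj
      rw [if_neg (fun h' => hj h'.2), zero_mul]
    · intro h'
      exact absurd (Finset.mem_univ c) h'
  · rw [if_neg h]
    refine Finset.sum_eq_zero fun j _ => ?_
    rw [if_neg (fun h' => h h'.1), zero_mul]

theorem ker0_flip (N : Matrix ι ι (ZMod 2)) (c : ι) : ker0 (flip N c) c = ker0 N c := by
  ext x
  rw [mem_ker0, mem_ker0]
  constructor
  · rintro ⟨h1, h2⟩
    refine ⟨?_, h2⟩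
    funext i
    have h3 := congrFun h1 i
    rw [flip_mulVec, h2] at h3
    simpa using h3
  · rintro ⟨h1, h2⟩
    refine ⟨?_, h2⟩
    funext i
    rw [flip_mulVec, h2, h1]
    simp

/-- either all elements of the kernel vanish at `c`, or the kernel is larger by one than its part
vanishing at `c` -/
theorem finrank_kerM (N : Matrix ι ι (ZMod 2)) (c : ι) :
    finrank (ZMod 2) (kerM N) = finrank (ZMod 2) (ker0 N c) ∧ (∀ x ∈ kerM N, x c = 0) ∨
    finrank (ZMod 2) (kerM N) = finrank (ZMod 2) (ker0 N c) + 1 ∧ ∃ x ∈ kerM N, x c = 1 := by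
  by_cases h : ∀ x ∈ kerM N, x c = 0
  · left
    refine ⟨?_, h⟩
    have : ker0 N c = kerM N := by
      ext x
      rw [mem_ker0, mem_kerM]
      exact ⟨fun h' => h'.1, fun h' => ⟨h', h x ((mem_kerM N x).2 h')⟩⟩
    rw [this]
  · right
    push Not at h
    obtain ⟨x, hx, hxc⟩ := h
    have hxc1 : x c = 1 := (z2_cases (x c)).resolve_left hxc
    refine ⟨?_, x, hx, hxc1⟩
    let L : kerM N →ₗ[ZMod 2] ZMod 2 :=
      (LinearMap.proj c : (ι → ZMod 2) →ₗ[ZMod 2] ZMod 2).comp (kerM N).subtype
    have h1 := LinearMap.finrank_range_add_finrank_ker L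
    have h2 : LinearMap.range L = ⊤ := by
      rw [LinearMap.range_eq_top]
      intro t
      refine ⟨t • ⟨x, hx⟩, ?_⟩
      show t * x c = t
      rw [hxc1, mul_one]
    have h3 : finrank (ZMod 2) (LinearMap.ker L) = finrank (ZMod 2) (ker0 N c) := by
      have e : LinearMap.ker L ≃ₗ[ZMod 2] ker0 N c :=
        { toFun := fun y => ⟨y.1.1, (mem_ker0 N c _).2 ⟨(mem_kerM N _).1 y.1.2, y.2⟩⟩
          map_add' := fun _ _ => rfl
          map_smul' := fun _ _ => rfl
          invFun := fun y => ⟨⟨y.1, (mem_kerM N _).2 ((mem_ker0 N c _).1 y.2).1⟩,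
            ((mem_ker0 N c _).1 y.2).2⟩
          left_inv := fun _ => rfl
          right_inv := fun _ => rfl }
      exact e.finrank_eq
    rw [h2, finrank_top, finrank_self, h3] at h1
    omega

/-- for a symmetric matrix the range is the orthogonal complement of the kernel -/
theorem exists_mulVec (N : Matrix ι ι (ZMod 2)) (hN : ∀ a b, N a b = N b a) (w : ι → ZMod 2)
    (h : ∀ x, N.mulVec x = 0 → ∑ f, w f * x f = 0) : ∃ x, N.mulVec x = w := by
  let φ : Dual (ZMod 2) (ι → ZMod 2) :=
    { toFun := fun x => ∑ f, w f * x f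
      map_add' := fun x y => by
        rw [← Finset.sum_add_distrib]
        exact Finset.sum_congr rfl fun f _ => by simp only [Pi.add_apply]; ring
      map_smul' := fun a x => by
        simp only [Pi.smul_apply, smul_eq_mul, RingHom.id_apply]
        rw [Finset.mul_sum]
        exact Finset.sum_congr rfl fun f _ => by ring }
  have h1 : φ ∈ (LinearMap.ker N.mulVecLin).dualAnnihilator := by
    rw [Submodule.mem_dualAnnihilator]
    intro x hx
    exact h x hx
  rw [← LinearMap.range_dualMap_eq_dualAnnihilator_ker] at h1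
  obtain ⟨ψ, hψ⟩ := h1
  refine ⟨fun i => ψ (Pi.single i 1), ?_⟩
  funext j
  have h2 : ψ (N.mulVecLin (Pi.single j 1)) = φ (Pi.single j 1) := by
    rw [← hψ]
    rfl
  have h3 : φ (Pi.single j 1) = w j := by
    show ∑ f, w f * (Pi.single j 1 : ι → ZMod 2) f = w j
    rw [Finset.sum_eq_single j]
    · simp
    · intro b _ hb
      rw [Pi.single_eq_of_ne hb, mul_zero]
    · simp
  have h4 : N.mulVecLin (Pi.single j 1) = ∑ i, N i j • (Pi.single i 1 : ι → ZMod 2) := by
    funext k
    rw [Matrix.mulVecLin_apply, Finset.sum_apply]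
    simp [Pi.single_apply]
  rw [h4, map_sum] at h2
  rw [← h3, ← h2]
  show ∑ i, N j i * ψ (Pi.single i 1) = _
  refine Finset.sum_congr rfl fun i _ => ?_
  rw [map_smul, hN j i, smul_eq_mul]

/-- `x ↦ xᵀ N x` only sees the diagonal -/
theorem quad_diag (N : Matrix ι ι (ZMod 2)) (hN : ∀ a b, N a b = N b a) (x : ι → ZMod 2) :
    ∑ i, x i * N.mulVec x i = ∑ i, N i i * x i := by
  unfold Matrix.mulVec dotProduct
  have h1 : ∑ i, x i * ∑ j, N i j * x j = ∑ p : ι × ι, x p.1 * N p.1 p.2 * x p.2 := by
    rw [Fintype.sum_prod_type]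
    refine Finset.sum_congr rfl fun i _ => ?_
    rw [Finset.mul_sum]
    exact Finset.sum_congr rfl fun j _ => by ring
  have h2 : ∑ i, N i i * x i = ∑ p ∈ Finset.univ.filter (fun p : ι × ι => p.1 = p.2),
      x p.1 * N p.1 p.2 * x p.2 := by
    rw [← Finset.sum_nbij' (s := (Finset.univ : Finset ι))
      (t := Finset.univ.filter (fun p : ι × ι => p.1 = p.2)) (f := fun i => N i i * x i)
      (fun i => (i, i)) (fun p => p.1)]
    · intro i _
      simp
    · intro p _
      exact Finset.mem_univ _
    · intro i _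
      rfl
    · rintro ⟨a, b⟩ hp
      rw [Finset.mem_filter] at hp
      exact Prod.ext rfl hp.2
    · intro i _
      rcases z2_cases (x i) with h | h <;> simp [h]
  rw [h1, h2, ← Finset.sum_filter_add_sum_filter_not (Finset.univ : Finset (ι × ι))
    (fun p => p.1 = p.2)]
  have h3 : ∑ p ∈ Finset.univ.filter (fun p : ι × ι => ¬ p.1 = p.2), x p.1 * N p.1 p.2 * x p.2
      = 0 := by
    refine Finset.sum_involution (fun p _ => (p.2, p.1)) ?_ ?_ ?_ ?_
    · rintro ⟨a, b⟩ _
      show x a * N a b * x b + x b * N b a * x a = 0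
      rw [hN b a]
      have : x b * N a b * x a = x a * N a b * x b := by ring
      rw [this]
      generalize x a * N a b * x b = t
      revert t
      decide
    · rintro ⟨a, b⟩ hp _ h
      rw [Finset.mem_filter] at hp
      exact hp.2 (congrArg Prod.snd h)
    · rintro ⟨a, b⟩ hp
      rw [Finset.mem_filter] at hp ⊢
      exact ⟨Finset.mem_univ _, fun h => hp.2 h.symm⟩
    · rintro ⟨a, b⟩ _
      rfl
  rw [h3, add_zero]

/-- the off-diagonal part of every row has even sum -/
def EvenRows (N : Matrix ι ι (ZMod 2)) : Prop := ∀ i, ∑ j, (if j = i then 0 else N i j) = 0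

theorem sum_mulVec (N : Matrix ι ι (ZMod 2)) (hN : ∀ a b, N a b = N b a) (hE : EvenRows N)
    (x : ι → ZMod 2) : ∑ i, N.mulVec x i = ∑ i, N i i * x i := by
  unfold Matrix.mulVec dotProduct
  rw [Finset.sum_comm]
  refine Finset.sum_congr rfl fun j _ => ?_
  rw [← Finset.sum_mul]
  congr 1
  have h1 : ∑ i, N i j = ∑ i, (if i = j then 0 else N j i) + ∑ i, (if i = j then N i i else 0) := by
    rw [← Finset.sum_add_distrib]
    refine Finset.sum_congr rfl fun i _ => ?_
    by_cases h : i = j
    · subst h
      rw [if_pos rfl, if_pos rfl, zero_add]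
    · rw [if_neg h, if_neg h, add_zero, hN i j]
  rw [h1, hE j, zero_add, Finset.sum_ite_eq' Finset.univ j (fun i => N i i),
    if_pos (Finset.mem_univ j)]

/-- no vector vanishing at `c` is mapped to the unit vector at `c` -/
theorem no_unit (N : Matrix ι ι (ZMod 2)) (hN : ∀ a b, N a b = N b a) (hE : EvenRows N) (c : ι)
    (x : ι → ZMod 2) (hx : x c = 0) : N.mulVec x ≠ Pi.single c 1 := by
  intro h
  have h1 := quad_diag N hN x
  rw [← sum_mulVec N hN hE x, h] at h1
  rw [Finset.sum_eq_single c, Finset.sum_eq_single c] at h1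
  · rw [hx, zero_mul, Pi.single_eq_same] at h1
    exact absurd h1 (by decide)
  · intro b _ hb
    exact Pi.single_eq_of_ne hb _
  · intro h'
    exact absurd (Finset.mem_univ c) h'
  · intro b _ hb
    rw [Pi.single_eq_of_ne hb, mul_zero]
  · intro h'
    exact absurd (Finset.mem_univ c) h'

/-- **M1**: flipping a diagonal entry changes the dimension of the kernel by exactly one -/
theorem flip_finrank (N : Matrix ι ι (ZMod 2)) (hN : ∀ a b, N a b = N b a) (hE : EvenRows N)
    (c : ι) :
    finrank (ZMod 2) (kerM (flip N c)) = finrank (ZMod 2) (kerM N) + 1 ∨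
      finrank (ZMod 2) (kerM (flip N c)) + 1 = finrank (ZMod 2) (kerM N) := by
  have k1 := finrank_kerM N c
  have k2 := finrank_kerM (flip N c) c
  rw [ker0_flip] at k2
  rcases k1 with ⟨a1, b1⟩ | ⟨a1, x, hx, hxc⟩
  · rcases k2 with ⟨a2, b2⟩ | ⟨a2, -⟩
    · exfalso
      obtain ⟨w, hw⟩ := exists_mulVec N hN (Pi.single c 1) (fun x hx => by
        rw [Finset.sum_eq_single c]
        · rw [b1 x ((mem_kerM N x).2 hx), mul_zero]
        · intro b _ hb
          rw [Pi.single_eq_of_ne hb, zero_mul]
        · intro h'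
          exact absurd (Finset.mem_univ c) h')
      rcases z2_cases (w c) with h0 | h0
      · exact no_unit N hN hE c w h0 hw
      · have hmem : w ∈ kerM (flip N c) := by
          rw [mem_kerM]
          funext i
          rw [flip_mulVec, hw, h0]
          by_cases hi : i = c
          · subst hi
            rw [Pi.single_eq_same, if_pos rfl]
            show (1 : ZMod 2) + 1 = 0
            decide
          · rw [Pi.single_eq_of_ne hi, if_neg hi]
            rfl
        have := b2 w hmem
        rw [h0] at this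
        exact absurd this (by decide)
    · left
      omega
  · rcases k2 with ⟨a2, -⟩ | ⟨a2, y, hy, hyc⟩
    · right
      omega
    · exfalso
      rw [mem_kerM] at hx hy
      refine no_unit N hN hE c (x + y) (by rw [Pi.add_apply, hxc, hyc]; decide) ?_
      funext i
      rw [Matrix.mulVec_add, Pi.add_apply]
      have h1 := congrFun hx i
      have h2 := congrFun hy i
      rw [flip_mulVec, hyc] at h2
      rw [h1, Pi.zero_apply, zero_add]
      by_cases hi : i = c
      · subst hi
        rw [if_pos rfl, Pi.zero_apply] at h2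
        rw [Pi.single_eq_same]
        generalize N.mulVec y i = t at h2 ⊢
        revert t
        decide
      · rw [if_neg hi, add_zero, Pi.zero_apply] at h2
        rw [Pi.single_eq_of_ne hi, h2]

end Flip

end Pool.Agent.ThA
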