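import Mathlib
import Pool.Agent.ThA.M1

/-!
# ThA, module M3: the cut function only depends on the classes which are met

`M` is symmetric over `ZMod 2`; `NW M W` is `M` with `1` added on the diagonal off `W` (the crossings
in `W` are cut, the others are not), `kk M W` the dimension of its kernel and `ee M W = kk M W - |W|`.
If `cls` is constant only on crossings with equal rows of `M`, then `ee M W` only depends on the set
of classes met by `W`, and adding a class changes it by `0` or `-2`.
-/

set_option autoImplicit false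

open Module

namespace Pool.Agent.ThA

section Cut

variable {ι : Type*} [Fintype ι] [DecidableEq ι]

/-- `M` with `1` added on the diagonal off `W` -/
def NW (M : Matrix ι ι (ZMod 2)) (W : Finset ι) : Matrix ι ι (ZMod 2) :=
  fun i j => M i j + if i = j ∧ i ∉ W then 1 else 0

/-- the dimension of the kernel of `NW M W` -/
noncomputable def kk (M : Matrix ι ι (ZMod 2)) (W : Finset ι) : ℕ := finrank (ZMod 2) (kerM (NW M W))

/-- the cut function -/
noncomputable def ee (M : Matrix ι ι (ZMod 2)) (W : Finset ι) : ℤ := (kk M W : ℤ) - W.card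

omit [Fintype ι] in
theorem NW_symm (M : Matrix ι ι (ZMod 2)) (hM : ∀ a b, M a b = M b a) (W : Finset ι) (a b : ι) :
    NW M W a b = NW M W b a := by
  unfold NW
  rw [hM a b]
  congr 1
  by_cases h : a = b
  · subst h
    rfl
  · rw [if_neg (fun h' => h h'.1), if_neg (fun h' => h h'.1.symm)]

theorem NW_even (M : Matrix ι ι (ZMod 2)) (hE : EvenRows M) (W : Finset ι) : EvenRows (NW M W) := by
  intro i
  refine Eq.trans (Finset.sum_congr rfl fun j _ => ?_) (hE i)
  by_cases h : j = i
  · rw [if_pos h, if_pos h]
  · rw [if_neg h, if_neg h]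
    unfold NW
    rw [if_neg (fun h' => h h'.1.symm), add_zero]

omit [Fintype ι] in
theorem NW_insert (M : Matrix ι ι (ZMod 2)) (W : Finset ι) (c : ι) (hc : c ∉ W) :
    NW M W = flip (NW M (insert c W)) c := by
  funext i j
  unfold NW flip
  rw [add_assoc]
  congr 1
  by_cases h : i = j
  · subst h
    by_cases hi : i = c
    · subst hi
      simp [hc]
    · by_cases hW : i ∈ W
      · simp [hi, hW]
      · simp [hi, hW]
  · have h2 : ¬ (i = c ∧ j = c) := fun h' => h (h'.1.trans h'.2.symm)
    simp [h, h2]

/-- cutting one more crossing changes the cut function by `0` or `-2` -/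
theorem ee_insert (M : Matrix ι ι (ZMod 2)) (hM : ∀ a b, M a b = M b a) (hE : EvenRows M)
    (W : Finset ι) (c : ι) (hc : c ∉ W) :
    ee M (insert c W) - ee M W = 0 ∨ ee M (insert c W) - ee M W = -2 := by
  have h := flip_finrank (NW M (insert c W)) (NW_symm M hM _) (NW_even M hE _) c
  rw [← NW_insert M W c hc] at h
  unfold ee kk
  rw [Finset.card_insert_of_notMem hc]
  push_cast
  omega

/-- cutting a twin of a crossing which is cut does not change the cut function -/
theorem ee_twin (M : Matrix ι ι (ZMod 2)) (hM : ∀ a b, M a b = M b a) (W : Finset ι) (b c : ι)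
    (hb : b ∈ W) (hc : c ∉ W) (hrow : ∀ k, M b k = M c k) : ee M (insert c W) = ee M W := by
  have hbc : b ≠ c := fun h => hc (h ▸ hb)
  have hb' : b ∈ insert c W := Finset.mem_insert_of_mem hb
  have hc' : c ∈ insert c W := Finset.mem_insert_self _ _
  -- the rows `b` and `c` of the matrix with both cut are equal
  have hr : ∀ k, NW M (insert c W) b k = NW M (insert c W) c k := by
    intro k
    unfold NW
    rw [hrow k, if_neg (fun h => h.2 hb'), if_neg (fun h => h.2 hc')]
  have hmv : ∀ x : ι → ZMod 2, (NW M (insert c W)).mulVec x b = (NW M (insert c W)).mulVec x c := by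
    intro x
    show ∑ k, NW M (insert c W) b k * x k = ∑ k, NW M (insert c W) c k * x k
    exact Finset.sum_congr rfl fun k _ => by rw [hr k]
  have k1 := finrank_kerM (NW M (insert c W)) c
  have k2 := finrank_kerM (NW M W) c
  rw [NW_insert M W c hc, ker0_flip] at k2
  have h1 : ∃ x ∈ kerM (NW M (insert c W)), x c = 1 := by
    refine ⟨Pi.single b 1 + Pi.single c 1, ?_, ?_⟩
    · rw [mem_kerM]
      funext i
      rw [Matrix.mulVec_add, Pi.add_apply]
      have e1 : ∀ d : ι, (NW M (insert c W)).mulVec (Pi.single d 1) i = NW M (insert c W) i d := by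
        intro d
        rw [Matrix.mulVec_single_one]
        rfl
      rw [e1 b, e1 c, NW_symm M hM _ i b, NW_symm M hM _ i c, hr i]
      show _ = (0 : ZMod 2)
      generalize NW M (insert c W) c i = t
      revert t
      decide
    · rw [Pi.add_apply, Pi.single_eq_same, Pi.single_eq_of_ne (Ne.symm hbc), zero_add]
  have h2 : ∀ x ∈ kerM (flip (NW M (insert c W)) c), x c = 0 := by
    intro x hx
    rw [mem_kerM] at hx
    have e1 := congrFun hx b
    have e2 := congrFun hx c
    rw [flip_mulVec, if_neg hbc, add_zero, Pi.zero_apply] at e1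
    rw [flip_mulVec, if_pos rfl, Pi.zero_apply, ← hmv x, e1, zero_add] at e2
    exact e2
  have k3 : finrank (ZMod 2) (kerM (NW M (insert c W))) =
      finrank (ZMod 2) (ker0 (NW M (insert c W)) c) + 1 := by
    rcases k1 with ⟨_, h3⟩ | ⟨h3, _⟩
    · obtain ⟨x, hx, hx1⟩ := h1
      rw [h3 x hx] at hx1
      exact absurd hx1 (by decide)
    · exact h3
  have k4 : finrank (ZMod 2) (kerM (flip (NW M (insert c W)) c)) =
      finrank (ZMod 2) (ker0 (NW M (insert c W)) c) := by
    rcases k2 with ⟨h3, _⟩ | ⟨_, x, hx, hx1⟩
    · exact h3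
    · rw [h2 x hx] at hx1
      exact absurd hx1 (by decide)
  unfold ee kk
  rw [Finset.card_insert_of_notMem hc, NW_insert M W c hc, k3, k4]
  push_cast
  ring

end Cut

section Classes

variable {ι κ : Type*} [Fintype ι] [DecidableEq ι] [Fintype κ] [DecidableEq κ]

/-- the crossings of the classes in `F` -/
def un (cls : ι → κ) (F : Finset κ) : Finset ι := Finset.univ.filter (fun i => cls i ∈ F)

/-- the cut function of the classes -/
noncomputable def YY (M : Matrix ι ι (ZMod 2)) (cls : ι → κ) (F : Finset κ) : ℤ := ee M (un cls F)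

variable (M : Matrix ι ι (ZMod 2)) (hM : ∀ a b, M a b = M b a) (cls : ι → κ)
  (hcl : ∀ i j k, cls i = cls j → M i k = M j k)

omit [Fintype κ] [DecidableEq κ] in
include hM hcl in
/-- adding crossings of classes which are met does not change the cut function -/
theorem ee_union (W S : Finset ι) (hS : ∀ i ∈ S, ∃ j ∈ W, cls j = cls i) :
    ee M (W ∪ S) = ee M W := by
  induction S using Finset.induction_on with
  | empty => rw [Finset.union_empty]
  | insert a S ha ih =>
    have h1 := ih (fun i hi => hS i (Finset.mem_insert_of_mem hi))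
    rw [Finset.union_insert]
    by_cases h : a ∈ W ∪ S
    · rw [Finset.insert_eq_of_mem h, h1]
    · obtain ⟨j, hj, hja⟩ := hS a (Finset.mem_insert_self _ _)
      rw [ee_twin M hM (W ∪ S) j a (Finset.mem_union_left _ hj) h
        (fun k => hcl j a k hja), h1]

omit [Fintype κ] in
include hM hcl in
/-- the cut function only depends on the classes met by `W` -/
theorem ee_eq_YY (W : Finset ι) : ee M W = YY M cls (W.image cls) := by
  unfold YY
  have h1 : un cls (W.image cls) = W ∪ un cls (W.image cls) := by
    symm
    rw [Finset.union_eq_right]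
    intro i hi
    unfold un
    rw [Finset.mem_filter]
    exact ⟨Finset.mem_univ _, Finset.mem_image_of_mem _ hi⟩
  rw [h1]
  symm
  refine ee_union M hM cls hcl W _ fun i hi => ?_
  unfold un at hi
  rw [Finset.mem_filter, Finset.mem_image] at hi
  exact hi.2

omit [Fintype κ] in
include hM hcl in
/-- cutting one more class changes the cut function by `0` or `-2` -/
theorem YY_insert (hE : EvenRows M) (F : Finset κ) (c : κ) (hc : c ∉ F) :
    YY M cls (insert c F) - YY M cls F = 0 ∨ YY M cls (insert c F) - YY M cls F = -2 := by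
  by_cases h : ∃ i, cls i = c
  · obtain ⟨i, hi⟩ := h
    have hiF : i ∉ un cls F := by
      unfold un
      rw [Finset.mem_filter]
      exact fun h' => hc (hi ▸ h'.2)
    have h1 : YY M cls (insert c F) = ee M (insert i (un cls F)) := by
      rw [ee_eq_YY M hM cls hcl (insert i (un cls F))]
      unfold YY
      have h2 : un cls (insert c F) = un cls ((insert i (un cls F)).image cls) := by
        ext j
        unfold un
        rw [Finset.mem_filter, Finset.mem_filter, Finset.mem_insert, Finset.mem_image]
        constructor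
        · rintro ⟨h3, h4⟩
          refine ⟨h3, ?_⟩
          rcases h4 with h4 | h4
          · exact ⟨i, Finset.mem_insert_self _ _, hi.trans h4.symm⟩
          · refine ⟨j, Finset.mem_insert_of_mem ?_, rfl⟩
            rw [Finset.mem_filter]
            exact ⟨h3, h4⟩
        · rintro ⟨h3, k, h4, h5⟩
          refine ⟨h3, ?_⟩
          rw [Finset.mem_insert, Finset.mem_filter] at h4
          rcases h4 with h4 | h4
          · left
            rw [← h5, h4, hi]
          · right
            rw [← h5]
            exact h4.2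
      rw [h2]
    rw [h1]
    exact ee_insert M hM hE (un cls F) i hiF
  · left
    have h1 : un cls (insert c F) = un cls F := by
      ext j
      unfold un
      rw [Finset.mem_filter, Finset.mem_filter, Finset.mem_insert]
      constructor
      · rintro ⟨h2, h3 | h3⟩
        · exact absurd ⟨j, h3⟩ h
        · exact ⟨h2, h3⟩
      · rintro ⟨h2, h3⟩
        exact ⟨h2, Or.inr h3⟩
    unfold YY
    rw [h1, sub_self]

end Classes

section Push

variable {ι κ : Type*} [Fintype ι] [DecidableEq ι] [Fintype κ] [DecidableEq κ]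

/-- the weight of the set `W` of cut crossings -/
noncomputable def wg {α : Type*} [Fintype α] [DecidableEq α] (z : α → ℂ) (W : Finset α) : ℂ :=
  (∏ i ∈ Wᶜ, z i) * ∏ i ∈ W, (1 - z i)

/-- the weight of all subsets of `U` together -/
theorem sum_wg {α : Type*} [Fintype α] [DecidableEq α] (z : α → ℂ) (U : Finset α) :
    ∑ W ∈ U.powerset, wg z W = ∏ i ∈ Uᶜ, z i := by
  have h1 : ∀ W ∈ U.powerset, wg z W =
      (∏ i ∈ Uᶜ, z i) * ((∏ i ∈ W, (1 - z i)) * ∏ i ∈ U \ W, z i) := by
    intro W hW
    have hW' : W ⊆ U := Finset.mem_powerset.1 hW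
    unfold wg
    have h2 : Wᶜ = Uᶜ ∪ (U \ W) := by
      ext i
      rw [Finset.mem_union, Finset.mem_sdiff, Finset.mem_compl, Finset.mem_compl]
      by_cases h : i ∈ U
      · exact ⟨fun h' => Or.inr ⟨h, h'⟩, fun h' => h'.elim (fun h'' => absurd h h'') And.right⟩
      · exact ⟨fun _ => Or.inl h, fun _ h' => h (hW' h')⟩
    have h3 : Disjoint Uᶜ (U \ W) := by
      rw [Finset.disjoint_left]
      intro i hi hi'
      exact (Finset.mem_compl.1 hi) (Finset.mem_sdiff.1 hi').1
    rw [h2, Finset.prod_union h3]
    ring
  have h2 : ∏ i ∈ U, (1 - z i + z i) = 1 :=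
    Finset.prod_eq_one fun i _ => sub_add_cancel _ _
  rw [Finset.sum_congr rfl h1, ← Finset.mul_sum, ← Finset.prod_add, h2, mul_one]

/-- the product over a class -/
noncomputable def ZZ (cls : ι → κ) (z : ι → ℂ) (c : κ) : ℂ :=
  ∏ i ∈ Finset.univ.filter (fun i => cls i = c), z i

theorem prod_ZZ (cls : ι → κ) (z : ι → ℂ) (F : Finset κ) :
    ∏ c ∈ Fᶜ, ZZ cls z c = ∏ i ∈ (un cls F)ᶜ, z i := by
  unfold ZZ
  rw [← Finset.prod_fiberwise_of_maps_to (s := (un cls F)ᶜ) (t := Fᶜ) (g := cls)]
  · refine Finset.prod_congr rfl fun c hc => ?_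
    refine Finset.prod_congr ?_ fun _ _ => rfl
    ext i
    unfold un
    rw [Finset.mem_filter, Finset.mem_filter, Finset.mem_compl, Finset.mem_filter]
    rw [Finset.mem_compl] at hc
    constructor
    · rintro ⟨h1, h2⟩
      exact ⟨fun h3 => hc (h2 ▸ h3.2), h2⟩
    · rintro ⟨_, h2⟩
      exact ⟨Finset.mem_univ _, h2⟩
  · intro i hi
    unfold un at hi
    rw [Finset.mem_compl, Finset.mem_filter] at hi
    rw [Finset.mem_compl]
    exact fun h => hi ⟨Finset.mem_univ _, h⟩

/-- the weight of the sets which meet exactly the classes in `F` -/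
theorem sum_fiber (cls : ι → κ) (z : ι → ℂ) (F : Finset κ) :
    ∑ W ∈ Finset.univ.filter (fun W : Finset ι => W.image cls = F), wg z W = wg (ZZ cls z) F := by
  induction F using Finset.strongInduction with
  | H F ih =>
    have h1 : ∑ W ∈ (un cls F).powerset, wg z W =
        ∑ G ∈ F.powerset, ∑ W ∈ Finset.univ.filter (fun W : Finset ι => W.image cls = G),
          wg z W := by
      rw [← Finset.sum_fiberwise_of_maps_to (s := (un cls F).powerset) (t := F.powerset)
        (g := fun W => W.image cls)]
      · refine Finset.sum_congr rfl fun G hG => ?_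
        refine Finset.sum_congr ?_ fun _ _ => rfl
        ext W
        rw [Finset.mem_filter, Finset.mem_filter, Finset.mem_powerset]
        constructor
        · rintro ⟨_, h⟩
          exact ⟨Finset.mem_univ _, h⟩
        · rintro ⟨_, h⟩
          refine ⟨fun i hi => ?_, h⟩
          unfold un
          rw [Finset.mem_filter]
          refine ⟨Finset.mem_univ _, (Finset.mem_powerset.1 hG) ?_⟩
          rw [← h]
          exact Finset.mem_image_of_mem _ hi
      · intro W hW
        rw [Finset.mem_powerset] at hW ⊢
        intro c hc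
        rw [Finset.mem_image] at hc
        obtain ⟨i, hi, rfl⟩ := hc
        have := hW hi
        unfold un at this
        rw [Finset.mem_filter] at this
        exact this.2
    have h2 : ∑ G ∈ F.powerset, wg (ZZ cls z) G = ∏ i ∈ (un cls F)ᶜ, z i := by
      rw [sum_wg, prod_ZZ]
    rw [sum_wg, ← h2] at h1
    have h3 : ∀ f : Finset κ → ℂ, ∑ G ∈ F.powerset, f G = f F + ∑ G ∈ F.ssubsets, f G := by
      intro f
      rw [Finset.ssubsets, add_comm, Finset.sum_erase_add _ _ (Finset.mem_powerset_self F)]
    rw [h3, h3] at h1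
    have h4 : ∑ G ∈ F.ssubsets, ∑ W ∈ Finset.univ.filter (fun W : Finset ι => W.image cls = G),
        wg z W = ∑ G ∈ F.ssubsets, wg (ZZ cls z) G :=
      Finset.sum_congr rfl fun G hG => ih G (Finset.mem_ssubsets.1 hG)
    rw [h4] at h1
    exact (add_right_cancel h1).symm

/-- **M3, push forward** -/
theorem push (cls : ι → κ) (z : ι → ℂ) (Y : Finset κ → ℂ) :
    ∑ W : Finset ι, Y (W.image cls) * wg z W = ∑ F : Finset κ, Y F * wg (ZZ cls z) F := by
  rw [← Finset.sum_fiberwise_of_maps_to (s := (Finset.univ : Finset (Finset ι)))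
    (t := (Finset.univ : Finset (Finset κ))) (g := fun W => W.image cls)
    (fun _ _ => Finset.mem_univ _)]
  refine Finset.sum_congr rfl fun F _ => ?_
  rw [← sum_fiber cls z F, Finset.mul_sum]
  refine Finset.sum_congr rfl fun W hW => ?_
  rw [(Finset.mem_filter.1 hW).2]

/-- **M3** for the cut function -/
theorem push_ee (M : Matrix ι ι (ZMod 2)) (hM : ∀ a b, M a b = M b a) (cls : ι → κ)
    (hcl : ∀ i j k, cls i = cls j → M i k = M j k) (z : ι → ℂ) :
    ∑ W : Finset ι, (ee M W : ℂ) * wg z W =
      ∑ F : Finset κ, (YY M cls F : ℂ) * wg (ZZ cls z) F := by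
  rw [← push cls z (fun F => (YY M cls F : ℂ))]
  refine Finset.sum_congr rfl fun W _ => ?_
  rw [ee_eq_YY M hM cls hcl W]

/-- sums over states are sums over the sets of crossings at which the state agrees with `σ` -/
theorem sum_states (σ : ι → Bool) (f : Finset ι → ℂ) :
    ∑ s : ι → Bool, f (Finset.univ.filter (fun i => s i = σ i)) = ∑ W : Finset ι, f W := by
  refine Finset.sum_nbij' (fun s => Finset.univ.filter (fun i => s i = σ i))
    (fun W i => if i ∈ W then σ i else !σ i) ?_ ?_ ?_ ?_ ?_
  · intro s _
    exact Finset.mem_univ _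
  · intro W _
    exact Finset.mem_univ _
  · intro s _
    funext i
    by_cases h : s i = σ i
    · rw [if_pos (by rw [Finset.mem_filter]; exact ⟨Finset.mem_univ _, h⟩), h]
    · rw [if_neg (by rw [Finset.mem_filter]; exact fun h' => h h'.2)]
      revert h
      cases s i <;> cases σ i <;> simp
  · intro W _
    ext i
    rw [Finset.mem_filter]
    by_cases h : i ∈ W
    · simp [h]
    · simp [h]
  · intro s _
    rfl

end Push

end Pool.Agent.ThA
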