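import Pool.Agent.Helper8.TA.M4
import Pool.Agent.ThA.Defs

/-!
# ThA, module M4: the mean value over the sets of classes which are cut

`Y : Finset (Fin m) → ℤ` with `Y (insert c F) - Y F ∈ {0, -2}`, `‖Z c‖ = 1`; `S3` a set of classes with
`Z c` real, `S1` a disjoint set of classes, `Z c = 1` for `c` off `S1` and `S3`.  Then the
imaginary part of `∑_F Y F ∏_(c ∉ F) Z c ∏_(c ∈ F) (1 - Z c)` is at most `bnd t T`, `t = #S1`,
`T = #S1 + #S3`.  Base: the classes of `S1` cut, those of `S3` at random with real weights, the other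
ones uncut (a real number).
-/

set_option autoImplicit false

namespace Pool.Agent.ThA

open Finset Pool.Agent.ThmA

/-- the mean value of a function with steps `0`, `2`, relative to a base set -/
theorem norm_mean_sub_base {ι : Type*} [DecidableEq ι] (w : ι → ℂ) (hw : ∀ c, ‖w c‖ = 1)
    (X : Finset ι → ℤ)
    (hX : ∀ F, ∀ c, c ∉ F → X (insert c F) = X F ∨ X (insert c F) = X F + 2) (S0 S : Finset ι)
    (hd : Disjoint S0 S) :
    ‖mean w (S0 ∪ S) (fun F => (X F : ℂ)) - mean w S0 (fun F => (X F : ℂ))‖ ≤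
      S.card + (3 ^ (S0.card + S.card) - 3 ^ S0.card) / 2 := by
  induction S using Finset.induction_on with
  | empty => simp
  | insert a S ha ih =>
    have hd' : Disjoint S0 S := Finset.disjoint_of_subset_right (Finset.subset_insert a S) hd
    have ha0 : a ∉ S0 := fun h => (Finset.disjoint_left.1 hd h) (Finset.mem_insert_self a S)
    have haU : a ∉ S0 ∪ S := fun h => (Finset.mem_union.1 h).elim ha0 ha
    have hc : (S0 ∪ S).card = S0.card + S.card := Finset.card_union_of_disjoint hd'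
    rw [Finset.union_insert, mean_insert w (S0 ∪ S) _ haU]
    have hd1 : mean w (S0 ∪ S) (fun F => ((X (insert a F) : ℤ) : ℂ) - (X F : ℂ)) =
        1 + mean w (S0 ∪ S)
          (fun F => ((if a ∈ F then 0 else X (insert a F) - X F - 1 : ℤ) : ℂ)) := by
      rw [← mean_one w (S0 ∪ S)]
      unfold mean
      rw [← Finset.sum_add_distrib]
      refine Finset.sum_congr rfl fun F hF => ?_
      have haF : a ∉ F := fun h => haU (Finset.mem_powerset.1 hF h)
      beta_reduce
      rw [if_neg haF]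
      push_cast
      ring
    have hb : ‖mean w (S0 ∪ S)
        (fun F => ((if a ∈ F then 0 else X (insert a F) - X F - 1 : ℤ) : ℂ))‖ ≤
        3 ^ (S0.card + S.card) := by
      rw [← hc]
      refine norm_mean_le w hw _ _ fun F => ?_
      by_cases haF : a ∈ F
      · simp [haF]
      · rw [if_neg haF]
        rcases hX F a haF with h | h <;> rw [h]
        · have : (X F - X F - 1 : ℤ) = -1 := by ring
          rw [this]
          simp
        · have : (X F + 2 - X F - 1 : ℤ) = 1 := by ring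
          rw [this]
          simp
    have h3 : ‖w a * mean w (S0 ∪ S) (fun F => ((X (insert a F) : ℤ) : ℂ) - (X F : ℂ))‖ ≤
        1 + 3 ^ (S0.card + S.card) := by
      rw [norm_mul, hw a, one_mul, hd1]
      refine (norm_add_le _ _).trans ?_
      rw [norm_one]
      exact add_le_add le_rfl hb
    have h4 := ih hd'
    rw [Finset.card_insert_of_notMem ha, ← Nat.add_assoc, pow_succ]
    push_cast
    calc ‖mean w (S0 ∪ S) (fun F => (X F : ℂ)) +
          w a * mean w (S0 ∪ S) (fun F => ((X (insert a F) : ℤ) : ℂ) - (X F : ℂ)) -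
            mean w S0 (fun F => (X F : ℂ))‖
        = ‖(mean w (S0 ∪ S) (fun F => (X F : ℂ)) - mean w S0 (fun F => (X F : ℂ))) +
          w a * mean w (S0 ∪ S) (fun F => ((X (insert a F) : ℤ) : ℂ) - (X F : ℂ))‖ := by
          congr 1
          ring
      _ ≤ (S.card + (3 ^ (S0.card + S.card) - 3 ^ S0.card) / 2) +
          (1 + 3 ^ (S0.card + S.card)) := (norm_add_le _ _).trans (add_le_add h4 h3)
      _ = (S.card : ℝ) + 1 + (3 ^ (S0.card + S.card) * 3 - 3 ^ S0.card) / 2 := by ring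

/-- real weights -/
theorem mean_im_zero {ι : Type*} [DecidableEq ι] (w : ι → ℂ) (S : Finset ι)
    (hw : ∀ c ∈ S, (w c).im = 0) (X : Finset ι → ℤ) :
    (mean w S (fun F => (X F : ℂ))).im = 0 := by
  have h1 : ∀ c ∈ S, w c = ((w c).re : ℂ) := fun c hc => by
    apply Complex.ext
    · simp
    · simp [hw c hc]
  have h2 : mean w S (fun F => (X F : ℂ)) = ((∑ F ∈ S.powerset, (∏ c ∈ F, (w c).re) *
      (∏ c ∈ S \ F, (1 - (w c).re)) * (X F : ℝ) : ℝ) : ℂ) := by
    unfold mean
    push_cast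
    refine Finset.sum_congr rfl fun F hF => ?_
    have hF' := Finset.mem_powerset.1 hF
    congr 2
    · exact Finset.prod_congr rfl fun c hc => h1 c (hF' hc)
    · exact Finset.prod_congr rfl fun c hc => by rw [← h1 c (Finset.mem_sdiff.1 hc).1]
  rw [h2, Complex.ofReal_im]

/-- the mean value of `Y` over the sets of classes which are cut -/
noncomputable def mcut {m : ℕ} (Z : Fin m → ℂ) (Y : Finset (Fin m) → ℤ) : ℂ :=
  ∑ F : Finset (Fin m), (Y F : ℂ) * (∏ c ∈ Fᶜ, Z c) * ∏ c ∈ F, (1 - Z c)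

/-- classes with `Z c = 1` are never cut -/
theorem mcut_eq_mean {m : ℕ} (Z : Fin m → ℂ) (Y : Finset (Fin m) → ℤ) (B : Finset (Fin m))
    (hB : ∀ c, c ∉ B → Z c = 1) :
    mcut Z Y = mean Z B (fun F => ((Y (B \ F) : ℤ) : ℂ)) := by
  unfold mcut mean
  have h1 : ∑ F : Finset (Fin m), (Y F : ℂ) * (∏ c ∈ Fᶜ, Z c) * ∏ c ∈ F, (1 - Z c) =
      ∑ F ∈ B.powerset, (Y F : ℂ) * (∏ c ∈ Fᶜ, Z c) * ∏ c ∈ F, (1 - Z c) := by
    symm
    refine Finset.sum_subset (Finset.subset_univ _) fun F _ hF => ?_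
    rw [Finset.mem_powerset, Finset.not_subset] at hF
    obtain ⟨c, hc, hc'⟩ := hF
    rw [Finset.prod_eq_zero hc (by rw [hB c hc', sub_self]), mul_zero]
  rw [h1]
  refine Finset.sum_bij' (fun F _ => B \ F) (fun F _ => B \ F) ?_ ?_ ?_ ?_ ?_
  · intro F _
    exact Finset.mem_powerset.2 Finset.sdiff_subset
  · intro F _
    exact Finset.mem_powerset.2 Finset.sdiff_subset
  · intro F hF
    exact Finset.sdiff_sdiff_eq_self (Finset.mem_powerset.1 hF)
  · intro F hF
    exact Finset.sdiff_sdiff_eq_self (Finset.mem_powerset.1 hF)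
  · intro F hF
    have hF' := Finset.mem_powerset.1 hF
    have h2 : ∏ c ∈ Fᶜ, Z c = ∏ c ∈ B \ F, Z c := by
      symm
      refine Finset.prod_subset ?_ ?_
      · intro c hc
        exact Finset.mem_compl.2 (Finset.mem_sdiff.1 hc).2
      · intro c hc hc'
        refine hB c fun h => hc' (Finset.mem_sdiff.2 ⟨h, Finset.mem_compl.1 hc⟩)
    beta_reduce
    rw [h2, Finset.sdiff_sdiff_eq_self hF']
    ring

/-- **M4.** The bound in terms of a set `S1` and a set `S3` of classes with real weights. -/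
theorem im_mcut_le {m : ℕ} (Z : Fin m → ℂ) (Y : Finset (Fin m) → ℤ) (hZ : ∀ c, ‖Z c‖ = 1)
    (hY : ∀ F, ∀ c, c ∉ F → Y (insert c F) = Y F ∨ Y (insert c F) = Y F - 2)
    (S1 S3 : Finset (Fin m)) (hd : Disjoint S3 S1) (h3 : ∀ c ∈ S3, (Z c).im = 0)
    (h1 : ∀ c, c ∉ S1 → c ∉ S3 → Z c = 1) :
    |(mcut Z Y).im| ≤ bnd S1.card (S3.card + S1.card) := by
  set B := S3 ∪ S1 with hBdef
  have hB : ∀ c, c ∉ B → Z c = 1 := fun c hc =>
    h1 c (fun h => hc (Finset.mem_union_right _ h)) fun h => hc (Finset.mem_union_left _ h)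
  have h2 := norm_mean_sub_base Z hZ (fun F => Y (B \ F)) (fun F c hc => by
    by_cases hcB : c ∈ B
    · have h2 : B \ F = insert c (B \ insert c F) := by
        ext x
        simp only [Finset.mem_sdiff, Finset.mem_insert, not_or]
        constructor
        · rintro ⟨h, h'⟩
          by_cases hx : x = c
          · exact Or.inl hx
          · exact Or.inr ⟨h, hx, h'⟩
        · rintro (h | ⟨h, -, h'⟩)
          · exact h ▸ ⟨hcB, hc⟩
          · exact ⟨h, h'⟩
      have h3 := hY (B \ insert c F) c (fun h => (Finset.mem_sdiff.1 h).2 (Finset.mem_insert_self _ _))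
      rw [← h2] at h3
      omega
    · left
      congr 1
      ext x
      simp only [Finset.mem_sdiff, Finset.mem_insert, not_or]
      constructor
      · rintro ⟨h, -, h'⟩
        exact ⟨h, h'⟩
      · rintro ⟨h, h'⟩
        exact ⟨h, fun hx => hcB (hx ▸ h), h'⟩) S3 S1 hd
  have h4 : (mcut Z Y).im = (mean Z (S3 ∪ S1) (fun F => ((Y (B \ F) : ℤ) : ℂ)) -
      mean Z S3 (fun F => ((Y (B \ F) : ℤ) : ℂ))).im := by
    rw [mcut_eq_mean Z Y B hB, Complex.sub_im,
      mean_im_zero Z S3 h3 (fun F => Y (B \ F)), sub_zero]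
  rw [h4]
  refine (Complex.abs_im_le_norm _).trans (h2.trans ?_)
  unfold bnd
  rw [Nat.add_sub_cancel]

/-- `Z = exp (i π a / 3)` (or its inverse) is `1` iff `6` divides `a` -/
theorem exp_eq_one_iff (a : ℤ) :
    Complex.exp (-(Real.pi : ℂ) * Complex.I * (a : ℂ) / 3) = 1 ↔ (6 : ℤ) ∣ a := by
  have hpi : (Real.pi : ℂ) ≠ 0 := Complex.ofReal_ne_zero.2 Real.pi_ne_zero
  rw [Complex.exp_eq_one_iff]
  constructor
  · rintro ⟨k, hk⟩
    refine ⟨-k, ?_⟩
    have h1 : (Real.pi : ℂ) * Complex.I * ((a : ℂ) - (6 * (-k : ℤ) : ℤ)) = 0 := by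
      push_cast
      linear_combination (-3 : ℂ) * hk
    have h2 := (mul_eq_zero.1 h1).resolve_left (mul_ne_zero hpi Complex.I_ne_zero)
    exact_mod_cast sub_eq_zero.1 h2
  · rintro ⟨k, rfl⟩
    refine ⟨-k, ?_⟩
    push_cast
    ring

theorem norm_exp_eq (a : ℤ) : ‖Complex.exp (-(Real.pi : ℂ) * Complex.I * (a : ℂ) / 3)‖ = 1 := by
  have h : -(Real.pi : ℂ) * Complex.I * (a : ℂ) / 3 = ((-(Real.pi * a / 3) : ℝ) : ℂ) * Complex.I := by
    push_cast
    ring
  rw [h, Complex.norm_exp_ofReal_mul_I]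

/-- `exp (i π a / 3)` is real if `3` divides `a` -/
theorem exp_im_zero (a : ℤ) (ha : (3 : ℤ) ∣ a) :
    (Complex.exp (-(Real.pi : ℂ) * Complex.I * (a : ℂ) / 3)).im = 0 := by
  obtain ⟨k, rfl⟩ := ha
  have h : -(Real.pi : ℂ) * Complex.I * ((3 * k : ℤ) : ℂ) / 3 =
      ((-(Real.pi * k) : ℝ) : ℂ) * Complex.I := by
    push_cast
    ring
  rw [h, Complex.exp_ofReal_mul_I_im, Real.sin_neg, mul_comm, Real.sin_int_mul_pi, neg_zero]

/-- **M4.** The bound for `Z c = exp (- i π a_c / 3)` with integers `a_c`: `t` is the number of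
classes with `a_c` not divisible by `3`, `T` that of the classes with `a_c` not divisible by `6`. -/
theorem im_mcut_exp_le {m : ℕ} (a : Fin m → ℤ) (Y : Finset (Fin m) → ℤ)
    (hY : ∀ F, ∀ c, c ∉ F → Y (insert c F) = Y F ∨ Y (insert c F) = Y F - 2) :
    |(mcut (fun c => Complex.exp (-(Real.pi : ℂ) * Complex.I * (a c : ℂ) / 3)) Y).im| ≤
      bnd (Nat.card {c : Fin m // ¬ (3 : ℤ) ∣ a c}) (Nat.card {c : Fin m // ¬ (6 : ℤ) ∣ a c}) := by
  classical
  set S1 : Finset (Fin m) := univ.filter fun c => ¬ (3 : ℤ) ∣ a c with hS1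
  set S3 : Finset (Fin m) := univ.filter fun c => (3 : ℤ) ∣ a c ∧ ¬ (6 : ℤ) ∣ a c with hS3
  have hd : Disjoint S3 S1 := by
    rw [Finset.disjoint_left]
    intro c h h'
    exact (Finset.mem_filter.1 h').2 (Finset.mem_filter.1 h).2.1
  have h1 := im_mcut_le (fun c => Complex.exp (-(Real.pi : ℂ) * Complex.I * (a c : ℂ) / 3)) Y
    (fun c => norm_exp_eq (a c)) hY S1 S3 hd
    (fun c hc => exp_im_zero (a c) (Finset.mem_filter.1 hc).2.1)
    (fun c hc hc' => by
      refine (exp_eq_one_iff (a c)).2 ?_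
      by_contra h6
      by_cases h3 : (3 : ℤ) ∣ a c
      · exact hc' (Finset.mem_filter.2 ⟨Finset.mem_univ _, h3, h6⟩)
      · exact hc (Finset.mem_filter.2 ⟨Finset.mem_univ _, h3⟩))
  have h2 : Nat.card {c : Fin m // ¬ (3 : ℤ) ∣ a c} = S1.card := by
    rw [Nat.card_eq_fintype_card, Fintype.card_subtype]
  have h3 : Nat.card {c : Fin m // ¬ (6 : ℤ) ∣ a c} = S3.card + S1.card := by
    rw [Nat.card_eq_fintype_card, Fintype.card_subtype, ← Finset.card_union_of_disjoint hd]
    congr 1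
    ext c
    simp only [hS1, hS3, Finset.mem_union, Finset.mem_filter, Finset.mem_univ, true_and]
    constructor
    · intro h
      by_cases h3 : (3 : ℤ) ∣ a c
      · exact Or.inl ⟨h3, h⟩
      · exact Or.inr h3
    · rintro (h | h)
      · exact h.2
      · intro h6
        exact h (dvd_trans (by norm_num) h6)
  rw [h2, h3]
  exact h1

/-- the comparison of two normalized values -/
theorem compare_im {μ μ' : ℤ} {E E' : ℂ} {c c' : ℝ}
    (h : -6 * (μ : ℂ) + 2 * Complex.I * (Real.sqrt 3 : ℂ) * E =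
      -6 * (μ' : ℂ) + 2 * Complex.I * (Real.sqrt 3 : ℂ) * E')
    (hE : |E.im| ≤ c) (hE' : |E'.im| ≤ c') : Real.sqrt 3 * |(μ : ℝ) - μ'| ≤ c + c' := by
  have h1 := congrArg Complex.re h
  have h3 : Real.sqrt 3 * Real.sqrt 3 = 3 := Real.mul_self_sqrt (by norm_num)
  have h4 : 0 < Real.sqrt 3 := Real.sqrt_pos.2 (by norm_num)
  have h5 : ∀ (ν : ℤ) (x : ℂ), (-6 * (ν : ℂ) + 2 * Complex.I * (Real.sqrt 3 : ℂ) * x).re =
      -6 * (ν : ℝ) - 2 * Real.sqrt 3 * x.im := by
    intro ν x
    simp [Complex.add_re, Complex.mul_re, Complex.mul_im]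
    ring
  rw [h5, h5] at h1
  have h6 : Real.sqrt 3 * (Real.sqrt 3 * ((μ : ℝ) - μ')) = Real.sqrt 3 * (E'.im - E.im) := by
    rw [← mul_assoc, h3]
    linarith
  have h7 := mul_left_cancel₀ h4.ne' h6
  calc Real.sqrt 3 * |(μ : ℝ) - μ'| = |Real.sqrt 3 * ((μ : ℝ) - μ')| := by
        rw [abs_mul, abs_of_pos h4]
    _ = |E'.im - E.im| := by rw [h7]
    _ ≤ |E'.im| + |E.im| := abs_sub _ _
    _ ≤ c + c' := by linarith

end Pool.Agent.ThA
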