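import Mathlib
import Pool.Agent.ThA.M3
import Pool.Agent.ThA.M4

/-!
# ThA, module M3b: bridges for the cut function, the push forward over a ring, and its size
-/

set_option autoImplicit false

open Module

namespace Pool.Agent.ThA

section Bridge

variable {ι : Type*} [DecidableEq ι] (L : Matrix ι ι (ZMod 2)) (p : ι → ZMod 2)

theorem NW_diagonal (W : Finset ι) : NW (L + Matrix.diagonal p) W =
    L + Matrix.diagonal (fun i => p i + if i ∈ W then 0 else 1) := by
  funext i j
  unfold NW
  rw [Matrix.add_apply, Matrix.add_apply, add_assoc]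
  congr 1
  by_cases h : i = j
  · subst h
    rw [Matrix.diagonal_apply_eq, Matrix.diagonal_apply_eq]
    congr 1
    by_cases hW : i ∈ W
    · simp [hW]
    · simp [hW]
  · rw [Matrix.diagonal_apply_ne _ h, Matrix.diagonal_apply_ne _ h,
      if_neg (fun h' => h h'.1), add_zero]

theorem kk_diagonal [Fintype ι] (W : Finset ι) : kk (L + Matrix.diagonal p) W =
    finrank (ZMod 2) (LinearMap.ker
      (L + Matrix.diagonal (fun i => p i + if i ∈ W then 0 else 1)).mulVecLin) := by
  unfold kk
  rw [NW_diagonal]

theorem symm_diagonal (hL : ∀ i j, L i j = L j i) (i j : ι) :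
    (L + Matrix.diagonal p) i j = (L + Matrix.diagonal p) j i := by
  rw [Matrix.add_apply, Matrix.add_apply, hL i j]
  congr 1
  by_cases h : i = j
  · subst h
    rfl
  · rw [Matrix.diagonal_apply_ne _ h, Matrix.diagonal_apply_ne _ (Ne.symm h)]

theorem even_diagonal [Fintype ι] (h0 : ∀ i, L i i = 0) (hs : ∀ i, ∑ j, L i j = 0) :
    EvenRows (L + Matrix.diagonal p) := by
  intro i
  refine Eq.trans (Finset.sum_congr rfl fun j _ => ?_) (hs i)
  by_cases h : j = i
  · subst h
    rw [if_pos rfl, h0]
  · rw [if_neg h, Matrix.add_apply, Matrix.diagonal_apply_ne _ (Ne.symm h), add_zero]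

end Bridge

section Steps

variable {ι κ : Type*} [Fintype ι] [DecidableEq ι] [DecidableEq κ]

theorem YY_step (M : Matrix ι ι (ZMod 2)) (hM : ∀ a b, M a b = M b a) (cls : ι → κ)
    (hcl : ∀ i j k, cls i = cls j → M i k = M j k) (hE : EvenRows M) (F : Finset κ) (c : κ)
    (hc : c ∉ F) :
    YY M cls (insert c F) = YY M cls F ∨ YY M cls (insert c F) = YY M cls F - 2 := by
  rcases YY_insert M hM cls hcl hE F c hc with h | h
  · left
    omega
  · right
    omega

/-- **M3**, in the form of M4 -/
theorem push_mcut {m : ℕ} (M : Matrix ι ι (ZMod 2)) (hM : ∀ a b, M a b = M b a)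
    (cls : ι → Fin m) (hcl : ∀ i j k, cls i = cls j → M i k = M j k) (z : ι → ℂ) :
    ∑ W : Finset ι, (ee M W : ℂ) * wg z W = mcut (ZZ cls z) (YY M cls) := by
  rw [push_ee M hM cls hcl z]
  unfold mcut wg
  exact Finset.sum_congr rfl fun F _ => (mul_assoc _ _ _).symm

end Steps

section Ring

variable {R : Type*} [CommRing R]

/-- the weight of the set `W` -/
def wx {α : Type*} [Fintype α] [DecidableEq α] (x y : α → R) (W : Finset α) : R :=
  (∏ i ∈ Wᶜ, x i) * ∏ i ∈ W, y i

theorem sum_wx {α : Type*} [Fintype α] [DecidableEq α] (x y : α → R) (U : Finset α) :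
    ∑ W ∈ U.powerset, wx x y W = (∏ i ∈ Uᶜ, x i) * ∏ i ∈ U, (x i + y i) := by
  have h1 : ∀ W ∈ U.powerset, wx x y W =
      (∏ i ∈ Uᶜ, x i) * ((∏ i ∈ W, y i) * ∏ i ∈ U \ W, x i) := by
    intro W hW
    have hW' : W ⊆ U := Finset.mem_powerset.1 hW
    unfold wx
    have h2 : Wᶜ = Uᶜ ∪ (U \ W) := by
      ext i
      rw [Finset.mem_union, Finset.mem_sdiff, Finset.mem_compl, Finset.mem_compl]
      by_cases h : i ∈ U
      · exact ⟨fun h' => Or.inr ⟨h, h'⟩, fun h' => h'.elim (fun h'' => absurd h h'') And.right⟩
      · exact ⟨fun _ => Or.inl h, fun _ h' => h (hW' h')⟩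
    have h3 : Disjoint Uᶜ (U \ W) := by
      rw [Finset.disjoint_left]
      intro i hi hi'
      exact (Finset.mem_compl.1 hi) (Finset.mem_sdiff.1 hi').1
    rw [h2, Finset.prod_union h3]
    ring
  rw [Finset.sum_congr rfl h1, ← Finset.mul_sum, ← Finset.prod_add]
  congr 1
  exact Finset.prod_congr rfl fun i _ => add_comm _ _

variable {ι κ : Type*} [Fintype ι] [DecidableEq ι] [Fintype κ] [DecidableEq κ]

/-- the product over a class -/
def XX (cls : ι → κ) (x : ι → R) (c : κ) : R :=
  ∏ i ∈ Finset.univ.filter (fun i => cls i = c), x i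

theorem prod_XX_compl (cls : ι → κ) (x : ι → R) (F : Finset κ) :
    ∏ c ∈ Fᶜ, XX cls x c = ∏ i ∈ (un cls F)ᶜ, x i := by
  unfold XX
  rw [← Finset.prod_fiberwise_of_maps_to (s := (un cls F)ᶜ) (t := Fᶜ) (g := cls)]
  · refine Finset.prod_congr rfl fun c hc => ?_
    refine Finset.prod_congr ?_ fun _ _ => rfl
    ext i
    unfold un
    rw [Finset.mem_filter, Finset.mem_filter, Finset.mem_compl, Finset.mem_filter]
    rw [Finset.mem_compl] at hc
    constructor
    · rintro ⟨h1, h2⟩
      exact ⟨fun h3 => hc (h2 ▸ h3.2), h2⟩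
    · rintro ⟨_, h2⟩
      exact ⟨Finset.mem_univ _, h2⟩
  · intro i hi
    unfold un at hi
    rw [Finset.mem_compl, Finset.mem_filter] at hi
    rw [Finset.mem_compl]
    exact fun h => hi ⟨Finset.mem_univ _, h⟩

omit [DecidableEq ι] [Fintype κ] in
theorem prod_XX (cls : ι → κ) (x : ι → R) (F : Finset κ) :
    ∏ c ∈ F, XX cls x c = ∏ i ∈ un cls F, x i := by
  unfold XX
  rw [← Finset.prod_fiberwise_of_maps_to (s := un cls F) (t := F) (g := cls)]
  · refine Finset.prod_congr rfl fun c hc => ?_
    refine Finset.prod_congr ?_ fun _ _ => rfl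
    ext i
    unfold un
    rw [Finset.mem_filter, Finset.mem_filter, Finset.mem_filter]
    constructor
    · rintro ⟨h1, h2⟩
      exact ⟨⟨h1, h2.symm ▸ hc⟩, h2⟩
    · rintro ⟨h1, h2⟩
      exact ⟨h1.1, h2⟩
  · intro i hi
    unfold un at hi
    rw [Finset.mem_filter] at hi
    exact hi.2

/-- the weight of the sets which meet exactly the classes in `F` -/
theorem sum_fiber_wx (cls : ι → κ) (x y : ι → R) (F : Finset κ) :
    ∑ W ∈ Finset.univ.filter (fun W : Finset ι => W.image cls = F), wx x y W =
      wx (XX cls x) (fun c => XX cls (fun i => x i + y i) c - XX cls x c) F := by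
  induction F using Finset.strongInduction with
  | H F ih =>
    have h1 : ∑ W ∈ (un cls F).powerset, wx x y W =
        ∑ G ∈ F.powerset, ∑ W ∈ Finset.univ.filter (fun W : Finset ι => W.image cls = G),
          wx x y W := by
      rw [← Finset.sum_fiberwise_of_maps_to (s := (un cls F).powerset) (t := F.powerset)
        (g := fun W => W.image cls)]
      · refine Finset.sum_congr rfl fun G hG => ?_
        refine Finset.sum_congr ?_ fun _ _ => rfl
        ext W
        rw [Finset.mem_filter, Finset.mem_filter, Finset.mem_powerset]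
        constructor
        · rintro ⟨_, h⟩
          exact ⟨Finset.mem_univ _, h⟩
        · rintro ⟨_, h⟩
          refine ⟨fun i hi => ?_, h⟩
          unfold un
          rw [Finset.mem_filter]
          refine ⟨Finset.mem_univ _, (Finset.mem_powerset.1 hG) ?_⟩
          rw [← h]
          exact Finset.mem_image_of_mem _ hi
      · intro W hW
        rw [Finset.mem_powerset] at hW ⊢
        intro c hc
        rw [Finset.mem_image] at hc
        obtain ⟨i, hi, rfl⟩ := hc
        have := hW hi
        unfold un at this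
        rw [Finset.mem_filter] at this
        exact this.2
    have h2 : ∑ G ∈ F.powerset,
        wx (XX cls x) (fun c => XX cls (fun i => x i + y i) c - XX cls x c) G =
        (∏ i ∈ (un cls F)ᶜ, x i) * ∏ i ∈ un cls F, (x i + y i) := by
      rw [sum_wx, prod_XX_compl]
      congr 1
      rw [← prod_XX cls (fun i => x i + y i)]
      exact Finset.prod_congr rfl fun c _ => by ring
    rw [sum_wx, ← h2] at h1
    have h3 : ∀ f : Finset κ → R, ∑ G ∈ F.powerset, f G = f F + ∑ G ∈ F.ssubsets, f G := by
      intro f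
      rw [Finset.ssubsets, add_comm, Finset.sum_erase_add _ _ (Finset.mem_powerset_self F)]
    rw [h3, h3] at h1
    have h4 : ∑ G ∈ F.ssubsets, ∑ W ∈ Finset.univ.filter (fun W : Finset ι => W.image cls = G),
        wx x y W = ∑ G ∈ F.ssubsets,
          wx (XX cls x) (fun c => XX cls (fun i => x i + y i) c - XX cls x c) G :=
      Finset.sum_congr rfl fun G hG => ih G (Finset.mem_ssubsets.1 hG)
    rw [h4] at h1
    exact (add_right_cancel h1).symm

/-- **the push forward over a commutative ring** -/
theorem push_wx (cls : ι → κ) (x y : ι → R) (Y : Finset κ → R) :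
    ∑ W : Finset ι, Y (W.image cls) * wx x y W =
      ∑ F : Finset κ, Y F *
        wx (XX cls x) (fun c => XX cls (fun i => x i + y i) c - XX cls x c) F := by
  rw [← Finset.sum_fiberwise_of_maps_to (s := (Finset.univ : Finset (Finset ι)))
    (t := (Finset.univ : Finset (Finset κ))) (g := fun W => W.image cls)
    (fun _ _ => Finset.mem_univ _)]
  refine Finset.sum_congr rfl fun F _ => ?_
  rw [← sum_fiber_wx cls x y F, Finset.mul_sum]
  refine Finset.sum_congr rfl fun W hW => ?_
  rw [(Finset.mem_filter.1 hW).2]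

end Ring

section Size

variable {ι : Type*} [Fintype ι] [DecidableEq ι]

theorem NW_mulVec (M : Matrix ι ι (ZMod 2)) (W : Finset ι) (x : ι → ZMod 2) (i : ι) :
    (NW M W).mulVec x i = M.mulVec x i + if i ∈ W then 0 else x i := by
  show ∑ j, (M i j + if i = j ∧ i ∉ W then 1 else 0) * x j = _
  simp only [add_mul, Finset.sum_add_distrib]
  congr 1
  by_cases h : i ∈ W
  · rw [if_pos h]
    refine Finset.sum_eq_zero fun j _ => ?_
    rw [if_neg (fun h' => h'.2 h), zero_mul]
  · rw [if_neg h, Finset.sum_eq_single i]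
    · rw [if_pos ⟨rfl, h⟩, one_mul]
    · intro j _ hj
      rw [if_neg (fun h' => hj h'.1.symm), zero_mul]
    · intro h'
      exact absurd (Finset.mem_univ i) h'

/-- upper bound of the cut function -/
theorem ee_le (M : Matrix ι ι (ZMod 2)) (W : Finset ι) : ee M W ≤ M.rank := by
  let f : kerM (NW M W) →ₗ[ZMod 2] (LinearMap.range M.mulVecLin) × (W → ZMod 2) :=
    { toFun := fun x => (⟨M.mulVec x.1, x.1, rfl⟩, fun i => x.1 i)
      map_add' := fun x y => by
        refine Prod.ext (Subtype.ext ?_) rfl
        exact Matrix.mulVec_add _ _ _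
      map_smul' := fun a x => by
        refine Prod.ext (Subtype.ext ?_) rfl
        exact Matrix.mulVec_smul _ _ _ }
  have hf : Function.Injective f := by
    rw [injective_iff_map_eq_zero]
    rintro ⟨x, hx⟩ h
    have h1 : M.mulVec x = 0 := congrArg (fun q => (q.1 : ι → ZMod 2)) h
    have h2 : ∀ i : W, x i = 0 := fun i => congrFun (congrArg Prod.snd h) i
    refine Subtype.ext (funext fun i => ?_)
    show x i = 0
    by_cases hi : i ∈ W
    · exact h2 ⟨i, hi⟩
    · rw [mem_kerM] at hx
      have h3 := congrFun hx i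
      rw [NW_mulVec, h1, if_neg hi, Pi.zero_apply, zero_add] at h3
      exact h3
  have h := LinearMap.finrank_le_finrank_of_injective hf
  rw [Module.finrank_prod, finrank_fintype_fun_eq_card, Fintype.card_coe] at h
  unfold ee kk Matrix.rank
  omega

/-- lower bound of the cut function -/
theorem le_ee (M : Matrix ι ι (ZMod 2)) (W : Finset ι) : -(M.rank : ℤ) ≤ ee M W := by
  let ext : (W → ZMod 2) →ₗ[ZMod 2] (ι → ZMod 2) :=
    { toFun := fun x i => if h : i ∈ W then x ⟨i, h⟩ else 0
      map_add' := fun x y => by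
        funext i
        show (if h : i ∈ W then (x + y) ⟨i, h⟩ else 0) =
          (if h : i ∈ W then x ⟨i, h⟩ else 0) + (if h : i ∈ W then y ⟨i, h⟩ else 0)
        by_cases h : i ∈ W
        · rw [dif_pos h, dif_pos h, dif_pos h]
          rfl
        · rw [dif_neg h, dif_neg h, dif_neg h, add_zero]
      map_smul' := fun a x => by
        funext i
        show (if h : i ∈ W then (a • x) ⟨i, h⟩ else 0) =
          a * (if h : i ∈ W then x ⟨i, h⟩ else 0)
        by_cases h : i ∈ W
        · rw [dif_pos h, dif_pos h]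
          rfl
        · rw [dif_neg h, dif_neg h, mul_zero] }
  have hext : ∀ (x : W → ZMod 2) (i : ι), ext x i = if h : i ∈ W then x ⟨i, h⟩ else 0 :=
    fun _ _ => rfl
  let φ : (W → ZMod 2) →ₗ[ZMod 2] (ι → ZMod 2) := M.mulVecLin.comp ext
  have h1 := LinearMap.finrank_range_add_finrank_ker φ
  rw [finrank_fintype_fun_eq_card, Fintype.card_coe] at h1
  have h2 : finrank (ZMod 2) (LinearMap.range φ) ≤ M.rank := by
    unfold Matrix.rank
    exact Submodule.finrank_mono (LinearMap.range_comp_le_range ext M.mulVecLin)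
  let ψ : LinearMap.ker φ →ₗ[ZMod 2] kerM (NW M W) :=
    { toFun := fun x => ⟨ext x.1, by
        rw [mem_kerM]
        funext i
        rw [NW_mulVec]
        have h3 : M.mulVec (ext x.1) = 0 := x.2
        rw [h3, Pi.zero_apply, zero_add]
        by_cases hi : i ∈ W
        · rw [if_pos hi]
        · rw [if_neg hi, hext, dif_neg hi]⟩
      map_add' := fun x y => Subtype.ext (map_add ext _ _)
      map_smul' := fun a x => Subtype.ext (map_smul ext _ _) }
  have hψ : Function.Injective ψ := by
    rw [injective_iff_map_eq_zero]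
    rintro ⟨x, hx⟩ h
    have h3 : ext x = 0 := congrArg Subtype.val h
    refine Subtype.ext (funext fun i => ?_)
    show x i = 0
    have h4 := congrFun h3 (i : ι)
    rw [hext, dif_pos i.2] at h4
    exact h4
  have h3 := LinearMap.finrank_le_finrank_of_injective hψ
  unfold ee kk
  omega

omit [DecidableEq ι] in
theorem rank_le_classes {κ : Type*} [Fintype κ] (M : Matrix ι ι (ZMod 2)) (cls : ι → κ)
    (hcl : ∀ i j k, cls i = cls j → M i k = M j k) : M.rank ≤ Fintype.card κ := by
  classical
  let A : Matrix ι κ (ZMod 2) := fun i c => if cls i = c then 1 else 0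
  let B : Matrix κ ι (ZMod 2) := fun c k => if h : ∃ i, cls i = c then M h.choose k else 0
  have h1 : M = A * B := by
    funext i k
    rw [Matrix.mul_apply, Finset.sum_eq_single (cls i)]
    · show M i k = (if cls i = cls i then 1 else 0) *
        (if h : ∃ j, cls j = cls i then M h.choose k else 0)
      have h2 : ∃ j, cls j = cls i := ⟨i, rfl⟩
      rw [if_pos rfl, one_mul, dif_pos h2]
      exact (hcl _ _ k h2.choose_spec).symm
    · intro c _ hc
      show (if cls i = c then 1 else 0) * _ = (0 : ZMod 2)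
      rw [if_neg (Ne.symm hc), zero_mul]
    · intro h
      exact absurd (Finset.mem_univ _) h
  rw [h1]
  exact (Matrix.rank_mul_le_left A B).trans (Matrix.rank_le_card_width A)

theorem abs_ee_le {κ : Type*} [Fintype κ] (M : Matrix ι ι (ZMod 2)) (cls : ι → κ)
    (hcl : ∀ i j k, cls i = cls j → M i k = M j k) (W : Finset ι) :
    |ee M W| ≤ Fintype.card κ := by
  have h1 := ee_le M W
  have h2 := le_ee M W
  have h3 : (M.rank : ℤ) ≤ Fintype.card κ := by exact_mod_cast rank_le_classes M cls hcl
  rw [abs_le]
  constructor <;> omega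

end Size

end Pool.Agent.ThA
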