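import Mathlib
import Pool.Agent.ThA.Loops
import Pool.Agent.ThA.M2
import Pool.Agent.ThA.M3b
import Pool.Agent.ThA.M4

/-!
# ThA, module Asm: the cutting state of a division into twist classes
-/

set_option autoImplicit false

open Module

namespace Pool.Agent.ThA

open Pool.Agent.GaussJones

variable {n : ℕ} {g : Code n} {m : ℕ}

/-- the number of loops of a state, less one -/
noncomputable def kap (g : Code n) (s : Fin n → Bool) : ℕ := loops g s - 1

theorem fPoly_eq (g : Code n) (e : Fin n → Bool) : fPoly g e = M2.fsum (kap g) e := rfl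

/-- the matrix of the cutting state -/
noncomputable def MM (C : TwistClasses g m) : Matrix (Fin n) (Fin n) (ZMod 2) :=
  LL g + Matrix.diagonal (pp C)

theorem MM_symm (C : TwistClasses g m) (a b : Fin n) : MM C a b = MM C b a :=
  symm_diagonal _ _ (LL_symm g) a b

theorem MM_even (hg : EvenCode g) (C : TwistClasses g m) : EvenRows (MM C) :=
  even_diagonal _ _ (LL_self g) (LL_even hg)

theorem MM_cls (C : TwistClasses g m) (i j k : Fin n) (h : C.cls i = C.cls j) :
    MM C i k = MM C j k := congrFun (rows_eq C i j h) k

/-- the crossings at which the state is cutting -/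
def cutSet (C : TwistClasses g m) (s : Fin n → Bool) : Finset (Fin n) :=
  Finset.univ.filter fun i => s i = cutting C i

theorem mem_cutSet (C : TwistClasses g m) (s : Fin n → Bool) (i : Fin n) :
    i ∈ cutSet C s ↔ s i = cutting C i := by
  unfold cutSet
  rw [Finset.mem_filter]
  exact and_iff_right (Finset.mem_univ _)

theorem kap_eq (C : TwistClasses g m) (s : Fin n → Bool) : kap g s = kk (MM C) (cutSet C s) := by
  unfold kap MM
  rw [kk_diagonal]
  exact loops_cut C s _ (mem_cutSet C s)

/-- the trivial division -/
def single (g : Code n) : TwistClasses g n where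
  cls := id
  par := fun _ => false
  out := fun i j k h _ => by rw [show i = j from h]
  ins := fun i j h h' => absurd h' h

/-- **switching one smoothing changes the number of loops by exactly one** -/
theorem kap_switch (hg : EvenCode g) (s : Fin n → Bool) (c : Fin n) :
    kap g (Function.update s c (!(s c))) = kap g s + 1 ∨
      kap g s = kap g (Function.update s c (!(s c))) + 1 := by
  have C := single g
  have key : ∀ s : Fin n → Bool, s c ≠ cutting C c →
      kap g (Function.update s c (!(s c))) = kap g s + 1 ∨
        kap g s = kap g (Function.update s c (!(s c))) + 1 := by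
    intro s hs
    have hc : c ∉ cutSet C s := fun h => hs ((mem_cutSet C s c).1 h)
    have hs' : cutSet C (Function.update s c (!(s c))) = insert c (cutSet C s) := by
      ext i
      rw [mem_cutSet, Finset.mem_insert, mem_cutSet]
      by_cases hi : i = c
      · subst hi
        rw [Function.update_self]
        refine iff_of_true ?_ (Or.inl rfl)
        revert hs
        cases s i <;> cases cutting C i <;> simp
      · rw [Function.update_of_ne hi]
        exact ⟨Or.inr, fun h => h.resolve_left hi⟩
    have h1 := ee_insert (MM C) (MM_symm C) (MM_even hg C) (cutSet C s) c hc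
    rw [kap_eq C, kap_eq C, hs']
    unfold ee at h1
    rw [Finset.card_insert_of_notMem hc] at h1
    omega
  by_cases h : s c = cutting C c
  · have h1 := key (Function.update s c (!(s c))) (by
      rw [Function.update_self, ← h]
      cases s c <;> simp)
    rw [Function.update_self, Bool.not_not, Function.update_idem, Function.update_eq_self] at h1
    exact h1.symm
  · exact key s h

/-- the signed number of parallel crossings -/
theorem PP_eq (C : TwistClasses g m) (e : Fin n → Bool) : M2.PP e (cutting C) = C.mu e := by
  unfold M2.PP TwistClasses.mu cutting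
  refine Finset.sum_congr rfl fun i _ => ?_
  cases C.par (C.cls i) <;> rfl

/-- the sign of a crossing for the smoothing which is not cutting -/
def eps (C : TwistClasses g m) (e : Fin n → Bool) (i : Fin n) : ℤ :=
  if C.par (C.cls i) = true then sgn e i else -sgn e i

theorem q_exp (b : Bool) : M2.q b =
    Complex.exp (-(Real.pi : ℂ) * Complex.I * (((if b then 1 else -1 : ℤ)) : ℂ) / 3) := by
  have h3 : ∀ x : ℝ, Complex.exp (((x : ℝ) : ℂ) * Complex.I) =
      (Real.cos x : ℂ) + (Real.sin x : ℂ) * Complex.I := by
    intro x
    rw [Complex.exp_mul_I, Complex.ofReal_cos, Complex.ofReal_sin]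
  cases b
  · have h1 : -(Real.pi : ℂ) * Complex.I * (((if false = true then 1 else -1 : ℤ)) : ℂ) / 3 =
        ((Real.pi / 3 : ℝ) : ℂ) * Complex.I := by
      push_cast [Bool.false_eq_true]
      ring
    rw [h1, h3, Real.cos_pi_div_three, Real.sin_pi_div_three]
    unfold M2.q
    rw [if_neg (by decide)]
    push_cast
    ring
  · have h1 : -(Real.pi : ℂ) * Complex.I * (((if true = true then 1 else -1 : ℤ)) : ℂ) / 3 =
        ((-(Real.pi / 3) : ℝ) : ℂ) * Complex.I := by
      rw [if_pos rfl]
      push_cast
      ring
    rw [h1, h3, Real.cos_neg, Real.sin_neg, Real.cos_pi_div_three, Real.sin_pi_div_three]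
    unfold M2.q
    rw [if_pos rfl]
    push_cast
    ring

/-- the weight of the smoothing which is not cutting -/
noncomputable def zz (C : TwistClasses g m) (e : Fin n → Bool) (i : Fin n) : ℂ :=
  M2.q (!(cutting C i) == e i)

theorem zz_exp (C : TwistClasses g m) (e : Fin n → Bool) (i : Fin n) : zz C e i =
    Complex.exp (-(Real.pi : ℂ) * Complex.I * ((eps C e i : ℤ) : ℂ) / 3) := by
  unfold zz
  rw [q_exp]
  have h : (if (!(cutting C i) == e i) = true then (1 : ℤ) else -1) = eps C e i := by
    unfold eps sgn cutting
    cases C.par (C.cls i) <;> cases e i <;> rfl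
  rw [h]

theorem q_not (b : Bool) : M2.q (!b) = 1 - M2.q b := by
  have h := M2.q_add
  cases b
  · exact eq_sub_of_add_eq h
  · exact eq_sub_of_add_eq (by rw [add_comm]; exact h)

/-- the product of the weights of the smoothings of a state -/
theorem prod_q (C : TwistClasses g m) (e s : Fin n → Bool) :
    ∏ c, M2.q (s c == e c) = wg (zz C e) (cutSet C s) := by
  unfold wg
  rw [← Finset.prod_compl_mul_prod (cutSet C s)]
  congr 1
  · refine Finset.prod_congr rfl fun i hi => ?_
    rw [Finset.mem_compl, mem_cutSet] at hi
    unfold zz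
    congr 2
    revert hi
    cases s i <;> cases cutting C i <;> simp
  · refine Finset.prod_congr rfl fun i hi => ?_
    rw [mem_cutSet] at hi
    unfold zz
    rw [← q_not, hi]
    congr 1
    cases cutting C i <;> cases e i <;> rfl

/-- the mean excess in terms of the cut function of the classes -/
theorem EE_eq (C : TwistClasses g m) (e : Fin n → Bool) :
    M2.EE (kap g) e (cutting C) = mcut (ZZ C.cls (zz C e)) (YY (MM C) C.cls) := by
  rw [← push_mcut (MM C) (MM_symm C) C.cls (MM_cls C), ← sum_states (cutting C)]
  unfold M2.EE
  refine Finset.sum_congr rfl fun s _ => ?_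
  rw [prod_q C e s, kap_eq C s]
  unfold cutSet ee
  congr 1
  push_cast
  congr 1
  rw [Finset.sum_boole]

/-- the sum of the `eps` of a class -/
theorem sum_eps (C : TwistClasses g m) (e : Fin n → Bool) (c : Fin m) :
    ∑ i ∈ Finset.univ.filter (fun i => C.cls i = c), eps C e i =
      if C.par c = true then C.length e c else -C.length e c := by
  have h1 : ∀ i ∈ Finset.univ.filter (fun i => C.cls i = c), eps C e i =
      if C.par c = true then sgn e i else -sgn e i := by
    intro i hi
    rw [Finset.mem_filter] at hi
    unfold eps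
    rw [hi.2]
  rw [Finset.sum_congr rfl h1]
  unfold TwistClasses.length
  rw [← Finset.sum_filter]
  split_ifs
  · rfl
  · rw [Finset.sum_neg_distrib]

theorem ZZ_exp (C : TwistClasses g m) (e : Fin n → Bool) (c : Fin m) :
    ZZ C.cls (zz C e) c = Complex.exp (-(Real.pi : ℂ) * Complex.I *
      (((if C.par c = true then C.length e c else -C.length e c : ℤ)) : ℂ) / 3) := by
  unfold ZZ
  rw [Finset.prod_congr rfl fun i _ => zz_exp C e i, ← Complex.exp_sum, ← sum_eps]
  congr 1
  rw [← Finset.sum_div, ← Finset.mul_sum]
  push_cast
  rfl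

/-- **the bound** -/
theorem im_EE_le (hg : EvenCode g) (C : TwistClasses g m) (e : Fin n → Bool) :
    |(M2.EE (kap g) e (cutting C)).im| ≤ bnd (C.num e 3) (C.num e 6) := by
  have h1 := im_mcut_exp_le (fun c => if C.par c = true then C.length e c else -C.length e c)
    (YY (MM C) C.cls) (fun F c hc => YY_step (MM C) (MM_symm C) C.cls (MM_cls C) (MM_even hg C) F c hc)
  have h2 : (fun c => Complex.exp (-(Real.pi : ℂ) * Complex.I *
      (((if C.par c = true then C.length e c else -C.length e c : ℤ)) : ℂ) / 3)) =
      ZZ C.cls (zz C e) := funext fun c => (ZZ_exp C e c).symm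
  rw [h2, ← EE_eq] at h1
  have h3 : ∀ k : ℤ, Nat.card {c : Fin m // ¬ k ∣ (fun c => if C.par c = true then C.length e c
      else -C.length e c) c} = C.num e k := by
    intro k
    unfold TwistClasses.num
    apply Nat.card_congr
    refine Equiv.subtypeEquivRight fun c => ?_
    beta_reduce
    split_ifs
    · rfl
    · rw [Int.dvd_neg]
  rwa [h3, h3] at h1

/-- **Theorem A, two diagrams** -/
theorem two_diagrams {n' m' : ℕ} {g' : Code n'} (hg : EvenCode g) (hg' : EvenCode g')
    (C : TwistClasses g m) (C' : TwistClasses g' m') (e : Fin n → Bool) (e' : Fin n' → Bool)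
    (h : fPoly g e = fPoly g' e') :
    Real.sqrt 3 * |(C.mu e : ℝ) - C'.mu e'| ≤
      bnd (C.num e 3) (C.num e 6) + bnd (C'.num e' 3) (C'.num e' 6) := by
  have h1 := M2.compare (kap g) e (kap_switch hg) (kap g') e' (kap_switch hg') h (cutting C)
    (cutting C')
  rw [PP_eq, PP_eq] at h1
  exact compare_im h1 (im_EE_le hg C e) (im_EE_le hg' C' e')

/-- **Theorem A, one diagram** -/
theorem one_diagram (hg : EvenCode g) (C : TwistClasses g m) (e : Fin n → Bool)
    (h : fPoly g e = 1) :
    Real.sqrt 3 * |(C.mu e : ℝ)| ≤ bnd (C.num e 3) (C.num e 6) := by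
  have h1 := M2.compare_one (kap g) e (kap_switch hg) h (cutting C)
  rw [PP_eq] at h1
  have h2 := compare_im (μ' := 0) (E' := 0) (c' := 0)
    (h1.trans (by push_cast; ring)) (im_EE_le hg C e) (by simp)
  simpa using h2

end Pool.Agent.ThA
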