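import Mathlib
import Pool.Agent.ThA.Asm

/-!
# ThA, module L5: inserting twins whose sum of signs is divisible by 6

`M'` is a symmetric matrix over `ZMod 2`, the rows which are not in the range of `f` are equal and
their number is even.  If none of them is cut, they can be left out.
-/

set_option autoImplicit false
set_option linter.unusedSectionVars false

open Module

namespace Pool.Agent.ThA

section Kernel

variable {ι ι' : Type*} [Fintype ι] [DecidableEq ι] [Fintype ι'] [DecidableEq ι']

/-- the elements which are not in the range of `f` -/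
noncomputable def off (f : ι ↪ ι') : Finset ι' := (Finset.univ.map f)ᶜ

theorem mem_off (f : ι ↪ ι') (a : ι') : a ∈ off f ↔ ∀ c, f c ≠ a := by
  unfold off
  simp [Finset.mem_map]

theorem notMem_off (f : ι ↪ ι') (c : ι) : f c ∉ off f := by
  rw [mem_off]
  exact fun h => h c rfl

theorem exists_of_notMem_off (f : ι ↪ ι') (a : ι') (h : a ∉ off f) : ∃ c, f c = a := by
  by_contra h'
  exact h ((mem_off f a).2 fun c hc => h' ⟨c, hc⟩)

theorem sum_off {R : Type*} [AddCommMonoid R] (f : ι ↪ ι') (t : ι' → R) :
    ∑ a, t a = ∑ a ∈ off f, t a + ∑ c, t (f c) := by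
  rw [← Finset.sum_compl_add_sum (Finset.univ.map f) t]
  unfold off
  rw [Finset.sum_map]

theorem prod_off {R : Type*} [CommMonoid R] (f : ι ↪ ι') (t : ι' → R) :
    ∏ a, t a = (∏ a ∈ off f, t a) * ∏ c, t (f c) := by
  rw [← Finset.prod_compl_mul_prod (Finset.univ.map f) t]
  unfold off
  rw [Finset.prod_map]

omit [Fintype ι] [DecidableEq ι] [Fintype ι'] [DecidableEq ι'] in
theorem sum_even (S : Finset ι') (hS : Even S.card) (t : ι' → ZMod 2)
    (h : ∀ a ∈ S, ∀ b ∈ S, t a = t b) : ∑ a ∈ S, t a = 0 := by
  rcases S.eq_empty_or_nonempty with h0 | ⟨b, hb⟩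
  · rw [h0, Finset.sum_empty]
  · rw [Finset.sum_congr rfl fun a ha => h a ha b hb, Finset.sum_const]
    obtain ⟨k, hk⟩ := hS
    rw [hk, add_smul]
    generalize k • t b = x
    revert x
    decide

variable (M : Matrix ι ι (ZMod 2)) (M' : Matrix ι' ι' (ZMod 2)) (f : ι ↪ ι')
  (hM' : ∀ a b, M' a b = M' b a) (hf : ∀ i j, M' (f i) (f j) = M i j)
  (hrow : ∀ a ∈ off f, ∀ b ∈ off f, ∀ k, M' a k = M' b k) (heven : Even (off f).card)

include hM' hrow heven in
/-- a vector which is constant off the range of `f` -/
theorem mulVec_off (x : ι' → ZMod 2) (hx : ∀ a ∈ off f, ∀ b ∈ off f, x a = x b) (b : ι') :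
    M'.mulVec x b = ∑ c, M' b (f c) * x (f c) := by
  show ∑ a, M' b a * x a = _
  rw [sum_off f, sum_even (off f) heven, zero_add]
  intro a ha d hd
  rw [hM' b a, hM' b d, hrow a ha d hd b, hx a ha d hd]

include hM' hf hrow heven in
theorem kk_off (W : Finset ι) : kk M' (W.map f) = kk M W := by
  have hW : ∀ a ∈ off f, a ∉ W.map f := by
    intro a ha h
    obtain ⟨c, _, rfl⟩ := Finset.mem_map.1 h
    exact notMem_off f c ha
  have hW' : ∀ c, f c ∈ W.map f ↔ c ∈ W := fun c => Finset.mem_map' f
  -- a kernel vector is constant off the range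
  have hc : ∀ x : ι' → ZMod 2, (NW M' (W.map f)).mulVec x = 0 →
      ∀ a ∈ off f, x a = M'.mulVec x a := by
    intro x hx a ha
    have h1 := congrFun hx a
    rw [NW_mulVec, if_neg (hW a ha), Pi.zero_apply] at h1
    generalize M'.mulVec x a = t at h1 ⊢
    generalize x a = u at h1 ⊢
    revert t u
    decide
  have hcc : ∀ x : ι' → ZMod 2, (NW M' (W.map f)).mulVec x = 0 →
      ∀ a ∈ off f, ∀ b ∈ off f, x a = x b := by
    intro x hx a ha b hb
    rw [hc x hx a ha, hc x hx b hb]
    show ∑ k, M' a k * x k = ∑ k, M' b k * x k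
    exact Finset.sum_congr rfl fun k _ => by rw [hrow a ha b hb k]
  let φ : kerM (NW M' (W.map f)) →ₗ[ZMod 2] kerM (NW M W) :=
    { toFun := fun x => ⟨fun i => x.1 (f i), by
        have hx := (mem_kerM _ _).1 x.2
        rw [mem_kerM]
        funext i
        have h1 := congrFun hx (f i)
        rw [NW_mulVec, mulVec_off M' f hM' hrow heven x.1 (hcc x.1 hx)] at h1
        rw [if_congr (hW' i) rfl rfl] at h1
        have h2 : M.mulVec (fun i => x.1 (f i)) i = ∑ c, M' (f i) (f c) * x.1 (f c) := by
          show ∑ c, M i c * x.1 (f c) = _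
          exact Finset.sum_congr rfl fun c _ => by rw [hf]
        rw [NW_mulVec, h2]
        exact h1⟩
      map_add' := fun _ _ => rfl
      map_smul' := fun _ _ => rfl }
  have hinj : Function.Injective φ := by
    rw [injective_iff_map_eq_zero]
    rintro ⟨x, hx⟩ h
    have h1 : ∀ c, x (f c) = 0 := fun c => congrFun (congrArg Subtype.val h) c
    have hx' := (mem_kerM _ _).1 hx
    refine Subtype.ext (funext fun a => ?_)
    show x a = 0
    by_cases ha : a ∈ off f
    · rw [hc x hx' a ha, mulVec_off M' f hM' hrow heven x (hcc x hx')]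
      exact Finset.sum_eq_zero fun c _ => by rw [h1 c, mul_zero]
    · obtain ⟨c, rfl⟩ := exists_of_notMem_off f a ha
      exact h1 c
  have hsurj : Function.Surjective φ := by
    rintro ⟨y, hy⟩
    classical
    let x : ι' → ZMod 2 := fun a =>
      if h : ∃ c, f c = a then y h.choose else ∑ c, M' a (f c) * y c
    have hx1 : ∀ c, x (f c) = y c := by
      intro c
      have h : ∃ d, f d = f c := ⟨c, rfl⟩
      show (if h : ∃ d, f d = f c then y h.choose else _) = y c
      rw [dif_pos h]
      exact congrArg y (f.injective h.choose_spec)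
    have hx2 : ∀ a ∈ off f, x a = ∑ c, M' a (f c) * y c := by
      intro a ha
      show (if h : ∃ d, f d = a then y h.choose else _) = _
      rw [dif_neg]
      rintro ⟨c, hc⟩
      exact (mem_off f a).1 ha c hc
    have hx3 : ∀ a ∈ off f, ∀ b ∈ off f, x a = x b := by
      intro a ha b hb
      rw [hx2 a ha, hx2 b hb]
      exact Finset.sum_congr rfl fun c _ => by rw [hrow a ha b hb]
    have hxk : (NW M' (W.map f)).mulVec x = 0 := by
      funext a
      rw [NW_mulVec, mulVec_off M' f hM' hrow heven x hx3]
      simp only [hx1]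
      by_cases ha : a ∈ off f
      · rw [if_neg (hW a ha), hx2 a ha, Pi.zero_apply]
        generalize ∑ c, M' a (f c) * y c = t
        revert t
        decide
      · obtain ⟨i, rfl⟩ := exists_of_notMem_off f a ha
        have h1 := congrFun ((mem_kerM _ _).1 hy) i
        rw [NW_mulVec] at h1
        have h2 : ∑ c, M' (f i) (f c) * y c = M.mulVec y i := by
          show _ = ∑ c, M i c * y c
          exact Finset.sum_congr rfl fun c _ => by rw [hf]
        rw [if_congr (hW' i) rfl rfl, h2, hx1]
        exact h1
    refine ⟨⟨x, (mem_kerM _ _).2 hxk⟩, ?_⟩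
    refine Subtype.ext (funext fun c => ?_)
    exact hx1 c
  unfold kk
  exact (LinearEquiv.ofBijective φ ⟨hinj, hsurj⟩).finrank_eq

include hM' hf hrow heven in
theorem ee_off (W : Finset ι) : ee M' (W.map f) = ee M W := by
  unfold ee
  rw [kk_off M M' f hM' hf hrow heven, Finset.card_map]

end Kernel

section Sum

variable {ι ι' : Type*} [Fintype ι] [DecidableEq ι] [Fintype ι'] [DecidableEq ι']

/-- the class of an element: its preimage under `f`, or the class `none` of all the other ones -/
noncomputable def kls (f : ι ↪ ι') (a : ι') : Option ι :=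
  if h : ∃ c, f c = a then some h.choose else none

theorem kls_apply (f : ι ↪ ι') (c : ι) : kls f (f c) = some c := by
  have h : ∃ d, f d = f c := ⟨c, rfl⟩
  unfold kls
  rw [dif_pos h]
  exact congrArg some (f.injective h.choose_spec)

theorem kls_off (f : ι ↪ ι') (a : ι') : kls f a = none ↔ a ∈ off f := by
  rw [mem_off]
  unfold kls
  constructor
  · intro h c hc
    rw [dif_pos ⟨c, hc⟩] at h
    exact absurd h (Option.some_ne_none _)
  · intro h
    rw [dif_neg]
    rintro ⟨c, hc⟩
    exact h c hc

theorem kls_some (f : ι ↪ ι') (a : ι') (c : ι) : kls f a = some c ↔ f c = a := by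
  constructor
  · intro h
    unfold kls at h
    by_cases h' : ∃ c, f c = a
    · rw [dif_pos h', Option.some_inj] at h
      rw [← h]
      exact h'.choose_spec
    · rw [dif_neg h'] at h
      exact absurd h.symm (Option.some_ne_none _)
  · rintro rfl
    exact kls_apply f c

theorem ZZ_some (f : ι ↪ ι') (z : ι' → ℂ) (c : ι) : ZZ (kls f) z (some c) = z (f c) := by
  unfold ZZ
  rw [Finset.prod_eq_single (f c)]
  · intro a ha hne
    rw [Finset.mem_filter, kls_some] at ha
    exact absurd ha.2.symm hne
  · intro h
    exact (h (Finset.mem_filter.2 ⟨Finset.mem_univ _, kls_apply f c⟩)).elim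

theorem ZZ_none (f : ι ↪ ι') (z : ι' → ℂ) : ZZ (kls f) z none = ∏ a ∈ off f, z a := by
  unfold ZZ
  refine Finset.prod_congr ?_ fun _ _ => rfl
  ext a
  rw [Finset.mem_filter, kls_off]
  exact ⟨fun h => h.2, fun h => ⟨Finset.mem_univ _, h⟩⟩

/-- sums over the sets which do not contain `none` -/
theorem sum_option (F : Finset (Option ι) → ℂ) (hF : ∀ U, none ∈ U → F U = 0) :
    ∑ U, F U = ∑ W : Finset ι, F (W.map Function.Embedding.some) := by
  rw [← Finset.sum_subset (Finset.subset_univ
    (Finset.univ.filter fun U : Finset (Option ι) => none ∉ U))]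
  · refine Finset.sum_nbij' (fun U => Finset.eraseNone U)
      (fun W => W.map Function.Embedding.some) ?_ ?_ ?_ ?_ ?_
    · intro U _
      exact Finset.mem_univ _
    · intro W _
      rw [Finset.mem_filter]
      refine ⟨Finset.mem_univ _, ?_⟩
      simp
    · intro U hU
      rw [Finset.mem_filter] at hU
      rw [Finset.map_some_eraseNone, Finset.erase_eq_of_notMem hU.2]
    · intro W _
      exact Finset.eraseNone_map_some W
    · intro U hU
      rw [Finset.mem_filter] at hU
      rw [Finset.map_some_eraseNone, Finset.erase_eq_of_notMem hU.2]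
  · intro U _ hU
    rw [Finset.mem_filter] at hU
    refine hF U ?_
    by_contra h
    exact hU ⟨Finset.mem_univ _, h⟩

theorem wg_option (Z : Option ι → ℂ) (hZ : Z none = 1) (W : Finset ι) :
    wg Z (W.map Function.Embedding.some) = wg (fun c => Z (some c)) W := by
  unfold wg
  have h1 : (W.map Function.Embedding.some)ᶜ = insert none (Wᶜ.map Function.Embedding.some) := by
    ext c
    cases c with
    | none => simp
    | some c => simp
  rw [h1, Finset.prod_insert (by simp), hZ, one_mul, Finset.prod_map, Finset.prod_map]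
  rfl

variable (M : Matrix ι ι (ZMod 2)) (M' : Matrix ι' ι' (ZMod 2)) (f : ι ↪ ι')
  (hM' : ∀ a b, M' a b = M' b a) (hf : ∀ i j, M' (f i) (f j) = M i j)
  (hrow : ∀ a ∈ off f, ∀ b ∈ off f, ∀ k, M' a k = M' b k) (heven : Even (off f).card)

include hM' hf hrow heven in
/-- the mean values of the cut functions are equal -/
theorem sum_ee_off (z' : ι' → ℂ) (hz : ∏ a ∈ off f, z' a = 1) :
    ∑ W : Finset ι', (ee M' W : ℂ) * wg z' W =
      ∑ W : Finset ι, (ee M W : ℂ) * wg (fun c => z' (f c)) W := by
  have hcl : ∀ i j k, kls f i = kls f j → M' i k = M' j k := by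
    intro i j k h
    by_cases hi : i ∈ off f
    · have hj : j ∈ off f := by
        rw [← kls_off, ← h, kls_off]
        exact hi
      exact hrow i hi j hj k
    · obtain ⟨c, rfl⟩ := exists_of_notMem_off f i hi
      rw [kls_apply] at h
      rw [(kls_some f j c).1 h.symm]
  rw [push_ee M' hM' (kls f) hcl z', sum_option]
  · refine Finset.sum_congr rfl fun W _ => ?_
    rw [wg_option _ ((ZZ_none f z').trans hz)]
    have h1 : (fun c => ZZ (kls f) z' (some c)) = fun c => z' (f c) :=
      funext fun c => ZZ_some f z' c
    have h2 : un (kls f) (W.map Function.Embedding.some) = W.map f := by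
      ext a
      unfold un
      rw [Finset.mem_filter, Finset.mem_map, Finset.mem_map]
      constructor
      · rintro ⟨_, c, hc, h⟩
        exact ⟨c, hc, (kls_some f a c).1 h.symm⟩
      · rintro ⟨c, hc, h⟩
        exact ⟨Finset.mem_univ _, c, hc, ((kls_some f a c).2 h).symm⟩
    rw [h1]
    unfold YY
    rw [h2, ee_off M M' f hM' hf hrow heven]
  · intro U hU
    unfold wg
    rw [Finset.prod_eq_zero hU (by rw [ZZ_none, hz, sub_self]), mul_zero, mul_zero]

end Sum

section Diagrams

open Pool.Agent.GaussJones

variable {n n' : ℕ}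

theorem LL_congr (g : Code n) (g' : Code n') (i j : Fin n) (i' j' : Fin n')
    (h : Interlaced g i j ↔ Interlaced g' i' j') : LL g i j = LL g' i' j' := by
  classical
  unfold LL
  exact if_congr h rfl rfl

theorem LL_val (g : Code n) (i j : Fin n) (b : Bool) (h : Interlaced g i j ↔ b = true) :
    LL g i j = if b = true then 1 else 0 := by
  classical
  unfold LL
  exact if_congr h rfl rfl

/-- the diagonal of a state -/
def dg (σ : Fin n → Bool) : Fin n → ZMod 2 := fun i => if σ i = true then 0 else 1

/-- the matrix of a state -/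
noncomputable def MS (g : Code n) (σ : Fin n → Bool) : Matrix (Fin n) (Fin n) (ZMod 2) :=
  LL g + Matrix.diagonal (dg σ)

theorem MS_ne (g : Code n) (σ : Fin n → Bool) (i j : Fin n) (h : i ≠ j) :
    MS g σ i j = LL g i j := by
  unfold MS
  rw [Matrix.add_apply, Matrix.diagonal_apply_ne _ h, add_zero]

theorem MS_self (g : Code n) (σ : Fin n → Bool) (i : Fin n) : MS g σ i i = dg σ i := by
  unfold MS
  rw [Matrix.add_apply, Matrix.diagonal_apply_eq, LL_self, zero_add]

theorem kap_MS (g : Code n) (σ s : Fin n → Bool) :
    kap g s = kk (MS g σ) (Finset.univ.filter fun i => s i = σ i) := by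
  unfold kap MS
  rw [kk_diagonal, loops_rank]
  have h : (fun i => if s i = true then (0 : ZMod 2) else 1) = fun i => dg σ i +
      if i ∈ Finset.univ.filter (fun i => s i = σ i) then (0 : ZMod 2) else 1 := by
    funext i
    have h1 : i ∈ Finset.univ.filter (fun i => s i = σ i) ↔ s i = σ i := by
      rw [Finset.mem_filter]
      exact and_iff_right (Finset.mem_univ _)
    rw [if_congr h1 rfl rfl]
    unfold dg
    cases s i <;> cases σ i <;> decide
  rw [h]

/-- the mean excess of a state -/
theorem EE_MS (g : Code n) (e σ : Fin n → Bool) : M2.EE (kap g) e σ =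
    ∑ W : Finset (Fin n), (ee (MS g σ) W : ℂ) * wg (fun i => M2.q (!(σ i) == e i)) W := by
  rw [← sum_states σ]
  unfold M2.EE
  refine Finset.sum_congr rfl fun s _ => ?_
  have hmem : ∀ i, i ∈ Finset.univ.filter (fun i => s i = σ i) ↔ s i = σ i := fun i => by
    rw [Finset.mem_filter]
    exact and_iff_right (Finset.mem_univ _)
  congr 1
  · rw [kap_MS g σ s]
    unfold ee
    push_cast
    congr 1
    rw [Finset.sum_boole]
  · unfold wg
    rw [← Finset.prod_compl_mul_prod (Finset.univ.filter fun i => s i = σ i)]
    congr 1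
    · refine Finset.prod_congr rfl fun i hi => ?_
      rw [Finset.mem_compl, hmem] at hi
      congr 2
      revert hi
      cases s i <;> cases σ i <;> simp
    · refine Finset.prod_congr rfl fun i hi => ?_
      rw [hmem] at hi
      rw [← q_not, hi]
      congr 1
      cases σ i <;> cases e i <;> rfl

/-- The diagram with code `g'` and signs `e'` arises from that with code `g` and signs `e` by
inserting a twist region: the new crossings are interlaced with the same old crossings, and either
any two different new crossings are interlaced (parallel strands, `par = true`) or no two are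
(antiparallel strands, `par = false`). -/
structure Insertion (g : Code n) (e : Fin n → Bool) (g' : Code n') (e' : Fin n' → Bool) where
  /-- the old crossings -/
  old : Fin n ↪ Fin n'
  /-- the kind of the new crossings -/
  par : Bool
  /-- the old crossings are interlaced as before -/
  same : ∀ i j, Interlaced g' (old i) (old j) ↔ Interlaced g i j
  /-- the old crossings have the same signs as before -/
  sign : ∀ i, e' (old i) = e i
  /-- the new crossings are interlaced with the same old crossings -/
  out : ∀ a b, a ∉ Set.range old → b ∉ Set.range old → ∀ i,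
    (Interlaced g' a (old i) ↔ Interlaced g' b (old i))
  /-- the new crossings with each other -/
  ins : ∀ a b, a ∉ Set.range old → b ∉ Set.range old → a ≠ b →
    (Interlaced g' a b ↔ par = true)

namespace Insertion

variable {g : Code n} {e : Fin n → Bool} {g' : Code n'} {e' : Fin n' → Bool}

open Classical in
/-- the sum of the signs of the new crossings -/
noncomputable def total (I : Insertion g e g' e') : ℤ :=
  ∑ a, if a ∈ Set.range I.old then 0 else sgn e' a

theorem mem_range (I : Insertion g e g' e') (a : Fin n') :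
    a ∉ Set.range I.old ↔ a ∈ off I.old := by
  rw [mem_off]
  exact ⟨fun h c hc => h ⟨c, hc⟩, fun h ⟨c, hc⟩ => h c hc⟩

theorem total_eq (I : Insertion g e g' e') : I.total = ∑ a ∈ off I.old, sgn e' a := by
  classical
  unfold total
  rw [sum_off I.old]
  rw [Finset.sum_eq_zero (s := Finset.univ), add_zero]
  · refine Finset.sum_congr rfl fun a ha => ?_
    rw [if_neg ((I.mem_range a).2 ha)]
  · intro c _
    rw [if_pos ⟨c, rfl⟩]

theorem even_total (I : Insertion g e g' e') (h : Even I.total) : Even (off I.old).card := by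
  rw [total_eq] at h
  have h1 : ∀ S : Finset (Fin n'), Even (∑ a ∈ S, sgn e' a) ↔ Even (S.card : ℤ) := by
    intro S
    induction S using Finset.induction_on with
    | empty => simp
    | insert a S ha ih =>
      rw [Finset.sum_insert ha, Finset.card_insert_of_notMem ha, Nat.cast_succ, Int.even_add,
        Int.even_add, ih]
      have h2 : Even (sgn e' a) ↔ Even (1 : ℤ) := by
        unfold sgn
        split_ifs
        · exact Iff.rfl
        · rw [even_neg]
      rw [h2]
      exact iff_comm
  exact_mod_cast (h1 _).1 h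

/-- the state of the new diagram: the new crossings are cut -/
noncomputable def lift (I : Insertion g e g' e') (σ : Fin n → Bool) : Fin n' → Bool :=
  fun a => (kls I.old a).elim (!I.par) σ

theorem lift_old (I : Insertion g e g' e') (σ : Fin n → Bool) (i : Fin n) :
    I.lift σ (I.old i) = σ i := by
  unfold lift
  rw [kls_apply]
  rfl

theorem lift_off (I : Insertion g e g' e') (σ : Fin n → Bool) (a : Fin n') (ha : a ∈ off I.old) :
    I.lift σ a = !I.par := by
  unfold lift
  rw [(kls_off I.old a).2 ha]
  rfl

theorem MS_old (I : Insertion g e g' e') (σ : Fin n → Bool) (i j : Fin n) :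
    MS g' (I.lift σ) (I.old i) (I.old j) = MS g σ i j := by
  by_cases h : i = j
  · subst h
    rw [MS_self, MS_self]
    unfold dg
    rw [lift_old]
  · rw [MS_ne _ _ _ _ h, MS_ne _ _ _ _ (fun h' => h (I.old.injective h'))]
    exact LL_congr _ _ _ _ _ _ (I.same i j)

theorem MS_off (I : Insertion g e g' e') (σ : Fin n → Bool) (a b : Fin n')
    (ha : a ∈ off I.old) (hb : b ∈ off I.old) :
    MS g' (I.lift σ) a b = if I.par = true then 1 else 0 := by
  by_cases h : a = b
  · subst h
    rw [MS_self]
    unfold dg
    rw [I.lift_off σ a ha]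
    cases I.par <;> rfl
  · rw [MS_ne _ _ _ _ h]
    exact LL_val _ _ _ _ (I.ins a b ((I.mem_range a).2 ha) ((I.mem_range b).2 hb) h)

theorem MS_row (I : Insertion g e g' e') (σ : Fin n → Bool) (a : Fin n') (ha : a ∈ off I.old)
    (b : Fin n') (hb : b ∈ off I.old) (k : Fin n') :
    MS g' (I.lift σ) a k = MS g' (I.lift σ) b k := by
  by_cases hk : k ∈ off I.old
  · rw [I.MS_off σ a k ha hk, I.MS_off σ b k hb hk]
  · obtain ⟨c, rfl⟩ := exists_of_notMem_off I.old k hk
    have h1 : a ≠ I.old c := fun h => notMem_off I.old c (h ▸ ha)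
    have h2 : b ≠ I.old c := fun h => notMem_off I.old c (h ▸ hb)
    rw [MS_ne _ _ _ _ h1, MS_ne _ _ _ _ h2]
    exact LL_congr _ _ _ _ _ _ (I.out a b ((I.mem_range a).2 ha) ((I.mem_range b).2 hb) c)

/-- **the mean excess does not change** -/
theorem EE_eq (I : Insertion g e g' e') (h6 : (6 : ℤ) ∣ I.total) (σ : Fin n → Bool) :
    M2.EE (kap g') e' (I.lift σ) = M2.EE (kap g) e σ := by
  have heven : Even (off I.old).card :=
    I.even_total ((even_iff_two_dvd).2 (dvd_trans (by norm_num) h6))
  rw [EE_MS, EE_MS, sum_ee_off (MS g σ) (MS g' (I.lift σ)) I.old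
    (symm_diagonal _ _ (LL_symm g')) (I.MS_old σ) (I.MS_row σ) heven]
  · have h1 : (fun c => M2.q (!(I.lift σ (I.old c)) == e' (I.old c))) =
        fun c => M2.q (!(σ c) == e c) := by
      funext c
      rw [I.lift_old, I.sign]
    rw [h1]
  · have h1 : ∀ a ∈ off I.old, M2.q (!(I.lift σ a) == e' a) =
        Complex.exp (-(Real.pi : ℂ) * Complex.I *
          ((if I.par = true then sgn e' a else -sgn e' a : ℤ) : ℂ) / 3) := by
      intro a ha
      rw [I.lift_off σ a ha, q_exp]
      have h : (if (!(!I.par) == e' a) = true then (1 : ℤ) else -1) =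
          if I.par = true then sgn e' a else -sgn e' a := by
        unfold sgn
        cases I.par <;> cases e' a <;> rfl
      rw [h]
    rw [Finset.prod_congr rfl h1, ← Complex.exp_sum, ← Finset.sum_div, ← Finset.mul_sum]
    have h2 : (∑ a ∈ off I.old, ((if I.par = true then sgn e' a else -sgn e' a : ℤ) : ℂ)) =
        ((if I.par = true then I.total else -I.total : ℤ) : ℂ) := by
      rw [total_eq]
      cases I.par
      · simp
      · simp
    rw [h2, exp_eq_one_iff]
    split_ifs
    · exact h6
    · exact (Int.dvd_neg).2 h6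

/-- **the change of the signed number of crossings** -/
theorem PP_eq (I : Insertion g e g' e') (σ : Fin n → Bool) :
    M2.PP e' (I.lift σ) = M2.PP e σ + if I.par = true then I.total else 0 := by
  unfold M2.PP
  rw [sum_off I.old, total_eq, add_comm]
  congr 1
  · refine Finset.sum_congr rfl fun c _ => ?_
    rw [I.lift_old]
    unfold sgn
    rw [I.sign]
  · rw [Finset.sum_congr rfl fun a ha => by rw [I.lift_off σ a ha]]
    cases I.par
    · simp
    · simp

/-- a diagram from which an even number of twins has been removed -/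
theorem even_old (I : Insertion g e g' e') (h : Even (off I.old).card) (hg : EvenCode g') :
    EvenCode g := by
  have key : ∀ i, ∑ j, LL g i j = 0 := by
    intro i
    have h1 := LL_even hg (I.old i)
    rw [sum_off I.old, sum_even (off I.old) h, zero_add] at h1
    · rw [← h1]
      refine Finset.sum_congr rfl fun j _ => ?_
      exact LL_congr _ _ _ _ _ _ (I.same i j).symm
    · intro a ha b hb
      rw [LL_symm g' _ a, LL_symm g' _ b]
      exact LL_congr _ _ _ _ _ _ (I.out a b ((I.mem_range a).2 ha) ((I.mem_range b).2 hb) i)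
  intro i
  have h1 := key i
  classical
  unfold LL at h1
  rw [Finset.sum_boole, ZMod.natCast_eq_zero_iff_even] at h1
  rwa [Nat.card_eq_fintype_card, Fintype.card_subtype]

/-- **L5.** The integer `Lam` under the insertion of a twist region whose sum of signs is divisible
by `6`. -/
theorem Lam_eq (I : Insertion g e g' e') (h6 : (6 : ℤ) ∣ I.total) (σ : Fin n → Bool)
    (h : (Lam (fPoly g e) : ℝ) = M2.PP e σ + (M2.EE (kap g) e σ).im / Real.sqrt 3)
    (h' : (Lam (fPoly g' e') : ℝ) =
      M2.PP e' (I.lift σ) + (M2.EE (kap g') e' (I.lift σ)).im / Real.sqrt 3) :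
    Lam (fPoly g' e') = Lam (fPoly g e) + if I.par = true then I.total else 0 := by
  rw [I.EE_eq h6, I.PP_eq] at h'
  have h1 : (Lam (fPoly g' e') : ℝ) =
      ((Lam (fPoly g e) + if I.par = true then I.total else 0 : ℤ) : ℝ) := by
    rw [h']
    push_cast at h ⊢
    rw [h]
    ring
  exact_mod_cast h1

end Insertion

end Diagrams

end Pool.Agent.ThA
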