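import Pool.Agent.ThA.L4
import Pool.Agent.ThA.SixMoves

set_option autoImplicit false

/-!
# Theorem A: sequences of 6-moves
-/

namespace Pool.Agent.ThA

open Pool.Agent.GaussJones

/-- A knot diagram: Gauss code and signs of the crossings. -/
structure Diagram where
  /-- the number of crossings -/
  n : ℕ
  /-- the Gauss code -/
  code : Code n
  /-- the signs of the crossings -/
  sign : Fin n → Bool

/-- The polynomial `f` of a diagram. -/
noncomputable def Diagram.f (D : Diagram) : LaurentPolynomial ℤ := fPoly D.code D.sign

/-- `Moves D D' k`: the diagram `D'` is obtained from `D` by a sequence of steps of three kinds: a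
diagram may be replaced by any other one with the same polynomial `f` (diagrams of isotopic knots have
the same `f`), a twist region whose sum of signs is divisible by `6` may be inserted (see `Insertion`),
and such a twist region may be deleted.  The number `k` is the sum of the signs of all the parallel
crossings inserted on the way, minus that of the parallel crossings deleted. -/
inductive Moves (D : Diagram) : Diagram → ℤ → Prop
  | refl : Moves D D 0
  | same (D' D'' : Diagram) (k : ℤ) : Moves D D' k → D''.f = D'.f → Moves D D'' k
  | insert (D' D'' : Diagram) (k : ℤ) (I : Insertion D'.code D'.sign D''.code D''.sign) :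
      Moves D D' k → EvenCode D''.code → (6 : ℤ) ∣ I.total →
      Moves D D'' (k + if I.par = true then I.total else 0)
  | delete (D' D'' : Diagram) (k : ℤ) (I : Insertion D''.code D''.sign D'.code D'.sign) :
      Moves D D' k → EvenCode D'.code → (6 : ℤ) ∣ I.total →
      Moves D D'' (k - if I.par = true then I.total else 0)

/-- one insertion -/
theorem Lam_insertion {n n' : ℕ} {g : Code n} {e : Fin n → Bool} {g' : Code n'}
    {e' : Fin n' → Bool} (hg' : EvenCode g') (I : Insertion g e g' e') (h6 : (6 : ℤ) ∣ I.total) :
    Lam (fPoly g' e') = Lam (fPoly g e) + if I.par = true then I.total else 0 := by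
  have h1 : EvenCode g := I.even_old (I.even_total (by
    obtain ⟨c, hc⟩ := h6
    exact ⟨3 * c, by omega⟩)) hg'
  exact I.Lam_eq h6 (fun _ => true) (Lam_state h1 e _) (Lam_state hg' e' _)

/-- **the law for sequences of moves** -/
theorem Lam_moves {D D' : Diagram} {k : ℤ} (h : Moves D D' k) : Lam D'.f = Lam D.f + k := by
  induction h with
  | refl => rw [add_zero]
  | same D' D'' k _ hf ih => rw [hf, ih]
  | insert D' D'' k I _ hE h6 ih =>
    have h2 := Lam_insertion hE I h6
    unfold Diagram.f at ih ⊢
    rw [h2, ih, add_assoc]
  | delete D' D'' k I _ hE h6 ih =>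
    have h2 := Lam_insertion hE I h6
    unfold Diagram.f at ih ⊢
    rw [ih] at h2
    rw [← add_sub_assoc, h2, add_sub_cancel_right]

end Pool.Agent.ThA
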