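import Pool.Agent.ThA.M4

/-!
# ThA, module M4K: the mean value over the sets of classes which are cut, steps 0, 1, 2

As M4, for functions `Y` with `Y F - 2 ≤ Y (insert c F) ≤ Y F` (knotoids and all Gauss diagrams).
-/

set_option autoImplicit false

namespace Pool.Agent.ThA

open Finset Pool.Agent.ThmA

/-- the mean value of a function with steps in `[0, 2]`, relative to a base set -/
theorem norm_mean_sub_base' {ι : Type*} [DecidableEq ι] (w : ι → ℂ) (hw : ∀ c, ‖w c‖ = 1)
    (X : Finset ι → ℤ)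
    (hX : ∀ F, ∀ c, c ∉ F → X F ≤ X (insert c F) ∧ X (insert c F) ≤ X F + 2) (S0 S : Finset ι)
    (hd : Disjoint S0 S) :
    ‖mean w (S0 ∪ S) (fun F => (X F : ℂ)) - mean w S0 (fun F => (X F : ℂ))‖ ≤
      S.card + (3 ^ (S0.card + S.card) - 3 ^ S0.card) / 2 := by
  induction S using Finset.induction_on with
  | empty => simp
  | insert a S ha ih =>
    have hd' : Disjoint S0 S := Finset.disjoint_of_subset_right (Finset.subset_insert a S) hd
    have ha0 : a ∉ S0 := fun h => (Finset.disjoint_left.1 hd h) (Finset.mem_insert_self a S)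
    have haU : a ∉ S0 ∪ S := fun h => (Finset.mem_union.1 h).elim ha0 ha
    have hc : (S0 ∪ S).card = S0.card + S.card := Finset.card_union_of_disjoint hd'
    rw [Finset.union_insert, mean_insert w (S0 ∪ S) _ haU]
    have hd1 : mean w (S0 ∪ S) (fun F => ((X (insert a F) : ℤ) : ℂ) - (X F : ℂ)) =
        1 + mean w (S0 ∪ S)
          (fun F => ((if a ∈ F then 0 else X (insert a F) - X F - 1 : ℤ) : ℂ)) := by
      rw [← mean_one w (S0 ∪ S)]
      unfold mean
      rw [← Finset.sum_add_distrib]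
      refine Finset.sum_congr rfl fun F hF => ?_
      have haF : a ∉ F := fun h => haU (Finset.mem_powerset.1 hF h)
      beta_reduce
      rw [if_neg haF]
      push_cast
      ring
    have hb : ‖mean w (S0 ∪ S)
        (fun F => ((if a ∈ F then 0 else X (insert a F) - X F - 1 : ℤ) : ℂ))‖ ≤
        3 ^ (S0.card + S.card) := by
      rw [← hc]
      refine norm_mean_le w hw _ _ fun F => ?_
      rw [Complex.norm_intCast]
      have h1 : |(if a ∈ F then 0 else X (insert a F) - X F - 1 : ℤ)| ≤ 1 := by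
        by_cases haF : a ∈ F
        · rw [if_pos haF]
          norm_num
        · rw [if_neg haF]
          obtain ⟨h, h'⟩ := hX F a haF
          rw [abs_le]
          constructor <;> omega
      exact_mod_cast h1
    have h3 : ‖w a * mean w (S0 ∪ S) (fun F => ((X (insert a F) : ℤ) : ℂ) - (X F : ℂ))‖ ≤
        1 + 3 ^ (S0.card + S.card) := by
      rw [norm_mul, hw a, one_mul, hd1]
      refine (norm_add_le _ _).trans ?_
      rw [norm_one]
      exact add_le_add le_rfl hb
    have h4 := ih hd'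
    rw [Finset.card_insert_of_notMem ha, ← Nat.add_assoc, pow_succ]
    push_cast
    calc ‖mean w (S0 ∪ S) (fun F => (X F : ℂ)) +
          w a * mean w (S0 ∪ S) (fun F => ((X (insert a F) : ℤ) : ℂ) - (X F : ℂ)) -
            mean w S0 (fun F => (X F : ℂ))‖
        = ‖(mean w (S0 ∪ S) (fun F => (X F : ℂ)) - mean w S0 (fun F => (X F : ℂ))) +
          w a * mean w (S0 ∪ S) (fun F => ((X (insert a F) : ℤ) : ℂ) - (X F : ℂ))‖ := by
          congr 1
          ring
      _ ≤ (S.card + (3 ^ (S0.card + S.card) - 3 ^ S0.card) / 2) +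
          (1 + 3 ^ (S0.card + S.card)) := (norm_add_le _ _).trans (add_le_add h4 h3)
      _ = (S.card : ℝ) + 1 + (3 ^ (S0.card + S.card) * 3 - 3 ^ S0.card) / 2 := by ring

/-- **M4K.** The bound in terms of a set `S1` and a set `S3` of classes with real weights. -/
theorem im_mcut_le' {m : ℕ} (Z : Fin m → ℂ) (Y : Finset (Fin m) → ℤ) (hZ : ∀ c, ‖Z c‖ = 1)
    (hY : ∀ F, ∀ c, c ∉ F → Y F - 2 ≤ Y (insert c F) ∧ Y (insert c F) ≤ Y F)
    (S1 S3 : Finset (Fin m)) (hd : Disjoint S3 S1) (h3 : ∀ c ∈ S3, (Z c).im = 0)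
    (h1 : ∀ c, c ∉ S1 → c ∉ S3 → Z c = 1) :
    |(mcut Z Y).im| ≤ bnd S1.card (S3.card + S1.card) := by
  set B := S3 ∪ S1 with hBdef
  have hB : ∀ c, c ∉ B → Z c = 1 := fun c hc =>
    h1 c (fun h => hc (Finset.mem_union_right _ h)) fun h => hc (Finset.mem_union_left _ h)
  have h2 := norm_mean_sub_base' Z hZ (fun F => Y (B \ F)) (fun F c hc => by
    by_cases hcB : c ∈ B
    · have h2 : B \ F = insert c (B \ insert c F) := by
        ext x
        simp only [Finset.mem_sdiff, Finset.mem_insert, not_or]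
        constructor
        · rintro ⟨h, h'⟩
          by_cases hx : x = c
          · exact Or.inl hx
          · exact Or.inr ⟨h, hx, h'⟩
        · rintro (h | ⟨h, -, h'⟩)
          · exact h ▸ ⟨hcB, hc⟩
          · exact ⟨h, h'⟩
      have h3 := hY (B \ insert c F) c (fun h => (Finset.mem_sdiff.1 h).2 (Finset.mem_insert_self _ _))
      rw [← h2] at h3
      omega
    · have h4 : B \ insert c F = B \ F := by
        ext x
        simp only [Finset.mem_sdiff, Finset.mem_insert, not_or]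
        constructor
        · rintro ⟨h, -, h'⟩
          exact ⟨h, h'⟩
        · rintro ⟨h, h'⟩
          exact ⟨h, fun hx => hcB (hx ▸ h), h'⟩
      rw [h4]
      omega) S3 S1 hd
  have h4 : (mcut Z Y).im = (mean Z (S3 ∪ S1) (fun F => ((Y (B \ F) : ℤ) : ℂ)) -
      mean Z S3 (fun F => ((Y (B \ F) : ℤ) : ℂ))).im := by
    rw [mcut_eq_mean Z Y B hB, Complex.sub_im,
      mean_im_zero Z S3 h3 (fun F => Y (B \ F)), sub_zero]
  rw [h4]
  refine (Complex.abs_im_le_norm _).trans (h2.trans ?_)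
  unfold bnd
  rw [Nat.add_sub_cancel]

/-- **M4K.** The bound for `Z c = exp (- i π a_c / 3)` with integers `a_c`. -/
theorem im_mcut_exp_le' {m : ℕ} (a : Fin m → ℤ) (Y : Finset (Fin m) → ℤ)
    (hY : ∀ F, ∀ c, c ∉ F → Y F - 2 ≤ Y (insert c F) ∧ Y (insert c F) ≤ Y F) :
    |(mcut (fun c => Complex.exp (-(Real.pi : ℂ) * Complex.I * (a c : ℂ) / 3)) Y).im| ≤
      bnd (Nat.card {c : Fin m // ¬ (3 : ℤ) ∣ a c}) (Nat.card {c : Fin m // ¬ (6 : ℤ) ∣ a c}) := by
  classical
  set S1 : Finset (Fin m) := univ.filter fun c => ¬ (3 : ℤ) ∣ a c with hS1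
  set S3 : Finset (Fin m) := univ.filter fun c => (3 : ℤ) ∣ a c ∧ ¬ (6 : ℤ) ∣ a c with hS3
  have hd : Disjoint S3 S1 := by
    rw [Finset.disjoint_left]
    intro c h h'
    exact (Finset.mem_filter.1 h').2 (Finset.mem_filter.1 h).2.1
  have h1 := im_mcut_le' (fun c => Complex.exp (-(Real.pi : ℂ) * Complex.I * (a c : ℂ) / 3)) Y
    (fun c => norm_exp_eq (a c)) hY S1 S3 hd
    (fun c hc => exp_im_zero (a c) (Finset.mem_filter.1 hc).2.1)
    (fun c hc hc' => by
      refine (exp_eq_one_iff (a c)).2 ?_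
      by_contra h6
      by_cases h3 : (3 : ℤ) ∣ a c
      · exact hc' (Finset.mem_filter.2 ⟨Finset.mem_univ _, h3, h6⟩)
      · exact hc (Finset.mem_filter.2 ⟨Finset.mem_univ _, h3⟩))
  have h2 : Nat.card {c : Fin m // ¬ (3 : ℤ) ∣ a c} = S1.card := by
    rw [Nat.card_eq_fintype_card, Fintype.card_subtype]
  have h3 : Nat.card {c : Fin m // ¬ (6 : ℤ) ∣ a c} = S3.card + S1.card := by
    rw [Nat.card_eq_fintype_card, Fintype.card_subtype, ← Finset.card_union_of_disjoint hd]
    congr 1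
    ext c
    simp only [hS1, hS3, Finset.mem_union, Finset.mem_filter, Finset.mem_univ, true_and]
    constructor
    · intro h
      by_cases h3 : (3 : ℤ) ∣ a c
      · exact Or.inl ⟨h3, h⟩
      · exact Or.inr h3
    · rintro (h | h)
      · exact h.2
      · intro h6
        exact h (dvd_trans (by norm_num) h6)
  rw [h2, h3]
  exact h1

/-- **M4K.** The bound for `Z c = exp (i π a_c / 3)` with integers `a_c`. -/
theorem im_mcut_exp_le'' {m : ℕ} (a : Fin m → ℤ) (Y : Finset (Fin m) → ℤ)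
    (hY : ∀ F, ∀ c, c ∉ F → Y F - 2 ≤ Y (insert c F) ∧ Y (insert c F) ≤ Y F) :
    |(mcut (fun c => Complex.exp ((Real.pi : ℂ) * Complex.I * (a c : ℂ) / 3)) Y).im| ≤
      bnd (Nat.card {c : Fin m // ¬ (3 : ℤ) ∣ a c}) (Nat.card {c : Fin m // ¬ (6 : ℤ) ∣ a c}) := by
  have h := im_mcut_exp_le' (fun c => -a c) Y hY
  have h1 : (fun c => Complex.exp (-(Real.pi : ℂ) * Complex.I * ((-a c : ℤ) : ℂ) / 3)) =
      fun c => Complex.exp ((Real.pi : ℂ) * Complex.I * (a c : ℂ) / 3) := by
    funext c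
    congr 1
    push_cast
    ring
  rw [h1] at h
  have h2 : ∀ k : ℤ, Nat.card {c : Fin m // ¬ k ∣ -a c} = Nat.card {c : Fin m // ¬ k ∣ a c} :=
    fun k => Nat.card_congr (Equiv.subtypeEquivRight fun c => by rw [Int.dvd_neg])
  rwa [h2, h2] at h

/-- the comparison of two normalized values, with the other sign of the second term -/
theorem compare_im' {μ μ' : ℤ} {E E' : ℂ} {c c' : ℝ}
    (h : -6 * (μ : ℂ) - 2 * Complex.I * (Real.sqrt 3 : ℂ) * E =
      -6 * (μ' : ℂ) - 2 * Complex.I * (Real.sqrt 3 : ℂ) * E')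
    (hE : |E.im| ≤ c) (hE' : |E'.im| ≤ c') : Real.sqrt 3 * |(μ : ℝ) - μ'| ≤ c + c' := by
  refine compare_im (E := -E) (E' := -E') ?_ ?_ ?_
  · linear_combination h
  · rw [Complex.neg_im, abs_neg]
    exact hE
  · rw [Complex.neg_im, abs_neg]
    exact hE'

end Pool.Agent.ThA
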