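import Pool.Agent.ThA.Asm

/-!
# Theorem A without evenness: open diagrams and all Gauss diagrams
-/

set_option autoImplicit false

open Module

namespace Pool.Agent.ThA

open Pool.Agent.GaussJones Pool.Agent.Helper16.Knotoid Pool.Agent.UNI

section Flip

variable {ι κ : Type*} [Fintype ι] [DecidableEq ι]

/-- flipping a diagonal entry of any matrix changes the corank by at most one -/
theorem flip_le (N : Matrix ι ι (ZMod 2)) (c : ι) :
    finrank (ZMod 2) (kerM (flip N c)) ≤ finrank (ZMod 2) (kerM N) + 1 ∧
      finrank (ZMod 2) (kerM N) ≤ finrank (ZMod 2) (kerM (flip N c)) + 1 := by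
  have k1 := finrank_kerM N c
  have k2 := finrank_kerM (flip N c) c
  rw [ker0_flip] at k2
  rcases k1 with ⟨a1, -⟩ | ⟨a1, -⟩ <;> rcases k2 with ⟨a2, -⟩ | ⟨a2, -⟩ <;> omega

/-- cutting one more crossing changes the cut function by `0`, `-1` or `-2` -/
theorem ee_insert3 (M : Matrix ι ι (ZMod 2)) (W : Finset ι) (c : ι) (hc : c ∉ W) :
    ee M (insert c W) = ee M W ∨ ee M (insert c W) = ee M W - 1 ∨
      ee M (insert c W) = ee M W - 2 := by
  have h := flip_le (NW M (insert c W)) c
  rw [← NW_insert M W c hc] at h
  unfold ee kk
  rw [Finset.card_insert_of_notMem hc]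
  push_cast
  omega

variable [DecidableEq κ]

/-- cutting one more class changes the cut function by `0`, `-1` or `-2` -/
theorem YY_step3 (M : Matrix ι ι (ZMod 2)) (hM : ∀ a b, M a b = M b a) (cls : ι → κ)
    (hcl : ∀ i j k, cls i = cls j → M i k = M j k) (F : Finset κ) (c : κ) :
    YY M cls (insert c F) = YY M cls F ∨ YY M cls (insert c F) = YY M cls F - 1 ∨
      YY M cls (insert c F) = YY M cls F - 2 := by
  by_cases hcF : c ∈ F
  · rw [Finset.insert_eq_of_mem hcF]
    exact Or.inl rfl
  by_cases h : ∃ i, cls i = c
  · obtain ⟨i, hi⟩ := h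
    have hiF : i ∉ un cls F := by
      unfold un
      rw [Finset.mem_filter]
      exact fun h' => hcF (hi ▸ h'.2)
    have h1 : YY M cls (insert c F) = ee M (insert i (un cls F)) := by
      rw [ee_eq_YY M hM cls hcl (insert i (un cls F))]
      unfold YY
      have h2 : un cls (insert c F) = un cls ((insert i (un cls F)).image cls) := by
        ext j
        unfold un
        rw [Finset.mem_filter, Finset.mem_filter, Finset.mem_insert, Finset.mem_image]
        constructor
        · rintro ⟨h3, h4⟩
          refine ⟨h3, ?_⟩
          rcases h4 with h4 | h4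
          · exact ⟨i, Finset.mem_insert_self _ _, hi.trans h4.symm⟩
          · refine ⟨j, Finset.mem_insert_of_mem ?_, rfl⟩
            rw [Finset.mem_filter]
            exact ⟨h3, h4⟩
        · rintro ⟨h3, k, h4, h5⟩
          refine ⟨h3, ?_⟩
          rw [Finset.mem_insert, Finset.mem_filter] at h4
          rcases h4 with h4 | h4
          · left
            rw [← h5, h4, hi]
          · right
            rw [← h5]
            exact h4.2
      rw [h2]
    rw [h1]
    exact ee_insert3 M (un cls F) i hiF
  · left
    have h1 : un cls (insert c F) = un cls F := by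
      ext j
      unfold un
      rw [Finset.mem_filter, Finset.mem_filter, Finset.mem_insert]
      constructor
      · rintro ⟨h2, h3 | h3⟩
        · exact absurd ⟨j, h3⟩ h
        · exact ⟨h2, h3⟩
      · rintro ⟨h2, h3⟩
        exact ⟨h2, Or.inr h3⟩
    unfold YY
    rw [h1]

end Flip

section Diagrams

variable {n m : ℕ} (D : GaussDiagram n)

theorem interlaced_pos (i j : Fin n) : GaussJones.Interlaced D.pos i j ↔ D.Interlaced i j :=
  interlaced_iff D.pos D.sign i j

/-- the matrix of a state -/
theorem gmat_eq (s : Fin n → Bool) :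
    D.gmat s = LL D.pos + Matrix.diagonal fun i => if s i = D.sign i then (0 : ZMod 2) else 1 := by
  ext i j
  rw [Matrix.add_apply]
  by_cases hij : i = j
  · subst hij
    rw [Matrix.diagonal_apply_eq, GaussDiagram.gmat_self, LL_self, zero_add]
  · rw [Matrix.diagonal_apply_ne _ hij, add_zero]
    apply zmod2_ext
    rw [← cut_iff]
    unfold LL GaussDiagram.Cut
    rw [← interlaced_pos]
    simp [hij]

/-- the crossings at which the smoothing is cutting -/
def cutSetD (C : TwistClasses D.pos m) (s : Fin n → Bool) : Finset (Fin n) :=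
  cutSet C fun i => s i == D.sign i

theorem mem_cutSetD (C : TwistClasses D.pos m) (s : Fin n → Bool) (i : Fin n) :
    i ∈ cutSetD D C s ↔ (s i == D.sign i) = cutting C i := mem_cutSet C _ i

/-- **the number of components of a state** -/
theorem comps_eq_kk (C : TwistClasses D.pos m) (s : Fin n → Bool) :
    D.comps s = 1 + kk (MM C) (cutSetD D C s) := by
  rw [D.comps_eq, gmat_eq]
  unfold MM
  rw [kk_diagonal]
  have h : (fun i => if s i = D.sign i then (0 : ZMod 2) else 1) =
      fun i => pp C i + if i ∈ cutSetD D C s then (0 : ZMod 2) else 1 := by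
    funext i
    rw [if_congr (mem_cutSetD D C s i) rfl rfl]
    unfold pp cutting
    cases C.par (C.cls i) <;> cases s i <;> cases D.sign i <;> decide
  rw [h]

/-- one switch changes the number of components by at most one -/
theorem comps_switch (s : Fin n → Bool) (c : Fin n) :
    D.comps (Function.update s c (!(s c))) ≤ D.comps s + 1 ∧
      D.comps s ≤ D.comps (Function.update s c (!(s c))) + 1 := by
  have h1 : D.gmat (Function.update s c (!(s c))) = flip (D.gmat s) c := by
    ext i j
    unfold flip
    rw [gmat_eq, gmat_eq, Matrix.add_apply, Matrix.add_apply, add_assoc]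
    congr 1
    by_cases hij : i = j
    · subst hij
      rw [Matrix.diagonal_apply_eq, Matrix.diagonal_apply_eq]
      by_cases hc : i = c
      · subst hc
        have h3 : i = i ∧ i = i := ⟨rfl, rfl⟩
        rw [Function.update_self, if_pos h3]
        cases s i <;> cases D.sign i <;> decide
      · have h3 : ¬ (i = c ∧ i = c) := fun h => hc h.1
        rw [Function.update_of_ne hc, if_neg h3, add_zero]
    · rw [Matrix.diagonal_apply_ne _ hij, Matrix.diagonal_apply_ne _ hij, zero_add,
        if_neg (fun h => hij (h.1.trans h.2.symm))]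
  have h2 := flip_le (D.gmat s) c
  unfold kerM at h2
  rw [D.comps_eq, D.comps_eq, h1]
  exact ⟨by omega, by omega⟩

/-- the excess of a state in terms of the classes of the crossings which are cut -/
theorem excess_eq (C : TwistClasses D.pos m) (s : Fin n → Bool) :
    ((D.comps s - 1 : ℕ) : ℤ) - (cutSetD D C s).card =
      YY (MM C) C.cls ((cutSetD D C s).image C.cls) := by
  rw [← ee_eq_YY (MM C) (MM_symm C) C.cls (MM_cls C), comps_eq_kk D C s, Nat.add_sub_cancel_left]
  rfl

end Diagrams

end Pool.Agent.ThA
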