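import Pool.Agent.ThA.M2K
import Pool.Agent.ThA.M4K
import Pool.Agent.ThA.Open
import Pool.Agent.ThA.SixMoves

/-!
# Theorem A without evenness, for the number `LamK`
-/

set_option autoImplicit false

open Module

namespace Pool.Agent.ThA

open Pool.Agent.GaussJones

variable {n : ℕ} {g : Code n} {m : ℕ}

/-- **the bound**, no evenness -/
theorem im_EE_leK (C : TwistClasses g m) (e : Fin n → Bool) :
    |(M2.EE (kap g) e (cutting C)).im| ≤ bnd (C.num e 3) (C.num e 6) := by
  have h1 := im_mcut_exp_le' (fun c => if C.par c = true then C.length e c else -C.length e c)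
    (YY (MM C) C.cls) (fun F c _ => by
      rcases YY_step3 (MM C) (MM_symm C) C.cls (MM_cls C) F c with h | h | h <;>
        exact ⟨by omega, by omega⟩)
  have h2 : (fun c => Complex.exp (-(Real.pi : ℂ) * Complex.I *
      (((if C.par c = true then C.length e c else -C.length e c : ℤ)) : ℂ) / 3)) =
      ZZ C.cls (zz C e) := funext fun c => (ZZ_exp C e c).symm
  rw [h2, ← EE_eq] at h1
  have h3 : ∀ k : ℤ, Nat.card {c : Fin m // ¬ k ∣ (fun c => if C.par c = true then C.length e c
      else -C.length e c) c} = C.num e k := by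
    intro k
    unfold TwistClasses.num
    apply Nat.card_congr
    refine Equiv.subtypeEquivRight fun c => ?_
    beta_reduce
    split_ifs
    · rfl
    · rw [Int.dvd_neg]
  rwa [h3, h3] at h1

/-- the statement that all exponents are even -/
def EvenExp (P : LaurentPolynomial ℤ) : Prop := ∀ k, P.coeff k ≠ 0 → (2 : ℤ) ∣ k

/-- `Λ = LamK / 12` in terms of the states -/
theorem LamK_state' {g : Code n} (e σ : Fin n → Bool) (h : EvenExp (fPoly g e)) :
    (LamK (fPoly g e) : ℝ) / 12 = M2.PP e σ + (M2.EE (kap g) e σ).im / Real.sqrt 3 :=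
  LamK_fsum (kap g) e h σ

/-- **Theorem A for all codes** -/
theorem LamK_bound' (C : TwistClasses g m) (e : Fin n → Bool) (h : EvenExp (fPoly g e)) :
    Real.sqrt 3 * |(LamK (fPoly g e) : ℝ) / 12 - C.mu e| ≤ bnd (C.num e 3) (C.num e 6) := by
  have h4 : 0 < Real.sqrt 3 := Real.sqrt_pos.2 (by norm_num)
  rw [LamK_state' e (cutting C) h, PP_eq, add_sub_cancel_left, abs_div, abs_of_pos h4,
    mul_div_cancel₀ _ h4.ne']
  exact im_EE_leK C e

namespace Insertion

variable {n' : ℕ} {e : Fin n → Bool} {g' : Code n'} {e' : Fin n' → Bool}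

/-- **the 6-move law for all codes** -/
theorem LamK_eq' (I : Insertion g e g' e') (h6 : (6 : ℤ) ∣ I.total)
    (h : EvenExp (fPoly g e)) (h' : EvenExp (fPoly g' e')) :
    LamK (fPoly g' e') = LamK (fPoly g e) + 12 * if I.par = true then I.total else 0 := by
  have h1 := LamK_state' e (fun _ => true) h
  have h2 := LamK_state' e' (I.lift fun _ => true) h'
  rw [I.EE_eq h6, I.PP_eq] at h2
  have h3 : (LamK (fPoly g' e') : ℝ) =
      ((LamK (fPoly g e) + 12 * (if I.par = true then I.total else 0) : ℤ) : ℝ) := by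
    push_cast at h1 h2 ⊢
    linear_combination 12 * h2 - 12 * h1
  exact_mod_cast h3

end Insertion

end Pool.Agent.ThA
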