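import Pool.Agent.ThA.M2

/-!
# Theorem A, module B1: the derivative of the f-polynomial and the crossing changes

At every point `A = exp (x i)` with `d = -A² - A⁻² ≠ 0` and `A⁸ ≠ 1`.
-/

set_option autoImplicit false

open Complex LaurentPolynomial

namespace Pool.Agent.ThA.B1

open Pool.Agent.ThA.M2

variable {n : ℕ}

/-- the point `A` -/
noncomputable def pt (x : ℝ) : ℂ := exp (x * I)

theorem pt_ne (x : ℝ) : pt x ≠ 0 := exp_ne_zero _

/-- the variable of the circles -/
noncomputable def dd (x : ℝ) : ℂ := -(pt x ^ 2 + (pt x)⁻¹ ^ 2)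

/-- the logarithmic derivative of `d` -/
noncomputable def dl (x : ℝ) : ℂ := 2 * (pt x ^ 2 - (pt x)⁻¹ ^ 2) / (pt x ^ 2 + (pt x)⁻¹ ^ 2)

theorem ev_T' (x : ℝ) (k : ℤ) : ev x (T k) = pt x ^ k := ev_T_zpow x k

theorem ev_dd (x : ℝ) : ev x (-(T 2 + T (-2))) = dd x := by
  rw [map_neg, map_add, ev_T', ev_T']
  unfold dd
  rw [zpow_neg, inv_pow]
  norm_cast

theorem hasDerivAt_dd (x : ℝ) (hd : dd x ≠ 0) :
    HasDerivAt (fun x : ℝ => ev x (-(T 2 + T (-2)))) (I * (dl x * dd x)) x := by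
  have h1 := ((hasDerivAt_ev_T 2 x).fun_add (hasDerivAt_ev_T (-2) x)).fun_neg
  have h2 : (fun x : ℝ => ev x (-(T 2 + T (-2)))) = fun x : ℝ => -(ev x (T 2) + ev x (T (-2))) := by
    funext x
    rw [map_neg, map_add]
  rw [h2]
  refine h1.congr_deriv ?_
  rw [ev_T', ev_T', zpow_neg, ← inv_zpow]
  have e1 : pt x ^ (2 : ℤ) = pt x ^ 2 := by norm_cast
  have e2 : (pt x)⁻¹ ^ (2 : ℤ) = (pt x)⁻¹ ^ 2 := by norm_cast
  rw [e1, e2]
  unfold dl dd at *
  have h3 : pt x ^ 2 + (pt x)⁻¹ ^ 2 ≠ 0 := fun h => hd (by rw [h, neg_zero])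
  rw [div_mul_eq_mul_div, mul_neg, neg_div, mul_div_cancel_right₀ _ h3]
  push_cast
  ring

theorem hasDerivAt_term' (x : ℝ) (hd : dd x ≠ 0) (m : ℤ) (k : ℕ) :
    HasDerivAt (fun x : ℝ => ev x (T m * (-(T 2 + T (-2))) ^ k))
      (I * ((m + dl x * k) * (pt x ^ m * dd x ^ k))) x := by
  have h1 := (hasDerivAt_ev_T m x).fun_mul ((hasDerivAt_dd x hd).fun_pow k)
  have h2 : (fun x : ℝ => ev x (T m * (-(T 2 + T (-2))) ^ k)) =
      fun x : ℝ => ev x (T m) * (ev x (-(T 2 + T (-2)))) ^ k := by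
    funext x
    rw [map_mul, map_pow]
  rw [h2]
  refine h1.congr_deriv ?_
  rw [ev_dd, ev_T']
  cases k with
  | zero =>
    push_cast
    ring
  | succ k =>
    rw [Nat.add_sub_cancel, pow_succ]
    push_cast
    ring

/-- the term of the state `s` -/
noncomputable def term (x : ℝ) (κ : (Fin n → Bool) → ℕ) (e s : Fin n → Bool) : ℂ :=
  (∏ i, (if e i = true then -(pt x)⁻¹ ^ 3 else -pt x ^ 3) *
    (if s i = e i then pt x else (pt x)⁻¹)) * dd x ^ κ s

theorem term_eq (x : ℝ) (κ : (Fin n → Bool) → ℕ) (e s : Fin n → Bool) :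
    (-1) ^ n * pt x ^ (-3 * ∑ i, sgn e i) *
      (pt x ^ (∑ c, if s c = e c then (1 : ℤ) else -1) * dd x ^ κ s) = term x κ e s := by
  have h1 : ((-1 : ℂ) ^ n) = ∏ _i : Fin n, (-1 : ℂ) := by
    rw [Finset.prod_const, Finset.card_univ, Fintype.card_fin]
  unfold term
  rw [← mul_assoc, h1, Finset.mul_sum, zpow_sum _ _ (pt_ne x), zpow_sum _ _ (pt_ne x),
    ← Finset.prod_mul_distrib, ← Finset.prod_mul_distrib]
  congr 1
  refine Finset.prod_congr rfl fun c _ => ?_
  have e1 : pt x ^ (3 : ℤ) = pt x ^ 3 := by norm_cast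
  congr 1
  · unfold sgn
    cases e c
    · simp only [Bool.false_eq_true, if_false, mul_neg, mul_one, neg_neg]
      rw [e1]
      ring
    · simp only [if_true, mul_one]
      rw [zpow_neg, e1]
      ring
  · split_ifs
    · rw [_root_.zpow_one]
    · rw [_root_.zpow_neg_one]

theorem ev_fsum (x : ℝ) (κ : (Fin n → Bool) → ℕ) (e : Fin n → Bool) :
    ev x (fsum κ e) = ∑ s, term x κ e s := by
  rw [fsum_eq, map_mul, map_mul, map_pow, map_neg, map_one, map_sum, ev_T', Finset.mul_sum]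
  refine Finset.sum_congr rfl fun s _ => ?_
  rw [map_mul, map_pow, ev_dd, ev_T', term_eq]

theorem hasDerivAt_fsum (x : ℝ) (hd : dd x ≠ 0) (κ : (Fin n → Bool) → ℕ) (e : Fin n → Bool) :
    HasDerivAt (fun x : ℝ => ev x (fsum κ e)) (I * ∑ s, (((-3 * ∑ i, sgn e i : ℤ) : ℂ) +
      (((∑ c, if s c = e c then (1 : ℤ) else -1 : ℤ) : ℂ) + dl x * κ s)) * term x κ e s) x := by
  have h4 : HasDerivAt (fun x : ℝ => ∑ s : Fin n → Bool,
        ev x (T (∑ c, if s c = e c then (1 : ℤ) else -1) * (-(T 2 + T (-2))) ^ κ s))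
      (∑ s : Fin n → Bool, I * ((((∑ c, if s c = e c then (1 : ℤ) else -1 : ℤ) : ℂ) +
        dl x * κ s) * (pt x ^ (∑ c, if s c = e c then (1 : ℤ) else -1) * dd x ^ κ s))) x :=
    HasDerivAt.fun_sum fun s _ =>
      hasDerivAt_term' x hd (∑ c, if s c = e c then (1 : ℤ) else -1) (κ s)
  have h5 := (((hasDerivAt_ev_T (-3 * ∑ i, sgn e i) x).fun_mul h4).const_mul ((-1 : ℂ) ^ n))
  have h6 : (fun x : ℝ => ev x (fsum κ e)) = fun x : ℝ =>
      (-1 : ℂ) ^ n * (ev x (T (-3 * ∑ i, sgn e i)) * ∑ s : Fin n → Bool,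
        ev x (T (∑ c, if s c = e c then (1 : ℤ) else -1) * (-(T 2 + T (-2))) ^ κ s)) := by
    funext x
    rw [fsum_eq, map_mul, map_mul, map_pow, map_neg, map_one, map_sum, mul_assoc]
  rw [h6]
  refine h5.congr_deriv ?_
  refine aux _ _ _ _ _ _ _ fun s => ?_
  rw [map_mul, map_pow, ev_dd, ev_T', ev_T', ← term_eq]
  ring

/-! ### Crossing changes -/

/-- the diagram with the crossing `i` changed -/
def chg (e : Fin n → Bool) (i : Fin n) : Fin n → Bool := Function.update e i (!(e i))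

theorem term_chg (x : ℝ) (κ : (Fin n → Bool) → ℕ) (e s : Fin n → Bool) (i : Fin n) :
    term x κ (chg e i) s = ((if e i = true then pt x ^ 6 else (pt x)⁻¹ ^ 6) *
      (if s i = e i then (pt x)⁻¹ ^ 2 else pt x ^ 2)) * term x κ e s := by
  unfold term
  rw [← mul_assoc]
  congr 1
  rw [← Finset.mul_prod_erase Finset.univ _ (Finset.mem_univ i),
    ← Finset.mul_prod_erase Finset.univ (fun i => (if e i = true then -(pt x)⁻¹ ^ 3
      else -pt x ^ 3) * (if s i = e i then pt x else (pt x)⁻¹)) (Finset.mem_univ i), ← mul_assoc]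
  have h0 := pt_ne x
  congr 1
  · unfold chg
    rw [Function.update_self]
    cases he : e i <;> cases hs : s i
    · simp only [Bool.not_false, if_true, Bool.false_eq_true, if_false]
      field_simp
    · simp only [Bool.not_false, if_true, Bool.false_eq_true, Bool.true_eq_false, if_false]
      field_simp
    · simp only [Bool.not_true, if_true, Bool.false_eq_true, if_false]
      field_simp
    · simp only [Bool.not_true, if_true, Bool.false_eq_true, Bool.true_eq_false, if_false]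
      field_simp
  · refine Finset.prod_congr rfl fun d hd => ?_
    unfold chg
    rw [Function.update_of_ne (Finset.ne_of_mem_erase hd)]

/-- the orientation sign of the crossing relative to the state `σ` -/
def eps (e σ : Fin n → Bool) (i : Fin n) : ℤ := if σ i = true then -sgn e i else sgn e i

/-- the effect of the change of the crossing `i` -/
noncomputable def beta (x : ℝ) (κ : (Fin n → Bool) → ℕ) (e σ : Fin n → Bool) (i : Fin n) : ℂ :=
  (ev x (fsum κ e) - (if σ i = true then 1 else pt x ^ (-12 * eps e σ i)) *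
    ev x (fsum κ (chg e i))) / (1 - pt x ^ (-8 * eps e σ i))

theorem crossing (x : ℝ) (hd : dd x ≠ 0) (h8 : pt x ^ 8 ≠ 1) (κ : (Fin n → Bool) → ℕ)
    (e σ : Fin n → Bool) (i : Fin n) :
    ∑ s, (-3 * (sgn e i : ℂ) + (if s i = e i then 1 else -1) +
      dl x * (if s i = σ i then 1 else 0)) * term x κ e s =
    -6 * ((if σ i = true then 0 else sgn e i : ℤ) : ℂ) * ev x (fsum κ e) +
      4 * (eps e σ i : ℂ) * beta x κ e σ i := by
  set U := ∑ s, (if s i = e i then (1 : ℂ) else 0) * term x κ e s with hU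
  set V := ∑ s, (if s i = e i then (0 : ℂ) else 1) * term x κ e s with hV
  have hF : ev x (fsum κ e) = U + V := by
    rw [ev_fsum, hU, hV, ← Finset.sum_add_distrib]
    refine Finset.sum_congr rfl fun s _ => ?_
    split_ifs <;> ring
  have hFi : ev x (fsum κ (chg e i)) = (if e i = true then pt x ^ 6 else (pt x)⁻¹ ^ 6) *
      ((pt x)⁻¹ ^ 2 * U + pt x ^ 2 * V) := by
    rw [ev_fsum, hU, hV, Finset.mul_sum, Finset.mul_sum, ← Finset.sum_add_distrib, Finset.mul_sum]
    refine Finset.sum_congr rfl fun s _ => ?_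
    rw [term_chg]
    split_ifs <;> ring
  have hL : ∑ s, (-3 * (sgn e i : ℂ) + (if s i = e i then 1 else -1) +
      dl x * (if s i = σ i then 1 else 0)) * term x κ e s =
      (-3 * (sgn e i : ℂ) + 1 + dl x * (if e i = σ i then 1 else 0)) * U +
      (-3 * (sgn e i : ℂ) - 1 + dl x * (if e i = σ i then 0 else 1)) * V := by
    rw [hU, hV, Finset.mul_sum, Finset.mul_sum, ← Finset.sum_add_distrib]
    refine Finset.sum_congr rfl fun s _ => ?_
    cases h1 : e i <;> cases h2 : s i <;> cases h3 : σ i <;>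
      simp only [Bool.false_eq_true, Bool.true_eq_false, if_true, if_false] <;> ring
  have h0 := pt_ne x
  have hd' : pt x ^ 4 + 1 ≠ 0 := by
    intro h
    apply hd
    unfold dd
    field_simp
    rw [h]
    ring
  have h8' : pt x ^ 8 - 1 ≠ 0 := sub_ne_zero.2 h8
  have h8'' : 1 - pt x ^ 8 ≠ 0 := sub_ne_zero.2 (Ne.symm h8)
  have hdl : dl x = 2 * (pt x ^ 4 - 1) / (pt x ^ 4 + 1) := by
    unfold dl
    have h9 : pt x ^ 2 + (pt x)⁻¹ ^ 2 ≠ 0 := fun h => hd (by unfold dd; rw [h, neg_zero])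
    rw [div_eq_div_iff h9 hd']
    field_simp
  rw [hL, hF]
  unfold beta eps sgn
  rw [hF, hFi, hdl]
  have z8 : pt x ^ (8 : ℤ) = pt x ^ 8 := by norm_cast
  have z12 : pt x ^ (12 : ℤ) = pt x ^ 12 := by norm_cast
  cases h1 : e i <;> cases h3 : σ i
  · simp only [Bool.false_eq_true, if_true, if_false, mul_neg, mul_one, neg_neg, z8, z12]
    push_cast
    field_simp
    ring
  · simp only [Bool.false_eq_true, if_true, if_false, mul_one, neg_neg, z8, z12,
      zpow_neg]
    push_cast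
    field_simp
    ring
  · simp only [Bool.false_eq_true, if_true, if_false, mul_one, z8, z12,
      Bool.true_eq_false, zpow_neg]
    push_cast
    field_simp
    ring
  · simp only [if_true, mul_neg, mul_one, neg_neg, z8, z12]
    push_cast
    field_simp
    ring

/-- **the derivative of the f-polynomial in terms of the crossing changes** -/
theorem main (x : ℝ) (hd : dd x ≠ 0) (h8 : pt x ^ 8 ≠ 1) (κ : (Fin n → Bool) → ℕ)
    (e σ : Fin n → Bool) :
    HasDerivAt (fun x : ℝ => ev x (fsum κ e)) (I * (-6 * (PP e σ : ℂ) * ev x (fsum κ e) +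
      4 * ∑ i, (eps e σ i : ℂ) * beta x κ e σ i +
      dl x * ∑ s, ((κ s : ℂ) - ∑ c, if s c = σ c then 1 else 0) * term x κ e s)) x := by
  refine (hasDerivAt_fsum x hd κ e).congr_deriv ?_
  congr 1
  have h1 : ((PP e σ : ℤ) : ℂ) = ∑ c, ((if σ c = true then 0 else sgn e c : ℤ) : ℂ) := by
    unfold PP
    push_cast
    rfl
  have h2 : ∀ i, -6 * ((if σ i = true then 0 else sgn e i : ℤ) : ℂ) * ev x (fsum κ e) +
      4 * ((eps e σ i : ℂ) * beta x κ e σ i) =
      ∑ s, (-3 * (sgn e i : ℂ) + (if s i = e i then 1 else -1) +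
        dl x * (if s i = σ i then 1 else 0)) * term x κ e s := by
    intro i
    rw [crossing x hd h8]
    ring
  have h3 : -6 * (PP e σ : ℂ) * ev x (fsum κ e) + 4 * ∑ i, (eps e σ i : ℂ) * beta x κ e σ i =
      ∑ s, ∑ i, (-3 * (sgn e i : ℂ) + (if s i = e i then 1 else -1) +
        dl x * (if s i = σ i then 1 else 0)) * term x κ e s := by
    rw [h1, Finset.mul_sum, Finset.sum_mul, Finset.mul_sum, ← Finset.sum_add_distrib,
      Finset.sum_congr rfl fun i _ => h2 i, Finset.sum_comm]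
  have h4 : dl x * ∑ s, ((κ s : ℂ) - ∑ c, if s c = σ c then 1 else 0) * term x κ e s =
      ∑ s, dl x * (((κ s : ℂ) - ∑ c, if s c = σ c then 1 else 0) * term x κ e s) :=
    Finset.mul_sum _ _ _
  rw [h3, h4, ← Finset.sum_add_distrib]
  refine Finset.sum_congr rfl fun s _ => ?_
  rw [← Finset.sum_mul, ← mul_assoc, ← add_mul, Finset.sum_add_distrib, Finset.sum_add_distrib,
    ← Finset.mul_sum, ← Finset.mul_sum]
  congr 1
  have h5 : ((-3 * ∑ i, sgn e i : ℤ) : ℂ) = -3 * ∑ i, (sgn e i : ℂ) := by push_cast; rfl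
  have h6 : ((∑ c, if s c = e c then (1 : ℤ) else -1 : ℤ) : ℂ) =
      ∑ c, if s c = e c then (1 : ℂ) else -1 := by push_cast; rfl
  rw [h5, h6]
  ring

end Pool.Agent.ThA.B1
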