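import Mathlib
import Pool.Agent.ThA.Defs

/-!
# ThA, module B2: the crossing change formula for the part of the state sum with a crossing cut

`κ s` stands for the number of loops of the state `s` minus one.
-/

set_option autoImplicit false

namespace Pool.Agent.ThA.B2

variable {n : ℕ}

/-- the value of `-A⁻³` to the power of the sum of the signs -/
noncomputable def nrm (e : Fin n → Bool) (A : ℂ) : ℂ :=
  ∏ i, if e i = true then -A ^ (-3 : ℤ) else -A ^ (3 : ℤ)

/-- the term of the state `s` in the state sum -/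
noncomputable def term (κ : (Fin n → Bool) → ℕ) (e : Fin n → Bool) (A : ℂ) (s : Fin n → Bool) : ℂ :=
  (∏ i, if s i = e i then A ^ (1 : ℤ) else A ^ (-1 : ℤ)) *
    (-(A ^ (2 : ℤ) + A ^ (-2 : ℤ))) ^ κ s

/-- the value of the normalised polynomial at `A` -/
noncomputable def fval (κ : (Fin n → Bool) → ℕ) (e : Fin n → Bool) (A : ℂ) : ℂ :=
  nrm e A * ∑ s, term κ e A s

/-- the part of the normalised state sum given by the states with value `b` at the crossing `c` -/
noncomputable def part (κ : (Fin n → Bool) → ℕ) (e : Fin n → Bool) (c : Fin n) (b : Bool) (A : ℂ) :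
    ℂ :=
  nrm e A * ∑ s ∈ Finset.univ.filter (fun s : Fin n → Bool => s c = b), term κ e A s

/-- `ε` of a crossing with cut smoothing `b`: the weight of the smoothing `b` is `A ^ (-ε)` -/
def eps (e : Fin n → Bool) (c : Fin n) (b : Bool) : ℤ := if b = e c then -1 else 1

/-- the other factors of the normalisation -/
noncomputable def nrm' (e : Fin n → Bool) (c : Fin n) (A : ℂ) : ℂ :=
  ∏ i ∈ Finset.univ.erase c, if e i = true then -A ^ (-3 : ℤ) else -A ^ (3 : ℤ)

/-- the sum over the states with value `b` at the crossing `c`, without the weight of `c` -/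
noncomputable def S' (κ : (Fin n → Bool) → ℕ) (e : Fin n → Bool) (c : Fin n) (b : Bool) (A : ℂ) :
    ℂ :=
  ∑ s ∈ Finset.univ.filter (fun s : Fin n → Bool => s c = b),
    (∏ i ∈ Finset.univ.erase c, if s i = e i then A ^ (1 : ℤ) else A ^ (-1 : ℤ)) *
      (-(A ^ (2 : ℤ) + A ^ (-2 : ℤ))) ^ κ s

theorem nrm_eq (e : Fin n → Bool) (c : Fin n) (A : ℂ) :
    nrm e A = (if e c = true then -A ^ (-3 : ℤ) else -A ^ (3 : ℤ)) * nrm' e c A := by
  unfold nrm nrm'
  exact (Finset.mul_prod_erase _ _ (Finset.mem_univ c)).symm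

theorem sum_eq (κ : (Fin n → Bool) → ℕ) (e : Fin n → Bool) (c : Fin n) (b : Bool) (A : ℂ) :
    ∑ s ∈ Finset.univ.filter (fun s : Fin n → Bool => s c = b), term κ e A s =
      (if b = e c then A ^ (1 : ℤ) else A ^ (-1 : ℤ)) * S' κ e c b A := by
  unfold S' term
  rw [Finset.mul_sum]
  refine Finset.sum_congr rfl fun s hs => ?_
  rw [Finset.mem_filter] at hs
  rw [← Finset.mul_prod_erase _ _ (Finset.mem_univ c), hs.2, mul_assoc]

theorem part_eq (κ : (Fin n → Bool) → ℕ) (e : Fin n → Bool) (c : Fin n) (b : Bool) (A : ℂ) :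
    part κ e c b A = (if e c = true then -A ^ (-3 : ℤ) else -A ^ (3 : ℤ)) * nrm' e c A *
      ((if b = e c then A ^ (1 : ℤ) else A ^ (-1 : ℤ)) * S' κ e c b A) := by
  unfold part
  rw [nrm_eq e c A, sum_eq]

/-- the two parts -/
theorem fval_part (κ : (Fin n → Bool) → ℕ) (e : Fin n → Bool) (c : Fin n) (b : Bool) (A : ℂ) :
    fval κ e A = part κ e c b A + part κ e c (!b) A := by
  unfold fval part
  rw [← mul_add]
  congr 1
  rw [← Finset.sum_filter_add_sum_filter_not Finset.univ (fun s : Fin n → Bool => s c = b)]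
  congr 1
  refine Finset.sum_congr ?_ fun _ _ => rfl
  ext s
  rw [Finset.mem_filter, Finset.mem_filter]
  refine and_congr_right fun _ => ?_
  cases s c <;> cases b <;> decide

theorem nrm'_update (e : Fin n → Bool) (c : Fin n) (x : Bool) (A : ℂ) :
    nrm' (Function.update e c x) c A = nrm' e c A := by
  unfold nrm'
  refine Finset.prod_congr rfl fun i hi => ?_
  rw [Function.update_of_ne (Finset.ne_of_mem_erase hi)]

theorem S'_update (κ : (Fin n → Bool) → ℕ) (e : Fin n → Bool) (c : Fin n) (x b : Bool) (A : ℂ) :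
    S' κ (Function.update e c x) c b A = S' κ e c b A := by
  unfold S'
  refine Finset.sum_congr rfl fun s _ => ?_
  congr 1
  refine Finset.prod_congr rfl fun i hi => ?_
  rw [Function.update_of_ne (Finset.ne_of_mem_erase hi)]

/-- **The crossing change formula**, multiplied out.  `b` is the cut smoothing of the crossing `c`
(`b = false`: the crossing is parallel). -/
theorem change (κ : (Fin n → Bool) → ℕ) (e : Fin n → Bool) (c : Fin n) (b : Bool) (A : ℂ)
    (hA : A ≠ 0) :
    (1 - A ^ (-8 * eps e c b)) *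
        ((-(A ^ (2 : ℤ) + A ^ (-2 : ℤ))) * fval κ e A + A ^ (-2 * eps e c b) * part κ e c b A) =
      (-(A ^ (2 : ℤ) + A ^ (-2 : ℤ))) * (fval κ e A -
        (if b = true then 1 else A ^ (-12 * eps e c b)) *
          fval κ (Function.update e c (!e c)) A) := by
  rw [fval_part κ e c b A, fval_part κ (Function.update e c (!e c)) c b A, part_eq, part_eq,
    part_eq, part_eq, nrm'_update, S'_update, S'_update, Function.update_self]
  unfold eps
  generalize nrm' e c A = N
  generalize S' κ e c b A = u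
  generalize S' κ e c (!b) A = v
  have h1 : ∀ k : ℕ, A ^ (-(k : ℤ)) = (A ^ k)⁻¹ := fun k => by rw [zpow_neg, zpow_natCast]
  have h2 : ∀ k : ℕ, A ^ (k : ℤ) = A ^ k := fun k => zpow_natCast A k
  have e1 := h1 1
  have e2 := h1 2
  have e3 := h1 3
  have e8 := h1 8
  have e12 := h1 12
  have f1 := h2 1
  have f2 := h2 2
  have f3 := h2 3
  have f8 := h2 8
  have f12 := h2 12
  push_cast at e1 e2 e3 e8 e12 f1 f2 f3 f8 f12
  rcases Bool.eq_false_or_eq_true (e c) with h | h <;>
    rcases Bool.eq_false_or_eq_true b with hb | hb <;>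
    subst hb <;> rw [h] <;> norm_num [e1, e2, e3, e8, e12, f1, f2, f3, f8, f12] <;>
    field_simp <;> ring

/-- the parts of the state sum with a crossing cut, in terms of the crossing change: for
`d = -A² - A⁻² ≠ 0` and `A⁸ ≠ 1` -/
theorem beta (κ : (Fin n → Bool) → ℕ) (e : Fin n → Bool) (c : Fin n) (b : Bool) (A : ℂ)
    (hA : A ≠ 0) (hd : -(A ^ (2 : ℤ) + A ^ (-2 : ℤ)) ≠ 0) (h8 : A ^ 8 ≠ 1) :
    fval κ e A + A ^ (-2 * eps e c b) / (-(A ^ (2 : ℤ) + A ^ (-2 : ℤ))) * part κ e c b A =
      (fval κ e A - (if b = true then 1 else A ^ (-12 * eps e c b)) *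
        fval κ (Function.update e c (!e c)) A) / (1 - A ^ (-8 * eps e c b)) := by
  have h1 : (1 - A ^ (-8 * eps e c b)) ≠ 0 := by
    intro h
    have h2 : A ^ (-8 * eps e c b) = 1 := (sub_eq_zero.1 h).symm
    apply h8
    unfold eps at h2
    split_ifs at h2
    · have h3 : A ^ (8 : ℤ) = 1 := by
        rw [← h2]
        norm_num
      rw [← h3]
      exact (zpow_natCast A 8).symm
    · have h3 : A ^ (-8 : ℤ) = 1 := by
        rw [← h2]
        norm_num
      rw [zpow_neg, inv_eq_one] at h3
      rw [← h3]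
      exact (zpow_natCast A 8).symm
  rw [eq_div_iff h1]
  have h2 := change κ e c b A hA
  apply mul_left_cancel₀ hd
  rw [← h2]
  generalize -(A ^ (2 : ℤ) + A ^ (-2 : ℤ)) = d at hd
  generalize fval κ e A = x
  generalize A ^ (-2 * eps e c b) = y
  generalize part κ e c b A = z
  field_simp

end Pool.Agent.ThA.B2
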