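import Pool.Agent.ThA.B1
import Pool.Agent.ThA.Asm

/-!
# ThA, module B3: the bound of the error term at a general point of the unit circle

`A = exp (x i)`, `d = -A^2 - A^(-2) ≠ 0`: the sum over the states of `(κ s - number of cut crossings)`
times the term of the state is at most `m (3 max(|d|, 1/|d|))^m`, `m` the number of classes.
-/

set_option autoImplicit false

namespace Pool.Agent.ThA

open Finset Pool.Agent.GaussJones

variable {n m : ℕ} {g : Code n}

theorem B3_norm_wx {κ : Type*} [Fintype κ] [DecidableEq κ] (X B : κ → ℂ) (hX : ∀ c, ‖X c‖ = 1)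
    (hB : ∀ c, ‖B c‖ = 1) (F : Finset κ) : ‖wx X (fun c => B c - X c) F‖ ≤ 2 ^ F.card := by
  unfold wx
  rw [norm_mul, norm_prod, norm_prod, Finset.prod_congr rfl fun c _ => hX c,
    Finset.prod_const_one, one_mul, ← Finset.prod_const]
  refine Finset.prod_le_prod (fun c _ => norm_nonneg _) fun c _ => ?_
  refine (norm_sub_le _ _).trans ?_
  rw [hX c, hB c]
  norm_num

theorem B3_sum_two (κ : Type*) [Fintype κ] [DecidableEq κ] :
    ∑ F : Finset κ, (2 : ℝ) ^ F.card = 3 ^ Fintype.card κ := by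
  have h := Finset.sum_pow_mul_eq_add_pow (2 : ℝ) 1 (univ : Finset κ)
  rw [Finset.powerset_univ, Finset.card_univ] at h
  simp only [one_pow, mul_one] at h
  rw [h]
  norm_num

theorem B3_zpow_le (t : ℝ) (ht : 0 < t) (m : ℕ) (k : ℤ) (hk : |k| ≤ m) :
    t ^ k ≤ max t t⁻¹ ^ m := by
  have h1 : 1 ≤ max t t⁻¹ := by
    rcases le_total 1 t with h | h
    · exact h.trans (le_max_left _ _)
    · exact ((one_le_inv₀ ht).2 h).trans (le_max_right _ _)
  have h2 : ∀ j : ℕ, j ≤ m → max t t⁻¹ ^ j ≤ max t t⁻¹ ^ m := fun j hj =>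
    pow_le_pow_right₀ h1 hj
  obtain ⟨j, hj⟩ := Int.eq_nat_or_neg k
  have hjm : j ≤ m := by
    rcases hj with h | h <;> rw [h] at hk
    · rw [Nat.abs_cast] at hk
      exact_mod_cast hk
    · rw [abs_neg, Nat.abs_cast] at hk
      exact_mod_cast hk
  refine le_trans ?_ (h2 j hjm)
  rcases hj with h | h
  · rw [h, zpow_natCast]
    exact pow_le_pow_left₀ ht.le (le_max_left _ _) j
  · rw [h, zpow_neg, zpow_natCast, ← inv_pow]
    exact pow_le_pow_left₀ (inv_nonneg.2 ht.le) (le_max_right _ _) j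

theorem B3_norm_pt (x : ℝ) : ‖B1.pt x‖ = 1 := by
  unfold B1.pt
  exact Complex.norm_exp_ofReal_mul_I x

theorem B3_norm_XX {κ : Type*} [DecidableEq κ] (cls : Fin n → κ) (x : Fin n → ℂ)
    (hx : ∀ i, ‖x i‖ = 1) (c : κ) : ‖XX cls x c‖ = 1 := by
  unfold XX
  rw [norm_prod]
  exact Finset.prod_eq_one fun i _ => hx i

/-- the weight of the smoothing which is not cutting -/
noncomputable def B3_x (C : TwistClasses g m) (e : Fin n → Bool) (x : ℝ) (i : Fin n) : ℂ :=
  if (!cutting C i) = e i then B1.pt x else (B1.pt x)⁻¹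

/-- the weight of the cutting smoothing, times `d` -/
noncomputable def B3_y (C : TwistClasses g m) (e : Fin n → Bool) (x : ℝ) (i : Fin n) : ℂ :=
  (if cutting C i = e i then B1.pt x else (B1.pt x)⁻¹) * B1.dd x

theorem B3_norm_x (C : TwistClasses g m) (e : Fin n → Bool) (x : ℝ) (i : Fin n) :
    ‖B3_x C e x i‖ = 1 := by
  unfold B3_x
  split_ifs
  · exact B3_norm_pt x
  · rw [norm_inv, B3_norm_pt, inv_one]

theorem B3_norm_xy (C : TwistClasses g m) (e : Fin n → Bool) (x : ℝ) (i : Fin n) :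
    ‖B3_x C e x i + B3_y C e x i‖ = 1 := by
  have h0 := B1.pt_ne x
  unfold B3_x B3_y B1.dd
  cases cutting C i <;> cases e i
  · have h1 : (if (!false) = false then B1.pt x else (B1.pt x)⁻¹) +
        (if false = false then B1.pt x else (B1.pt x)⁻¹) * -(B1.pt x ^ 2 + (B1.pt x)⁻¹ ^ 2) =
        -B1.pt x ^ 3 := by
      simp
      field_simp
      ring
    rw [h1, norm_neg, norm_pow, B3_norm_pt, one_pow]
  · have h1 : (if (!false) = true then B1.pt x else (B1.pt x)⁻¹) +
        (if false = true then B1.pt x else (B1.pt x)⁻¹) * -(B1.pt x ^ 2 + (B1.pt x)⁻¹ ^ 2) =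
        -(B1.pt x)⁻¹ ^ 3 := by
      simp
      field_simp
      ring
    rw [h1, norm_neg, norm_pow, norm_inv, B3_norm_pt, inv_one, one_pow]
  · have h1 : (if (!true) = false then B1.pt x else (B1.pt x)⁻¹) +
        (if true = false then B1.pt x else (B1.pt x)⁻¹) * -(B1.pt x ^ 2 + (B1.pt x)⁻¹ ^ 2) =
        -(B1.pt x)⁻¹ ^ 3 := by
      simp
      field_simp
      ring
    rw [h1, norm_neg, norm_pow, norm_inv, B3_norm_pt, inv_one, one_pow]
  · have h1 : (if (!true) = true then B1.pt x else (B1.pt x)⁻¹) +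
        (if true = true then B1.pt x else (B1.pt x)⁻¹) * -(B1.pt x ^ 2 + (B1.pt x)⁻¹ ^ 2) =
        -B1.pt x ^ 3 := by
      simp
      field_simp
      ring
    rw [h1, norm_neg, norm_pow, B3_norm_pt, one_pow]

/-- the normalisation -/
noncomputable def B3_u (e : Fin n → Bool) (x : ℝ) : ℂ :=
  ∏ i, (if e i = true then -(B1.pt x)⁻¹ ^ 3 else -B1.pt x ^ 3)

theorem B3_norm_u (e : Fin n → Bool) (x : ℝ) : ‖B3_u e x‖ = 1 := by
  unfold B3_u
  rw [norm_prod]
  refine Finset.prod_eq_one fun i _ => ?_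
  split_ifs
  · rw [norm_neg, norm_pow, norm_inv, B3_norm_pt, inv_one, one_pow]
  · rw [norm_neg, norm_pow, B3_norm_pt, one_pow]

/-- the term of a state in terms of the set of cut crossings -/
theorem B3_term (C : TwistClasses g m) (e s : Fin n → Bool) (x : ℝ) (hd : B1.dd x ≠ 0) :
    B1.term x (kap g) e s = B3_u e x * (B1.dd x ^ ee (MM C) (cutSet C s) *
      wx (B3_x C e x) (B3_y C e x) (cutSet C s)) := by
  unfold B1.term
  rw [Finset.prod_mul_distrib, kap_eq C s]
  change B3_u e x * (∏ i, if s i = e i then B1.pt x else (B1.pt x)⁻¹) *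
    B1.dd x ^ kk (MM C) (cutSet C s) = _
  have h1 : (∏ i, if s i = e i then B1.pt x else (B1.pt x)⁻¹) =
      (∏ i ∈ (cutSet C s)ᶜ, B3_x C e x i) *
        ∏ i ∈ cutSet C s, (if cutting C i = e i then B1.pt x else (B1.pt x)⁻¹) := by
    rw [← Finset.prod_compl_mul_prod (cutSet C s)]
    congr 1
    · refine Finset.prod_congr rfl fun i hi => ?_
      rw [Finset.mem_compl, mem_cutSet] at hi
      unfold B3_x
      revert hi
      cases s i <;> cases cutting C i <;> simp
    · refine Finset.prod_congr rfl fun i hi => ?_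
      rw [mem_cutSet] at hi
      rw [hi]
  have h2 : wx (B3_x C e x) (B3_y C e x) (cutSet C s) = (∏ i ∈ (cutSet C s)ᶜ, B3_x C e x i) *
      ((∏ i ∈ cutSet C s, (if cutting C i = e i then B1.pt x else (B1.pt x)⁻¹)) *
        B1.dd x ^ (cutSet C s).card) := by
    unfold wx B3_y
    rw [Finset.prod_mul_distrib, Finset.prod_const]
  have h3 : B1.dd x ^ kk (MM C) (cutSet C s) =
      B1.dd x ^ ee (MM C) (cutSet C s) * B1.dd x ^ (cutSet C s).card := by
    rw [← zpow_natCast (B1.dd x) (cutSet C s).card, ← zpow_add₀ hd, ← zpow_natCast]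
    unfold ee
    rw [sub_add_cancel]
  rw [h1, h2, h3]
  ring

/-- **B3.** -/
theorem B3_bound (C : TwistClasses g m) (e : Fin n → Bool) (x : ℝ) (hd : B1.dd x ≠ 0) :
    ‖∑ s, ((kap g s : ℂ) - ∑ c, if s c = cutting C c then 1 else 0) * B1.term x (kap g) e s‖ ≤
      m * (3 * max ‖B1.dd x‖ ‖B1.dd x‖⁻¹) ^ m := by
  have h1 : ∑ s, ((kap g s : ℂ) - ∑ c, if s c = cutting C c then 1 else 0) *
      B1.term x (kap g) e s = B3_u e x * ∑ F : Finset (Fin m),
        ((YY (MM C) C.cls F : ℂ) * B1.dd x ^ YY (MM C) C.cls F) *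
          wx (XX C.cls (B3_x C e x))
            (fun c => XX C.cls (fun i => B3_x C e x i + B3_y C e x i) c -
              XX C.cls (B3_x C e x) c) F := by
    rw [← push_wx C.cls (B3_x C e x) (B3_y C e x)
      (fun F => (YY (MM C) C.cls F : ℂ) * B1.dd x ^ YY (MM C) C.cls F), Finset.mul_sum,
      ← sum_states (cutting C)]
    refine Finset.sum_congr rfl fun s _ => ?_
    have h2 : Finset.univ.filter (fun i => s i = cutting C i) = cutSet C s := rfl
    rw [h2, B3_term C e s x hd, ← ee_eq_YY (MM C) (MM_symm C) C.cls (MM_cls C) (cutSet C s),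
      kap_eq C s]
    have h3 : ((kk (MM C) (cutSet C s) : ℂ) - ∑ c, if s c = cutting C c then 1 else 0) =
        ((ee (MM C) (cutSet C s) : ℤ) : ℂ) := by
      unfold ee cutSet
      push_cast
      congr 1
      rw [Finset.sum_boole]
    rw [h3]
    ring
  rw [h1, norm_mul, B3_norm_u, one_mul]
  have hM : 0 < ‖B1.dd x‖ := norm_pos_iff.2 hd
  have hcard : Fintype.card (Fin m) = m := Fintype.card_fin m
  have h2 : ∀ F : Finset (Fin m), |YY (MM C) C.cls F| ≤ (m : ℤ) := by
    intro F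
    have := abs_ee_le (MM C) C.cls (MM_cls C) (un C.cls F)
    rw [hcard] at this
    exact this
  calc ‖∑ F : Finset (Fin m), ((YY (MM C) C.cls F : ℂ) * B1.dd x ^ YY (MM C) C.cls F) *
          wx (XX C.cls (B3_x C e x))
            (fun c => XX C.cls (fun i => B3_x C e x i + B3_y C e x i) c -
              XX C.cls (B3_x C e x) c) F‖
      ≤ ∑ F : Finset (Fin m), (m * max ‖B1.dd x‖ ‖B1.dd x‖⁻¹ ^ m) * 2 ^ F.card := by
        refine (norm_sum_le _ _).trans (Finset.sum_le_sum fun F _ => ?_)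
        rw [norm_mul, norm_mul, norm_zpow, Complex.norm_intCast]
        refine mul_le_mul (mul_le_mul ?_ (B3_zpow_le _ hM m _ (h2 F))
          (zpow_nonneg (norm_nonneg _) _) (Nat.cast_nonneg m))
          (B3_norm_wx _ _ (B3_norm_XX _ _ (B3_norm_x C e x))
            (B3_norm_XX _ _ (B3_norm_xy C e x)) F) (norm_nonneg _) (by positivity)
        exact_mod_cast h2 F
    _ = m * (3 * max ‖B1.dd x‖ ‖B1.dd x‖⁻¹) ^ m := by
        rw [← Finset.mul_sum, B3_sum_two, hcard, mul_pow]
        ring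

end Pool.Agent.ThA
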