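import Pool.Agent.ThA.M1
import Pool.Agent.ThA.Loops

/-!
# ThA, module L1: the exponents of the f-polynomial of an even code are divisible by four
-/

set_option autoImplicit false

open Module LaurentPolynomial

namespace Pool.Agent.ThA.L1

/-! ### Alternating matrices over `ZMod 2` have even rank -/

/-- a regular alternating matrix over `ZMod 2` has even size (lift it to an integral skew symmetric
one) -/
theorem even_of_det {k : ℕ} (M : Matrix (Fin k) (Fin k) (ZMod 2)) (hM : ∀ i j, M i j = M j i)
    (h0 : ∀ i, M i i = 0) (hd : M.det ≠ 0) : Even k := by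
  set A : Matrix (Fin k) (Fin k) ℤ := fun i j =>
    if i < j then ((M i j).val : ℤ) else if j < i then -((M j i).val : ℤ) else 0 with hA
  have hT : A.transpose = -A := by
    ext i j
    rw [Matrix.transpose_apply, Matrix.neg_apply]
    simp only [hA]
    rcases lt_trichotomy i j with h | h | h
    · rw [if_neg (lt_asymm h), if_pos h, if_pos h]
    · subst h
      rw [if_neg (lt_irrefl _), if_neg (lt_irrefl _), neg_zero]
    · rw [if_pos h, if_neg (lt_asymm h), if_pos h, neg_neg]
  have hmap : (Int.castRingHom (ZMod 2)).mapMatrix A = M := by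
    ext i j
    rw [RingHom.mapMatrix_apply, Matrix.map_apply]
    simp only [hA]
    rcases lt_trichotomy i j with h | h | h
    · rw [if_pos h]
      simp
    · subst h
      rw [if_neg (lt_irrefl _), if_neg (lt_irrefl _), h0, map_zero]
    · rw [if_neg (lt_asymm h), if_pos h, map_neg, ZMod.neg_eq_self_mod_two]
      rw [hM i j]
      simp
  have hdet : ((A.det : ℤ) : ZMod 2) = M.det := by
    rw [← hmap, ← RingHom.map_det]
    rfl
  by_contra hk
  rw [Nat.not_even_iff_odd] at hk
  have h1 : A.det = -A.det := by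
    conv_lhs => rw [← Matrix.det_transpose, hT, Matrix.det_neg, Fintype.card_fin, hk.neg_one_pow,
      neg_one_mul]
  have h2 : A.det = 0 := by omega
  rw [h2, Int.cast_zero] at hdet
  exact hd hdet.symm

variable {ι : Type} [Fintype ι] [DecidableEq ι]

omit [DecidableEq ι] in
/-- symmetry of the form -/
theorem dot_symm (N : Matrix ι ι (ZMod 2)) (hN : ∀ a b, N a b = N b a) (x y : ι → ZMod 2) :
    dotProduct x (N.mulVec y) = dotProduct y (N.mulVec x) := by
  rw [Matrix.dotProduct_mulVec, ← Matrix.mulVec_transpose, dotProduct_comm]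
  congr 2
  ext i j
  exact hN j i

/-- the dimension of the kernel of an alternating matrix has the parity of the size -/
theorem even_add_ker (N : Matrix ι ι (ZMod 2)) (hN : ∀ a b, N a b = N b a) (h0 : ∀ a, N a a = 0) :
    Even (Fintype.card ι + finrank (ZMod 2) (kerM N)) := by
  obtain ⟨Cc, hC⟩ := (kerM N).exists_isCompl
  have hfr := Submodule.finrank_add_eq_of_isCompl hC
  rw [finrank_fintype_fun_eq_card] at hfr
  set b := Module.finBasis (ZMod 2) Cc with hb
  set M : Matrix (Fin (finrank (ZMod 2) Cc)) (Fin (finrank (ZMod 2) Cc)) (ZMod 2) :=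
    fun i j => dotProduct ((b i : ι → ZMod 2)) (N.mulVec (b j : ι → ZMod 2)) with hMdef
  have hev : Even (finrank (ZMod 2) Cc) := by
    refine even_of_det M (fun i j => dot_symm N hN _ _) (fun i => ?_) ?_
    · show dotProduct _ _ = 0
      unfold dotProduct
      rw [quad_diag N hN]
      exact Finset.sum_eq_zero fun a _ => by rw [h0, zero_mul]
    · intro hdet
      obtain ⟨v, hv0, hv⟩ := Matrix.exists_mulVec_eq_zero_iff.mpr hdet
      apply hv0
      set x : Cc := ∑ j, v j • b j with hx
      have h1 : ∀ i, dotProduct ((b i : ι → ZMod 2)) (N.mulVec (x : ι → ZMod 2)) = 0 := by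
        intro i
        have h2 := congrFun hv i
        rw [Pi.zero_apply] at h2
        rw [← h2]
        show _ = ∑ j, M i j * v j
        have h3 : (x : ι → ZMod 2) = ∑ j, v j • (b j : ι → ZMod 2) := by
          rw [hx]
          simp
        have h4 : N.mulVec (x : ι → ZMod 2) = ∑ j, v j • N.mulVec (b j : ι → ZMod 2) := by
          rw [h3, ← Matrix.mulVecLin_apply, map_sum]
          exact Finset.sum_congr rfl fun j _ => by rw [map_smul, Matrix.mulVecLin_apply]
        rw [h4, dotProduct_sum]
        refine Finset.sum_congr rfl fun j _ => ?_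
        rw [dotProduct_smul, smul_eq_mul, mul_comm]
      have h5 : ∀ y ∈ Cc, dotProduct y (N.mulVec (x : ι → ZMod 2)) = 0 := by
        intro y hy
        have h7 : y = ∑ i, b.repr ⟨y, hy⟩ i • (b i : ι → ZMod 2) := by
          calc y = ((⟨y, hy⟩ : Cc) : ι → ZMod 2) := rfl
            _ = ((∑ i, b.repr ⟨y, hy⟩ i • b i : Cc) : ι → ZMod 2) := by rw [b.sum_repr]
            _ = _ := by
              rw [AddSubmonoidClass.coe_finsetSum]
              rfl
        rw [h7, sum_dotProduct]
        refine Finset.sum_eq_zero fun i _ => ?_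
        rw [smul_dotProduct, h1, smul_zero]
      have h8 : ∀ y : ι → ZMod 2, dotProduct y (N.mulVec (x : ι → ZMod 2)) = 0 := by
        intro y
        have h9 : y ∈ kerM N ⊔ Cc := by
          rw [hC.sup_eq_top]
          exact Submodule.mem_top
        obtain ⟨u, hu, w, hw, rfl⟩ := Submodule.mem_sup.1 h9
        rw [add_dotProduct, h5 w hw, add_zero, dot_symm N hN, (mem_kerM N u).1 hu,
          dotProduct_zero]
      have h10 : N.mulVec (x : ι → ZMod 2) = 0 := by
        funext i
        have h11 := h8 (Pi.single i 1)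
        rw [single_one_dotProduct] at h11
        exact h11
      have h12 : (x : ι → ZMod 2) = 0 := by
        have h13 : (x : ι → ZMod 2) ∈ kerM N ⊓ Cc := ⟨(mem_kerM N _).2 h10, x.2⟩
        rw [hC.inf_eq_bot] at h13
        exact (Submodule.mem_bot _).1 h13
      have h14 : x = 0 := Subtype.ext h12
      funext i
      exact Fintype.linearIndependent_iff.mp b.linearIndependent v (hx ▸ h14) i
  obtain ⟨a, ha⟩ := hev
  refine ⟨finrank (ZMod 2) (kerM N) + a, ?_⟩
  omega

/-! ### The parity of the number of loops -/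

variable {n : ℕ}

open Pool.Agent.GaussJones

/-- the matrix of the state whose smoothings at the crossings of `S` do not respect the
orientation -/
noncomputable def NS (g : Code n) (S : Finset (Fin n)) : Matrix (Fin n) (Fin n) (ZMod 2) :=
  LL g + Matrix.diagonal fun i => if i ∈ S then (1 : ZMod 2) else 0

theorem NS_symm (g : Code n) (S : Finset (Fin n)) (i j : Fin n) : NS g S i j = NS g S j i := by
  unfold NS
  rw [Matrix.add_apply, Matrix.add_apply, LL_symm]
  by_cases h : i = j
  · subst h
    rfl
  · rw [Matrix.diagonal_apply_ne _ h, Matrix.diagonal_apply_ne _ (Ne.symm h)]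

theorem NS_even {g : Code n} (hg : EvenCode g) (S : Finset (Fin n)) : EvenRows (NS g S) := by
  intro i
  refine (Finset.sum_congr rfl fun j _ => ?_).trans (LL_even hg i)
  by_cases h : j = i
  · subst h
    rw [if_pos rfl, LL_self]
  · rw [if_neg h]
    unfold NS
    rw [Matrix.add_apply, Matrix.diagonal_apply_ne _ (Ne.symm h), add_zero]

theorem NS_flip (g : Code n) (S : Finset (Fin n)) (c : Fin n) (hc : c ∉ S) :
    NS g (insert c S) = flip (NS g S) c := by
  ext i j
  unfold flip NS
  rw [Matrix.add_apply, Matrix.add_apply, add_assoc]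
  congr 1
  by_cases h : i = j
  · subst h
    rw [Matrix.diagonal_apply_eq, Matrix.diagonal_apply_eq]
    by_cases h1 : i = c
    · subst h1
      rw [if_pos (Finset.mem_insert_self _ _), if_neg hc, if_pos ⟨rfl, rfl⟩, zero_add]
    · rw [if_neg (fun h' : i = c ∧ i = c => h1 h'.1), add_zero]
      refine if_congr ?_ rfl rfl
      rw [Finset.mem_insert]
      exact ⟨fun h' => h'.resolve_left h1, Or.inr⟩
  · rw [Matrix.diagonal_apply_ne _ h, Matrix.diagonal_apply_ne _ h,
      if_neg (fun h' => h (h'.1.trans h'.2.symm)), add_zero]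

theorem even_NS {g : Code n} (hg : EvenCode g) (S : Finset (Fin n)) :
    Even (n + S.card + finrank (ZMod 2) (kerM (NS g S))) := by
  induction S using Finset.induction_on with
  | empty =>
    have h1 := even_add_ker (NS g ∅) (NS_symm g ∅) (fun a => by
      unfold NS
      rw [Matrix.add_apply, LL_self, Matrix.diagonal_apply_eq,
        if_neg (Finset.notMem_empty a), add_zero])
    rwa [Fintype.card_fin] at h1
  | insert c S hc ih =>
    have h1 := flip_finrank (NS g S) (NS_symm g S) (NS_even hg S) c
    rw [← NS_flip g S c hc] at h1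
    rw [Finset.card_insert_of_notMem hc]
    rw [Nat.even_iff] at ih ⊢
    omega

/-- **parity of the number of loops**: it is one more than the number of smoothings which respect
the orientation, modulo two -/
theorem even_loops {g : Code n} (hg : EvenCode g) (s : Fin n → Bool) :
    Even ((loops g s - 1) + (Finset.univ.filter fun i => s i = true).card) := by
  have h1 := even_NS hg (Finset.univ.filter fun i => s i = false)
  have h2 : (NS g (Finset.univ.filter fun i => s i = false)) =
      LL g + Matrix.diagonal fun i => if s i = true then (0 : ZMod 2) else 1 := by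
    unfold NS
    congr 2
    funext i
    simp only [Finset.mem_filter, Finset.mem_univ, true_and]
    cases s i <;> rfl
  have h3 : (Finset.univ.filter fun i => s i = true).card +
      (Finset.univ.filter fun i => s i = false).card = n := by
    have h4 := Finset.card_filter_add_card_filter_not (s := (Finset.univ : Finset (Fin n)))
      (fun i => s i = true)
    rw [Finset.card_univ, Fintype.card_fin] at h4
    refine Eq.trans ?_ h4
    congr 2
    refine Finset.filter_congr fun i _ => ?_
    cases s i <;> decide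
  rw [loops_rank, ← h2]
  rw [Nat.even_iff] at h1 ⊢
  show (finrank (ZMod 2) (kerM (NS g (Finset.univ.filter fun i => s i = false))) + _) % 2 = 0
  omega

/-! ### Exponents -/

/-- all exponents are `r` modulo four -/
def Cls (r : ℤ) (P : ℤ[T;T⁻¹]) : Prop :=
  P ∈ Submodule.span ℤ (Set.range fun k : ℤ => (T (4 * k + r) : ℤ[T;T⁻¹]))

theorem cls_T {m r : ℤ} (h : (4 : ℤ) ∣ m - r) : Cls r (T m) := by
  obtain ⟨k, hk⟩ := h
  refine Submodule.subset_span ⟨k, ?_⟩
  show T (4 * k + r) = T m
  congr 1
  omega

theorem Cls.congr {r r' : ℤ} {P : ℤ[T;T⁻¹]} (h : Cls r P) (hr : (4 : ℤ) ∣ r - r') : Cls r' P := by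
  obtain ⟨k, hk⟩ := hr
  have h1 : Set.range (fun k : ℤ => (T (4 * k + r) : ℤ[T;T⁻¹])) =
      Set.range (fun k : ℤ => (T (4 * k + r') : ℤ[T;T⁻¹])) := by
    ext P
    constructor
    · rintro ⟨l, rfl⟩
      refine ⟨l + k, ?_⟩
      show T (4 * (l + k) + r') = T (4 * l + r)
      congr 1
      omega
    · rintro ⟨l, rfl⟩
      refine ⟨l - k, ?_⟩
      show T (4 * (l - k) + r) = T (4 * l + r')
      congr 1
      omega
  unfold Cls at h ⊢
  rwa [← h1]

theorem Cls.neg {r : ℤ} {P : ℤ[T;T⁻¹]} (h : Cls r P) : Cls r (-P) := Submodule.neg_mem _ h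

theorem Cls.add {r : ℤ} {P Q : ℤ[T;T⁻¹]} (h : Cls r P) (h' : Cls r Q) : Cls r (P + Q) :=
  Submodule.add_mem _ h h'

theorem Cls.sum {r : ℤ} {α : Type} (S : Finset α) (f : α → ℤ[T;T⁻¹])
    (h : ∀ a ∈ S, Cls r (f a)) : Cls r (∑ a ∈ S, f a) := Submodule.sum_mem _ h

theorem Cls.mul {r s : ℤ} {P Q : ℤ[T;T⁻¹]} (h : Cls r P) (h' : Cls s Q) : Cls (r + s) (P * Q) := by
  have h1 := Submodule.mul_mem_mul h h'
  rw [Submodule.span_mul_span] at h1
  refine Submodule.span_mono ?_ h1
  rintro _ ⟨_, ⟨k, rfl⟩, _, ⟨l, rfl⟩, rfl⟩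
  refine ⟨k + l, ?_⟩
  show T (4 * (k + l) + (r + s)) = T (4 * k + r) * T (4 * l + s)
  rw [← T_add]
  congr 1
  ring

theorem cls_one : Cls 0 (1 : ℤ[T;T⁻¹]) := by
  rw [← T_zero]
  exact cls_T (by norm_num)

theorem Cls.pow {r : ℤ} {P : ℤ[T;T⁻¹]} (h : Cls r P) (m : ℕ) : Cls (m * r) (P ^ m) := by
  induction m with
  | zero =>
    rw [pow_zero]
    exact cls_one.congr (by norm_num)
  | succ m ih =>
    rw [pow_succ]
    exact (ih.mul h).congr ⟨0, by push_cast; ring⟩

theorem Cls.prod {α : Type} (S : Finset α) (f : α → ℤ[T;T⁻¹]) (r : α → ℤ)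
    (h : ∀ a ∈ S, Cls (r a) (f a)) : Cls (∑ a ∈ S, r a) (∏ a ∈ S, f a) := by
  classical
  induction S using Finset.induction_on with
  | empty => exact cls_one
  | insert a S ha ih =>
    rw [Finset.sum_insert ha, Finset.prod_insert ha]
    exact (h a (Finset.mem_insert_self _ _)).mul
      (ih fun b hb => h b (Finset.mem_insert_of_mem hb))

theorem Cls.coeff {r : ℤ} {P : ℤ[T;T⁻¹]} (h : Cls r P) (k : ℤ) (hk : P.coeff k ≠ 0) :
    (4 : ℤ) ∣ k - r := by
  by_contra hn
  apply hk
  unfold Cls at h
  induction h using Submodule.span_induction with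
  | mem x hx =>
    obtain ⟨l, rfl⟩ := hx
    rw [T_apply, if_neg]
    intro h1
    apply hn
    exact ⟨l, by omega⟩
  | zero => rfl
  | add x y _ _ hx hy =>
    rw [AddMonoidAlgebra.coeff_add, Finsupp.add_apply]
    by_cases h1 : x.coeff k = 0 <;> by_cases h2 : y.coeff k = 0 <;> simp_all
  | smul a x _ hx =>
    by_cases h1 : x.coeff k = 0
    · rw [AddMonoidAlgebra.coeff_smul, Finsupp.smul_apply, h1, smul_zero]
    · exact absurd (hx h1) h1

/-- **L1**: the exponents of the f-polynomial of an even code are divisible by four -/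
theorem exponents {g : Code n} (hg : EvenCode g) (e : Fin n → Bool) (k : ℤ)
    (hk : (fPoly g e).coeff k ≠ 0) : (4 : ℤ) ∣ k := by
  have h1 : Cls 0 (fPoly g e) := by
    unfold fPoly GaussJones.bracket
    rw [Finset.mul_sum]
    refine Cls.sum _ _ fun s _ => ?_
    have h2 : Cls (∑ i, if e i = true then (-3 : ℤ) else 3)
        (∏ i, if e i = true then -T (-3) else -T 3 : ℤ[T;T⁻¹]) := by
      refine Cls.prod _ _ _ fun i _ => ?_
      split_ifs
      · exact (cls_T (by norm_num)).neg
      · exact (cls_T (by norm_num)).neg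
    have h3 : Cls (∑ i, if s i = e i then (1 : ℤ) else -1)
        (∏ i, if s i = e i then T 1 else T (-1) : ℤ[T;T⁻¹]) := by
      refine Cls.prod _ _ _ fun i _ => ?_
      split_ifs
      · exact cls_T (by norm_num)
      · exact cls_T (by norm_num)
    have h4 : Cls 2 (-(T 2 + T (-2)) : ℤ[T;T⁻¹]) :=
      ((cls_T (by norm_num)).add (cls_T (by norm_num))).neg
    refine (h2.mul (h3.mul (h4.pow (loops g s - 1)))).congr ?_
    obtain ⟨a, ha⟩ := even_loops hg s
    have h5 : (∑ i, if e i = true then (-3 : ℤ) else 3) + (∑ i, if s i = e i then (1 : ℤ) else -1) =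
        2 * ((Finset.univ.filter fun i => s i = true).card : ℤ) +
          4 * ∑ i, (if e i = true then -1 else if s i = true then 0 else 1) := by
      rw [Finset.card_filter, Nat.cast_sum, Finset.mul_sum, Finset.mul_sum,
        ← Finset.sum_add_distrib, ← Finset.sum_add_distrib]
      refine Finset.sum_congr rfl fun i _ => ?_
      cases e i <;> cases s i <;> simp
    refine ⟨∑ i, (if e i = true then -1 else if s i = true then 0 else 1) + a, ?_⟩
    have h6 : (((loops g s - 1 : ℕ) : ℤ)) + ((Finset.univ.filter fun i => s i = true).card : ℤ) =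
        2 * a := by
      have := congrArg (fun x : ℕ => (x : ℤ)) ha
      push_cast at this
      rw [← two_mul] at this
      exact_mod_cast this
    linear_combination h5 + 2 * h6
  have h2 := h1.coeff k hk
  rwa [sub_zero] at h2

end Pool.Agent.ThA.L1
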