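import Pool.Agent.ThA.M2

/-!
# ThA, module L3: the integer `Lam` of a Laurent polynomial and the derivative at `exp (π i / 6)`

For `f = ∑ p_k A^k` (with `t = A^(-4)`) the integer `Lam f` is the sum of `(-(k/4)) p_k` over the `k`
divisible by `12`, that is, the sum of `m v_m` over the `m` divisible by `3` for `V = ∑ v_m t^m`.
-/

set_option autoImplicit false

open Complex LaurentPolynomial

namespace Pool.Agent.ThA

theorem Lam_one : Lam 1 = 0 := by
  unfold Lam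
  refine Finset.sum_eq_zero fun k hk => ?_
  have h1 : (1 : ℤ[T;T⁻¹]) = T 0 := T_zero.symm
  rw [h1, T_apply]
  by_cases h : (0 : ℤ) = k
  · subst h
    simp
  · rw [if_neg h, mul_zero]

theorem eq_sum (P : ℤ[T;T⁻¹]) : P = ∑ k ∈ P.coeff.support, C (P.coeff k) * T k := by
  have h := AddMonoidAlgebra.sum_coeff_single P
  conv_lhs => rw [← h]
  unfold Finsupp.sum
  refine Finset.sum_congr rfl fun k _ => ?_
  exact single_eq_C_mul_T _ _

theorem ev_C (x : ℝ) (a : ℤ) : M2.ev x (C a) = a := by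
  unfold M2.ev
  rw [eval₂_C]
  simp

/-- the derivative of the evaluation at `exp (x i)` -/
theorem hasDerivAt_ev (P : ℤ[T;T⁻¹]) (x : ℝ) :
    HasDerivAt (fun x : ℝ => M2.ev x P)
      (∑ k ∈ P.coeff.support, (P.coeff k : ℂ) * (k * I * M2.ev x (T k))) x := by
  have h1 : (fun x : ℝ => M2.ev x P) =
      fun x : ℝ => ∑ k ∈ P.coeff.support, (P.coeff k : ℂ) * M2.ev x (T k) := by
    funext x
    conv_lhs => rw [eq_sum P]
    rw [map_sum]
    refine Finset.sum_congr rfl fun k _ => ?_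
    rw [map_mul, ev_C]
  rw [h1]
  exact HasDerivAt.fun_sum fun k _ => (M2.hasDerivAt_ev_T k x).const_mul _

/-- the real part of `exp (i π k / 6)` for `k` divisible by `4` -/
theorem re_T (k : ℤ) (hk : (4 : ℤ) ∣ k) :
    (M2.ev (Real.pi / 6) (T k)).re = if (12 : ℤ) ∣ k then 1 else -1 / 2 := by
  obtain ⟨m, rfl⟩ := hk
  rw [M2.ev_T]
  have h1 : (((4 * m : ℤ) : ℂ) * (((Real.pi / 6 : ℝ) : ℂ) * I)) =
      ((m * (2 * Real.pi / 3) : ℝ) : ℂ) * I := by
    push_cast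
    ring
  rw [h1, exp_ofReal_mul_I_re]
  have h3 : ((12 : ℤ) ∣ 4 * m) ↔ (3 : ℤ) ∣ m := by
    constructor <;> intro h <;> omega
  rw [if_congr h3 rfl rfl]
  have hc : ∀ (j : ℤ) (y : ℝ), Real.cos ((3 * j : ℤ) * (2 * Real.pi / 3) + y) = Real.cos y := by
    intro j y
    have : ((3 * j : ℤ) : ℝ) * (2 * Real.pi / 3) + y = y + j * (2 * Real.pi) := by
      push_cast
      ring
    rw [this, Real.cos_add_int_mul_two_pi]
  have hpi3 : Real.cos (2 * Real.pi / 3) = -1 / 2 := by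
    have : 2 * Real.pi / 3 = Real.pi - Real.pi / 3 := by ring
    rw [this, Real.cos_pi_sub, Real.cos_pi_div_three]
    norm_num
  have hm : m = 3 * (m / 3) + m % 3 := (Int.mul_ediv_add_emod m 3).symm
  have h0 : m % 3 = 0 ∨ m % 3 = 1 ∨ m % 3 = 2 := by omega
  rcases h0 with h | h | h
  · rw [if_pos (Int.dvd_of_emod_eq_zero h)]
    have : ((m : ℤ) : ℝ) * (2 * Real.pi / 3) = (3 * (m / 3) : ℤ) * (2 * Real.pi / 3) + 0 := by
      rw [add_zero]
      congr 2
      omega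
    rw [this, hc, Real.cos_zero]
  · rw [if_neg (by omega)]
    have : ((m : ℤ) : ℝ) * (2 * Real.pi / 3) =
        (3 * (m / 3) : ℤ) * (2 * Real.pi / 3) + 2 * Real.pi / 3 := by
      have h5 : (m : ℝ) = ((3 * (m / 3) : ℤ) : ℝ) + 1 := by
        have : m = 3 * (m / 3) + 1 := by omega
        exact_mod_cast congrArg (fun z : ℤ => (z : ℝ)) this
      rw [h5]
      ring
    rw [this, hc, hpi3]
  · rw [if_neg (by omega)]
    have : ((m : ℤ) : ℝ) * (2 * Real.pi / 3) =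
        (3 * (m / 3 + 1) : ℤ) * (2 * Real.pi / 3) + -(2 * Real.pi / 3) := by
      have h5 : (m : ℝ) = ((3 * (m / 3 + 1) : ℤ) : ℝ) - 1 := by
        have : m = 3 * (m / 3 + 1) - 1 := by omega
        exact_mod_cast congrArg (fun z : ℤ => (z : ℝ)) this
      rw [h5]
      ring
    rw [this, hc, Real.cos_neg, hpi3]

/-- **L3.** The imaginary part of the derivative of `x ↦ f (exp (x i))` at `π / 6`. -/
theorem deriv_im (P : ℤ[T;T⁻¹]) (h4 : ∀ k, P.coeff k ≠ 0 → (4 : ℤ) ∣ k)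
    (h0 : (P.coeff.sum fun k a => k * a) = 0) (D : ℂ)
    (hD : HasDerivAt (fun x : ℝ => M2.ev x P) D (Real.pi / 6)) : D.im = -6 * (Lam P : ℝ) := by
  have h0' : ∑ k ∈ P.coeff.support, k * P.coeff k = 0 := h0
  rw [hD.unique (hasDerivAt_ev P (Real.pi / 6)), im_sum]
  have h1 : ∀ k ∈ P.coeff.support, ((P.coeff k : ℂ) * (k * I * M2.ev (Real.pi / 6) (T k))).im =
      (k : ℝ) * P.coeff k * (if (12 : ℤ) ∣ k then 1 else -1 / 2) := by
    intro k hk
    rw [← re_T k (h4 k (Finsupp.mem_support_iff.1 hk))]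
    simp [mul_im, mul_re]
    ring
  rw [Finset.sum_congr rfl h1]
  have h2 : ∀ k ∈ P.coeff.support,
      (k : ℝ) * P.coeff k * (if (12 : ℤ) ∣ k then 1 else -1 / 2) =
      (-1 / 2) * ((k * P.coeff k : ℤ) : ℝ) +
        (3 / 2) * (if (12 : ℤ) ∣ k then (k : ℝ) * P.coeff k else 0) := by
    intro k _
    push_cast
    split_ifs <;> ring
  rw [Finset.sum_congr rfl h2, Finset.sum_add_distrib, ← Finset.mul_sum, ← Int.cast_sum, h0',
    Int.cast_zero, mul_zero, zero_add, ← Finset.mul_sum, ← Finset.sum_filter]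
  unfold Lam
  push_cast
  rw [Finset.mul_sum, Finset.mul_sum]
  refine Finset.sum_congr rfl fun k hk => ?_
  have h5 : (12 : ℤ) ∣ k := (Finset.mem_filter.1 hk).2
  have h6 : (k : ℝ) = 4 * ((k / 4 : ℤ) : ℝ) := by
    have : k = 4 * (k / 4) := by omega
    exact_mod_cast congrArg (fun z : ℤ => (z : ℝ)) this
  rw [h6]
  ring

/-- **L3.** The sum itself: `Re (∑ k p_k exp (i π k / 6)) = -6 Lam`. -/
theorem re_sum_T (P : ℤ[T;T⁻¹]) (h4 : ∀ k, P.coeff k ≠ 0 → (4 : ℤ) ∣ k)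
    (h0 : (P.coeff.sum fun k a => k * a) = 0) :
    (∑ k ∈ P.coeff.support, (k : ℂ) * P.coeff k * M2.ev (Real.pi / 6) (T k)).re =
      -6 * (Lam P : ℝ) := by
  rw [← deriv_im P h4 h0 _ (hasDerivAt_ev P (Real.pi / 6)), Complex.re_sum, im_sum]
  refine Finset.sum_congr rfl fun k _ => ?_
  simp [mul_im, mul_re]
  ring

/-- **L3, with M2.** If the value of the state sum at `exp (π i / 6)` is `1`, then
`Lam f = PP e σ + Im (EE κ e σ) / √3`, for every cutting state `σ`. -/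
theorem Lam_fsum {n : ℕ} (κ : (Fin n → Bool) → ℕ) (e : Fin n → Bool)
    (hκ : ∀ s c, κ (Function.update s c (!(s c))) = κ s + 1 ∨
      κ s = κ (Function.update s c (!(s c))) + 1)
    (h4 : ∀ k, (M2.fsum κ e).coeff k ≠ 0 → (4 : ℤ) ∣ k)
    (h0 : ((M2.fsum κ e).coeff.sum fun k a => k * a) = 0)
    (h1 : M2.ev (Real.pi / 6) (M2.fsum κ e) = 1) (σ : Fin n → Bool) :
    (Lam (M2.fsum κ e) : ℝ) = M2.PP e σ + (M2.EE κ e σ).im / Real.sqrt 3 := by
  obtain ⟨ε, -, h2, h3⟩ := M2.main κ e hκ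
  have h5 : (ε : ℂ) = 1 := h2.symm.trans h1
  have h6 := deriv_im _ h4 h0 _ (h3 σ)
  rw [h5, one_mul] at h6
  have h7 : (-6 * (M2.PP e σ : ℂ) * I - 2 * (Real.sqrt 3 : ℂ) * M2.EE κ e σ).im =
      -6 * (M2.PP e σ : ℝ) - 2 * Real.sqrt 3 * (M2.EE κ e σ).im := by
    simp [sub_im, mul_im, mul_re]
  rw [h7] at h6
  have h8 : Real.sqrt 3 * Real.sqrt 3 = 3 := Real.mul_self_sqrt (by norm_num)
  have h9 : Real.sqrt 3 ≠ 0 := (Real.sqrt_pos.2 (by norm_num)).ne'
  field_simp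
  linear_combination (Real.sqrt 3 / 6) * h6 + ((M2.EE κ e σ).im / 3) * h8

end Pool.Agent.ThA
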