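import Pool.Agent.ThA.B3
import Pool.Agent.ThA.L3
import Pool.Agent.ThA.L1

/-!
# ThA, module B5: the derivative of the polynomial at a point of the unit circle

`A = exp (x i)`, `d = -A^2 - A^(-2) ≠ 0`, `A^8 ≠ 1`. For every division into `m` twist classes,
`A f'(A) + 6 μ f(A) - 4 ∑ ε_c β_c(A)` is at most `|2 (A^2 - A^-2) / (A^2 + A^-2)| m (3 max(|d|, 1/|d|))^m`,
where `β_c` is given by `f(A)` and the value at `A` of the polynomial of the diagram with the crossing
`c` changed.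
-/

set_option autoImplicit false

open Complex LaurentPolynomial

namespace Pool.Agent.ThA

open Pool.Agent.GaussJones

variable {n m : ℕ} {g : Code n}

/-- the sum `∑ k p_k A^k` at `A = exp (x i)` -/
noncomputable def dA (P : ℤ[T;T⁻¹]) (x : ℝ) : ℂ :=
  ∑ k ∈ P.coeff.support, (k : ℂ) * P.coeff k * M2.ev x (T k)

/-- **the general inequality** -/
theorem B5_general (C : TwistClasses g m) (e : Fin n → Bool) (x : ℝ) (hd : B1.dd x ≠ 0)
    (h8 : B1.pt x ^ 8 ≠ 1) :
    ‖dA (fPoly g e) x + 6 * (C.mu e : ℂ) * M2.ev x (fPoly g e) -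
      4 * ∑ i, (B1.eps e (cutting C) i : ℂ) * B1.beta x (kap g) e (cutting C) i‖ ≤
      ‖B1.dl x‖ * (m * (3 * max ‖B1.dd x‖ ‖B1.dd x‖⁻¹) ^ m) := by
  have h1 := B1.main x hd h8 (kap g) e (cutting C)
  have h2 := hasDerivAt_ev (fPoly g e) x
  have h3 := h2.unique h1
  have h4 : (∑ k ∈ (fPoly g e).coeff.support,
      ((fPoly g e).coeff k : ℂ) * (k * I * M2.ev x (T k))) = I * dA (fPoly g e) x := by
    unfold dA
    rw [Finset.mul_sum]
    exact Finset.sum_congr rfl fun k _ => by ring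
  rw [h4] at h3
  have h5 := mul_left_cancel₀ I_ne_zero h3
  rw [h5, PP_eq]
  have h6 : -6 * (C.mu e : ℂ) * M2.ev x (M2.fsum (kap g) e) +
      4 * ∑ i, (B1.eps e (cutting C) i : ℂ) * B1.beta x (kap g) e (cutting C) i +
      B1.dl x * ∑ s, ((kap g s : ℂ) - ∑ c, if s c = cutting C c then 1 else 0) *
        B1.term x (kap g) e s + 6 * (C.mu e : ℂ) * M2.ev x (fPoly g e) -
      4 * ∑ i, (B1.eps e (cutting C) i : ℂ) * B1.beta x (kap g) e (cutting C) i =
      B1.dl x * ∑ s, ((kap g s : ℂ) - ∑ c, if s c = cutting C c then 1 else 0) *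
        B1.term x (kap g) e s := by
    rw [fPoly_eq]
    ring
  rw [h6, norm_mul]
  exact mul_le_mul_of_nonneg_left (B3_bound C e x hd) (norm_nonneg _)

/-! ### The point `exp (π i / 8)` -/

/-- The sum of `m v_m` over the `m` with `m = j` modulo `4`, for `V = ∑ v_m t^m`, `t = A^(-4)`. -/
noncomputable def mom (P : ℤ[T;T⁻¹]) (j : ℤ) : ℤ :=
  ∑ k ∈ P.coeff.support.filter (fun k => (16 : ℤ) ∣ k + 4 * j), -(k / 4) * P.coeff k

theorem pt8_four : B1.pt (Real.pi / 8) ^ 4 = I := by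
  unfold B1.pt
  rw [← exp_nat_mul]
  have : ((4 : ℕ) : ℂ) * (((Real.pi / 8 : ℝ) : ℂ) * I) = (Real.pi : ℂ) / 2 * I := by
    push_cast
    ring
  rw [this, exp_pi_div_two_mul_I]

theorem pt8_eight : B1.pt (Real.pi / 8) ^ 8 = -1 := by
  have : B1.pt (Real.pi / 8) ^ 8 = (B1.pt (Real.pi / 8) ^ 4) ^ 2 := by ring
  rw [this, pt8_four, I_sq]

theorem pt8_zpow (k : ℤ) : B1.pt (Real.pi / 8) ^ (4 * k) = I ^ k := by
  have h : B1.pt (Real.pi / 8) ^ (4 : ℤ) = I := by
    have := pt8_four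
    exact_mod_cast this
  rw [zpow_mul, h]

theorem I_zpow_four (q : ℤ) : (I : ℂ) ^ (4 * q) = 1 := by
  have h : (I : ℂ) ^ (4 : ℤ) = 1 := by
    have := I_pow_four
    exact_mod_cast this
  rw [zpow_mul, h, one_zpow]

theorem dd8 : B1.dd (Real.pi / 8) = -(Real.sqrt 2 : ℂ) := by
  unfold B1.dd B1.pt
  rw [← exp_neg, ← exp_nat_mul, ← exp_nat_mul]
  have h1 : ((2 : ℕ) : ℂ) * (((Real.pi / 8 : ℝ) : ℂ) * I) = ((Real.pi / 4 : ℝ) : ℂ) * I := by
    push_cast
    ring
  have h2 : ((2 : ℕ) : ℂ) * -(((Real.pi / 8 : ℝ) : ℂ) * I) = -((Real.pi / 4 : ℝ) : ℂ) * I := by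
    push_cast
    ring
  have h3 : Complex.cos ((Real.pi / 4 : ℝ) : ℂ) = (Real.sqrt 2 : ℂ) / 2 := by
    rw [← ofReal_cos, Real.cos_pi_div_four]
    push_cast
    rfl
  rw [h1, h2]
  have h4 := Complex.two_cos ((Real.pi / 4 : ℝ) : ℂ)
  rw [← h4, h3]
  ring

theorem norm_dd8 : ‖B1.dd (Real.pi / 8)‖ = Real.sqrt 2 := by
  rw [dd8, norm_neg, norm_real, Real.norm_of_nonneg (Real.sqrt_nonneg 2)]

theorem dl8 : B1.dl (Real.pi / 8) = 2 * I := by
  have h0 := B1.pt_ne (Real.pi / 8)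
  have h4 := pt8_four
  have h5 : B1.pt (Real.pi / 8) ^ 4 + 1 ≠ 0 := by
    rw [h4]
    intro h
    have := congrArg Complex.re h
    simp at this
  have h6 : B1.pt (Real.pi / 8) ^ 2 + (B1.pt (Real.pi / 8))⁻¹ ^ 2 ≠ 0 := by
    intro h
    apply h5
    field_simp at h
    linear_combination h
  unfold B1.dl
  rw [div_eq_iff h6]
  field_simp
  rw [h4]
  linear_combination (-1 : ℂ) * I_sq

/-- the derivative in terms of the moments -/
theorem dA_eight (P : ℤ[T;T⁻¹]) (h4 : ∀ k, P.coeff k ≠ 0 → (4 : ℤ) ∣ k) :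
    dA P (Real.pi / 8) = -4 * (((mom P 0 - mom P 2 : ℤ) : ℂ) - I * ((mom P 1 - mom P 3 : ℤ) : ℂ)) := by
  have key : ∀ k ∈ P.coeff.support, (k : ℂ) * P.coeff k * M2.ev (Real.pi / 8) (T k) =
      -4 * (((if (16 : ℤ) ∣ k + 4 * 0 then -(k / 4) * P.coeff k else 0 : ℤ) : ℂ) -
        ((if (16 : ℤ) ∣ k + 4 * 2 then -(k / 4) * P.coeff k else 0 : ℤ) : ℂ) -
        I * (((if (16 : ℤ) ∣ k + 4 * 1 then -(k / 4) * P.coeff k else 0 : ℤ) : ℂ) -
          ((if (16 : ℤ) ∣ k + 4 * 3 then -(k / 4) * P.coeff k else 0 : ℤ) : ℂ))) := by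
    intro k hk
    obtain ⟨j, rfl⟩ := h4 k (Finsupp.mem_support_iff.1 hk)
    rw [B1.ev_T', pt8_zpow]
    have hj : 4 * j / 4 = j := by omega
    rw [hj]
    have h0 : j % 4 = 0 ∨ j % 4 = 1 ∨ j % 4 = 2 ∨ j % 4 = 3 := by omega
    rcases h0 with h | h | h | h
    · rw [if_pos (by omega), if_neg (by omega), if_neg (by omega), if_neg (by omega)]
      have h1 : j = 4 * (j / 4) := by omega
      have h2 : (I : ℂ) ^ j = 1 := by
        rw [h1, I_zpow_four]
      rw [h2]
      push_cast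
      ring
    · rw [if_neg (by omega), if_neg (by omega), if_neg (by omega), if_pos (by omega)]
      have h1 : j = 4 * (j / 4) + 1 := by omega
      have h2 : (I : ℂ) ^ j = I := by
        rw [h1, zpow_add₀ I_ne_zero, I_zpow_four, zpow_one, one_mul]
      rw [h2]
      push_cast
      ring
    · rw [if_neg (by omega), if_pos (by omega), if_neg (by omega), if_neg (by omega)]
      have h1 : j = 4 * (j / 4) + 2 := by omega
      have h2 : (I : ℂ) ^ j = -1 := by
        rw [h1, zpow_add₀ I_ne_zero, I_zpow_four, one_mul]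
        exact_mod_cast I_sq
      rw [h2]
      push_cast
      ring
    · rw [if_neg (by omega), if_neg (by omega), if_pos (by omega), if_neg (by omega)]
      have h1 : j = 4 * (j / 4) + 3 := by omega
      have h2 : (I : ℂ) ^ j = -I := by
        rw [h1, zpow_add₀ I_ne_zero, I_zpow_four, one_mul]
        exact_mod_cast I_pow_three
      rw [h2]
      push_cast
      ring
  unfold dA
  rw [Finset.sum_congr rfl key, ← Finset.mul_sum, Finset.sum_sub_distrib, Finset.sum_sub_distrib,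
    ← Finset.mul_sum, Finset.sum_sub_distrib]
  unfold mom
  rw [Finset.sum_filter, Finset.sum_filter, Finset.sum_filter, Finset.sum_filter]
  push_cast
  rfl

/-- **B5 at `exp (π i / 8)`** -/
theorem B5_eight (hg : EvenCode g) (C : TwistClasses g m) (e : Fin n → Bool) :
    ‖((mom (fPoly g e) 0 - mom (fPoly g e) 2 : ℤ) : ℂ) -
        I * ((mom (fPoly g e) 1 - mom (fPoly g e) 3 : ℤ) : ℂ) -
        (C.mu e : ℂ) * M2.ev (Real.pi / 8) (fPoly g e) -
        (1 / 2) * ∑ i, (if C.par (C.cls i) = true then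
          I * M2.ev (Real.pi / 8) (fPoly g (B1.chg e i)) else
          (sgn e i : ℂ) * (M2.ev (Real.pi / 8) (fPoly g e) -
            M2.ev (Real.pi / 8) (fPoly g (B1.chg e i))))‖ ≤
      m * (3 * Real.sqrt 2) ^ m / 2 := by
  have hs : (1 : ℝ) ≤ Real.sqrt 2 := by
    rw [Real.one_le_sqrt]
    norm_num
  have h1 := B5_general C e (Real.pi / 8)
    (by rw [← norm_pos_iff, norm_dd8]; linarith)
    (by rw [pt8_eight]; intro h; have := congrArg Complex.re h; norm_num at this)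
  have hmax : max (Real.sqrt 2) (Real.sqrt 2)⁻¹ = Real.sqrt 2 :=
    max_eq_left ((inv_le_one_of_one_le₀ hs).trans hs)
  rw [dl8, norm_dd8, hmax, norm_mul, norm_I, dA_eight _ (L1.exponents hg e)] at h1
  have h2 : 4 * ∑ i, (B1.eps e (cutting C) i : ℂ) *
      B1.beta (Real.pi / 8) (kap g) e (cutting C) i =
      2 * (C.mu e : ℂ) * M2.ev (Real.pi / 8) (fPoly g e) - 2 * ∑ i,
        (if C.par (C.cls i) = true then
          I * M2.ev (Real.pi / 8) (fPoly g (B1.chg e i)) else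
          (sgn e i : ℂ) * (M2.ev (Real.pi / 8) (fPoly g e) -
            M2.ev (Real.pi / 8) (fPoly g (B1.chg e i)))) := by
    have h3 : (C.mu e : ℂ) = ∑ i, if C.par (C.cls i) = true then (sgn e i : ℂ) else 0 := by
      unfold TwistClasses.mu
      push_cast
      exact Finset.sum_congr rfl fun i _ => by split_ifs <;> simp
    rw [h3, Finset.mul_sum, Finset.mul_sum, Finset.mul_sum, Finset.sum_mul,
      ← Finset.sum_sub_distrib]
    refine Finset.sum_congr rfl fun i _ => ?_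
    have hm8 : B1.pt (Real.pi / 8) ^ (-8 : ℤ) = -1 := by
      rw [show (-8 : ℤ) = 4 * (-2) by norm_num, pt8_zpow, zpow_neg]
      have : (I : ℂ) ^ (2 : ℤ) = -1 := by exact_mod_cast I_sq
      rw [this]
      norm_num
    have hp8 : B1.pt (Real.pi / 8) ^ (8 : ℤ) = -1 := by exact_mod_cast pt8_eight
    have hm12 : B1.pt (Real.pi / 8) ^ (-12 : ℤ) = I := by
      rw [show (-12 : ℤ) = 4 * (-3) by norm_num, pt8_zpow, zpow_neg]
      have : (I : ℂ) ^ (3 : ℤ) = -I := by exact_mod_cast I_pow_three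
      rw [this, inv_neg, inv_I, neg_neg]
    have hp12 : B1.pt (Real.pi / 8) ^ (12 : ℤ) = -I := by
      rw [show (12 : ℤ) = 4 * 3 by norm_num, pt8_zpow]
      exact_mod_cast I_pow_three
    unfold B1.beta B1.eps cutting
    rw [← fPoly_eq, ← fPoly_eq]
    unfold sgn
    cases hp : C.par (C.cls i) <;> cases he : e i <;>
      simp only [Bool.not_true, Bool.not_false, Bool.false_eq_true, if_true, if_false,
        mul_neg, mul_one, neg_neg, Int.cast_neg, Int.cast_one, hm8, hp8, hm12, hp12] <;>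
      ring
  rw [h2] at h1
  have h5 : ((mom (fPoly g e) 0 - mom (fPoly g e) 2 : ℤ) : ℂ) -
        I * ((mom (fPoly g e) 1 - mom (fPoly g e) 3 : ℤ) : ℂ) -
        (C.mu e : ℂ) * M2.ev (Real.pi / 8) (fPoly g e) -
        (1 / 2) * ∑ i, (if C.par (C.cls i) = true then
          I * M2.ev (Real.pi / 8) (fPoly g (B1.chg e i)) else
          (sgn e i : ℂ) * (M2.ev (Real.pi / 8) (fPoly g e) -
            M2.ev (Real.pi / 8) (fPoly g (B1.chg e i)))) =
      (-1 / 4) * (-4 * (((mom (fPoly g e) 0 - mom (fPoly g e) 2 : ℤ) : ℂ) -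
        I * ((mom (fPoly g e) 1 - mom (fPoly g e) 3 : ℤ) : ℂ)) +
        6 * (C.mu e : ℂ) * M2.ev (Real.pi / 8) (fPoly g e) -
        (2 * (C.mu e : ℂ) * M2.ev (Real.pi / 8) (fPoly g e) - 2 * ∑ i,
        (if C.par (C.cls i) = true then
          I * M2.ev (Real.pi / 8) (fPoly g (B1.chg e i)) else
          (sgn e i : ℂ) * (M2.ev (Real.pi / 8) (fPoly g e) -
            M2.ev (Real.pi / 8) (fPoly g (B1.chg e i)))))) := by
    ring
  rw [h5, norm_mul]
  have h6 : ‖(-1 / 4 : ℂ)‖ = 1 / 4 := by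
    rw [norm_div, norm_neg, norm_one]
    norm_num
  rw [h6]
  have h7 : ‖(2 : ℂ)‖ = 2 := by norm_num
  rw [h7] at h1
  linarith

end Pool.Agent.ThA
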