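import Pool.Agent.ThA.FinK

/-!
# The second number `ChiK`: it does not change under 6-moves
-/

set_option autoImplicit false

open Complex LaurentPolynomial

namespace Pool.Agent.ThA

open Pool.Agent.GaussJones Pool.Agent.Helper16.Knotoid

/-- The sum of `k p_k` over the exponents `k` which are `2` modulo `6` minus the same sum over the
`k` which are `4` modulo `6`. -/
noncomputable def ChiK (P : ℤ[T;T⁻¹]) : ℤ :=
  (∑ k ∈ P.coeff.support.filter (fun k => k % 6 = 2), k * P.coeff k) -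
    ∑ k ∈ P.coeff.support.filter (fun k => k % 6 = 4), k * P.coeff k

theorem ChiK_one : ChiK 1 = 0 := by
  have h : ∀ k, (1 : ℤ[T;T⁻¹]).coeff k ≠ 0 → k = 0 := by
    intro k hk
    by_contra h
    apply hk
    have h1 : (1 : ℤ[T;T⁻¹]) = T 0 := T_zero.symm
    rw [h1, T_apply, if_neg (Ne.symm h)]
  unfold ChiK
  rw [Finset.sum_eq_zero, Finset.sum_eq_zero, sub_zero]
  · intro k hk
    rw [h k (Finsupp.mem_support_iff.1 (Finset.mem_filter.1 hk).1), zero_mul]
  · intro k hk
    rw [h k (Finsupp.mem_support_iff.1 (Finset.mem_filter.1 hk).1), zero_mul]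

/-- the sine of `π k / 3` for even `k` -/
theorem sin_K (k : ℤ) (hk : (2 : ℤ) ∣ k) : Real.sin (k * (Real.pi / 3)) =
    Real.sqrt 3 / 2 * ((if k % 6 = 2 then 1 else 0) - if k % 6 = 4 then 1 else 0) := by
  have hs1 : Real.sin (2 * Real.pi / 3) = Real.sqrt 3 / 2 := by
    have : 2 * Real.pi / 3 = Real.pi - Real.pi / 3 := by ring
    rw [this, Real.sin_pi_sub, Real.sin_pi_div_three]
  have hc : ∀ y : ℝ, Real.sin ((k / 6 : ℤ) * (2 * Real.pi) + y) = Real.sin y := by
    intro y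
    rw [add_comm, Real.sin_add_int_mul_two_pi]
  have h0 : k % 6 = 0 ∨ k % 6 = 2 ∨ k % 6 = 4 := by omega
  have hk6 : (k : ℝ) = 6 * ((k / 6 : ℤ) : ℝ) + ((k % 6 : ℤ) : ℝ) := by
    have := (Int.mul_ediv_add_emod k 6).symm
    exact_mod_cast congrArg (fun z : ℤ => (z : ℝ)) this
  rcases h0 with h | h | h
  · have h1 : (k : ℝ) * (Real.pi / 3) = (k / 6 : ℤ) * (2 * Real.pi) + 0 := by
      rw [hk6, h]
      push_cast
      ring
    rw [h1, hc, Real.sin_zero, if_neg (by omega), if_neg (by omega)]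
    ring
  · have h1 : (k : ℝ) * (Real.pi / 3) = (k / 6 : ℤ) * (2 * Real.pi) + 2 * Real.pi / 3 := by
      rw [hk6, h]
      push_cast
      ring
    rw [h1, hc, hs1, if_pos h, if_neg (by omega)]
    ring
  · have h1 : (k : ℝ) * (Real.pi / 3) =
        (k / 6 : ℤ) * (2 * Real.pi) + (-(2 * Real.pi / 3) + (1 : ℤ) * (2 * Real.pi)) := by
      rw [hk6, h]
      push_cast
      ring
    rw [h1, hc, Real.sin_add_int_mul_two_pi, Real.sin_neg, hs1, if_neg (by omega), if_pos h]
    ring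

/-- the real part of the derivative at `-π / 3` -/
theorem deriv_reK (P : ℤ[T;T⁻¹]) (h2 : ∀ k, P.coeff k ≠ 0 → (2 : ℤ) ∣ k) (D : ℂ)
    (hD : HasDerivAt (fun x : ℝ => M2.ev x P) D (-(Real.pi / 3))) :
    D.re = Real.sqrt 3 / 2 * (ChiK P : ℝ) := by
  rw [hD.unique (hasDerivAt_ev P (-(Real.pi / 3))), re_sum]
  have h1 : ∀ k ∈ P.coeff.support, ((P.coeff k : ℂ) * (k * I * M2.ev (-(Real.pi / 3)) (T k))).re =
      Real.sqrt 3 / 2 * ((if k % 6 = 2 then ((k * P.coeff k : ℤ) : ℝ) else 0) -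
        if k % 6 = 4 then ((k * P.coeff k : ℤ) : ℝ) else 0) := by
    intro k hk
    rw [M2.ev_T]
    have h4 : (k : ℂ) * (((-(Real.pi / 3) : ℝ) : ℂ) * I) = ((-(k * (Real.pi / 3)) : ℝ) : ℂ) * I := by
      push_cast
      ring
    have h5 : (cexp (((-(k * (Real.pi / 3)) : ℝ) : ℂ) * I)).im = -Real.sin (k * (Real.pi / 3)) := by
      rw [Complex.exp_ofReal_mul_I_im, Real.sin_neg]
    have h6 : ∀ z : ℂ, ((P.coeff k : ℂ) * (k * I * z)).re = -((k * P.coeff k : ℤ) : ℝ) * z.im := by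
      intro z
      simp [mul_im, mul_re]
      ring
    rw [h4, h6, h5, sin_K k (h2 k (Finsupp.mem_support_iff.1 hk))]
    split_ifs <;> ring
  rw [Finset.sum_congr rfl h1, ← Finset.mul_sum, Finset.sum_sub_distrib, ← Finset.sum_filter,
    ← Finset.sum_filter]
  unfold ChiK
  push_cast
  ring

/-- `ChiK` in terms of the states, for every state `σ` -/
theorem ChiK_fsum {n : ℕ} (κ : (Fin n → Bool) → ℕ) (e σ : Fin n → Bool) :
    (ChiK (M2.fsum κ e) : ℝ) = -4 * (M2.EE κ e σ).re := by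
  have h6 := deriv_reK _ (fun k hk => exponents_even κ e k hk) _ (M2.mainK κ e σ)
  have h7 : (-6 * (M2.PP e σ : ℂ) * I - 2 * (Real.sqrt 3 : ℂ) * M2.EE κ e σ).re =
      -(2 * Real.sqrt 3 * (M2.EE κ e σ).re) := by
    simp [sub_re, mul_im, mul_re]
  rw [h7] at h6
  have h9 : 0 < Real.sqrt 3 := Real.sqrt_pos.2 (by norm_num)
  have h10 : Real.sqrt 3 * ((ChiK (M2.fsum κ e) : ℝ) + 4 * (M2.EE κ e σ).re) = 0 := by
    linear_combination (-2) * h6
  have h11 := (mul_eq_zero.1 h10).resolve_left h9.ne'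
  linarith

/-- **`ChiK` does not change under 6-moves** -/
theorem Insertion.ChiK_eq {n n' : ℕ} {g : Code n} {e : Fin n → Bool} {g' : Code n'}
    {e' : Fin n' → Bool} (I : Insertion g e g' e') (h6 : (6 : ℤ) ∣ I.total) :
    ChiK (fPoly g' e') = ChiK (fPoly g e) := by
  have h1 := ChiK_fsum (kap g) e (fun _ => true)
  have h2 := ChiK_fsum (kap g') e' (I.lift fun _ => true)
  rw [I.EE_eq h6, ← h1] at h2
  exact_mod_cast h2

/-- **the 6-move law for knotoids, second number** -/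
theorem knotoid_chi {D D' : KDiagram} {k : ℤ} (h : KMoves D D' k) : ChiK D'.f = ChiK D.f := by
  have hf : ∀ D : KDiagram, D.f = fPoly D.D.pos D.D.sign := fun D => normalizedBracket_eq D.D
  induction h with
  | refl => rfl
  | same D' D'' k _ hs ih => rw [hs, ih]
  | insert D' D'' k I _ h6 ih => rw [hf D'', I.ChiK_eq h6, ← hf D', ih]
  | delete D' D'' k I _ h6 ih => rw [hf D'', ← I.ChiK_eq h6, ← hf D', ih]

/-- the sum of signs is divisible by six -/
theorem six_dvd {D D' : KDiagram} {k : ℤ} (h : KMoves D D' k) : (6 : ℤ) ∣ k := by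
  induction h with
  | refl => exact dvd_zero _
  | same _ _ _ _ _ ih => exact ih
  | insert D' D'' k I _ h6 ih =>
    refine dvd_add ih ?_
    split_ifs
    · exact h6
    · exact dvd_zero _
  | delete D' D'' k I _ h6 ih =>
    refine dvd_sub ih ?_
    split_ifs
    · exact h6
    · exact dvd_zero _

end Pool.Agent.ThA
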