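import Pool.Agent.ThA.Chain
import Pool.Agent.ThA.ChainK

set_option autoImplicit false

/-!
# Quantities which are not changed by 6-moves
-/

namespace Pool.Agent.ThA

open Pool.Agent.GaussJones LaurentPolynomial

variable {n n' : ℕ} {g : Code n} {e : Fin n → Bool} {g' : Code n'} {e' : Fin n' → Bool}

/-- a quantity given by the real part of the mean excess is not changed by an insertion -/
theorem Insertion.re_eq (Φ : ℤ[T;T⁻¹] → ℤ) (I : Insertion g e g' e') (h6 : (6 : ℤ) ∣ I.total)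
    (σ : Fin n → Bool) (h : (Φ (fPoly g e) : ℝ) = (M2.EE (kap g) e σ).re)
    (h' : (Φ (fPoly g' e') : ℝ) = (M2.EE (kap g') e' (I.lift σ)).re) :
    Φ (fPoly g' e') = Φ (fPoly g e) := by
  rw [I.EE_eq h6, ← h] at h'
  exact_mod_cast h'

/-- a quantity which is not changed by insertions is not changed by 6-moves -/
theorem Moves.const {α : Type} (Φ : ℤ[T;T⁻¹] → α)
    (hΦ : ∀ (n n' : ℕ) (g : Code n) (e : Fin n → Bool) (g' : Code n') (e' : Fin n' → Bool)
      (I : Insertion g e g' e'), EvenCode g' → (6 : ℤ) ∣ I.total →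
      Φ (fPoly g' e') = Φ (fPoly g e))
    {D D' : Diagram} {k : ℤ} (h : Moves D D' k) : Φ D'.f = Φ D.f := by
  induction h with
  | refl => rfl
  | same D' D'' k _ hf ih => rw [hf, ih]
  | insert D' D'' k I _ hE h6 ih => exact (hΦ _ _ _ _ _ _ I hE h6).trans ih
  | delete D' D'' k I _ hE h6 ih => exact (hΦ _ _ _ _ _ _ I hE h6).symm.trans ih

/-- **the real part**: if `Φ (f)` is the real part of the mean excess for every even code, then `Φ (f)`
is not changed by 6-moves -/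
theorem Moves.re_const (Φ : ℤ[T;T⁻¹] → ℤ)
    (hs : ∀ (n : ℕ) (g : Code n) (e σ : Fin n → Bool), EvenCode g →
      (Φ (fPoly g e) : ℝ) = (M2.EE (kap g) e σ).re)
    {D D' : Diagram} {k : ℤ} (h : Moves D D' k) : Φ D'.f = Φ D.f := by
  refine h.const Φ fun n n' g e g' e' I hE h6 => ?_
  have h1 : EvenCode g := I.even_old (I.even_total (by
    obtain ⟨c, hc⟩ := h6
    exact ⟨3 * c, by omega⟩)) hE
  exact I.re_eq Φ h6 (fun _ => true) (hs n g e _ h1) (hs n' g' e' _ hE)

/-- a quantity which is not changed by insertions is not changed by 6-moves of knotoids -/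
theorem KMoves.const {α : Type} (Φ : ℤ[T;T⁻¹] → α)
    (hf : ∀ D : KDiagram, D.f = fPoly D.D.pos D.D.sign)
    (hΦ : ∀ (n n' : ℕ) (g : Code n) (e : Fin n → Bool) (g' : Code n') (e' : Fin n' → Bool)
      (I : Insertion g e g' e'), (6 : ℤ) ∣ I.total → Φ (fPoly g' e') = Φ (fPoly g e))
    {D D' : KDiagram} {k : ℤ} (h : KMoves D D' k) : Φ D'.f = Φ D.f := by
  induction h with
  | refl => rfl
  | same D' D'' k _ hs ih => rw [hs, ih]
  | insert D' D'' k I _ h6 ih =>
    rw [← ih, hf D', hf D'']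
    exact hΦ _ _ _ _ _ _ I h6
  | delete D' D'' k I _ h6 ih =>
    rw [← ih, hf D', hf D'']
    exact (hΦ _ _ _ _ _ _ I h6).symm

/-- **the real part, knotoids** -/
theorem KMoves.re_const (Φ : ℤ[T;T⁻¹] → ℤ)
    (hf : ∀ D : KDiagram, D.f = fPoly D.D.pos D.D.sign)
    (hs : ∀ (n : ℕ) (g : Code n) (e σ : Fin n → Bool),
      (Φ (fPoly g e) : ℝ) = (M2.EE (kap g) e σ).re)
    {D D' : KDiagram} {k : ℤ} (h : KMoves D D' k) : Φ D'.f = Φ D.f :=
  h.const Φ hf fun _ _ _ _ _ _ I h6 =>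
    I.re_eq Φ h6 (fun _ => true) (hs _ _ _ _) (hs _ _ _ _)

end Pool.Agent.ThA
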