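import Pool.Agent.ThA.Defs

set_option autoImplicit false

/-!
# Theorem A: the numbers of twist classes with a given residue modulo 6, and the sharp bound
-/

namespace Pool.Agent.ThA

open Pool.Agent.GaussJones

variable {n m : ℕ} {g : Code n}

namespace TwistClasses

/-- The number of classes whose sum of signs is `1` or `-1` modulo `6`. -/
noncomputable def t₁ (C : TwistClasses g m) (e : Fin n → Bool) : ℕ :=
  Nat.card {c : Fin m // ¬ (2 : ℤ) ∣ C.length e c ∧ ¬ (3 : ℤ) ∣ C.length e c}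

/-- The number of classes whose sum of signs is `2` or `-2` modulo `6`. -/
noncomputable def t₂ (C : TwistClasses g m) (e : Fin n → Bool) : ℕ :=
  Nat.card {c : Fin m // (2 : ℤ) ∣ C.length e c ∧ ¬ (3 : ℤ) ∣ C.length e c}

/-- The number of classes whose sum of signs is `3` modulo `6`. -/
noncomputable def t₃ (C : TwistClasses g m) (e : Fin n → Bool) : ℕ :=
  Nat.card {c : Fin m // ¬ (2 : ℤ) ∣ C.length e c ∧ (3 : ℤ) ∣ C.length e c}

end TwistClasses

/-- The bound `t₁ + t₂ + 3 ^ t₃ * (2 ^ t₁ * (3 ^ t₂ + 1) / 2 - 1)`; it is `0` for `t₁ = t₂ = 0`. -/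
noncomputable def bndS (t₁ t₂ t₃ : ℕ) : ℝ :=
  t₁ + t₂ + 3 ^ t₃ * (2 ^ t₁ * (3 ^ t₂ + 1) / 2 - 1)

end Pool.Agent.ThA
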