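import Mathlib
import Pool.Agent.UNI.Knot
import Pool.Agent.Helper16.Jones.Knot

/-!
# ThA, module Even: in a planar diagram every crossing is interlaced with an even number of others
-/

set_option autoImplicit false

namespace Pool.Agent.ThA

open Pool.Agent.GaussJones Pool.Agent.UNI
open Pool.Agent.Helper16.Knotoid Pool.Agent.Helper16.Knotoid.GaussDiagram
open Pool.Agent.Helper16.Jones

/-- **Gauss**: in the planar diagram of a knot every crossing is interlaced with an even number of
crossings.  The Gauss code of the diagram `D` is `D.pos`. -/
theorem even_of_planar {n : ℕ} (D : KnotDiagram n) (hD : D.Planar) (i : Fin n) :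
    Even (Nat.card {j : Fin n // GaussJones.Interlaced D.pos i j}) := by
  classical
  have h := D.long.even_of_region (KnotDiagram.long_planar hD) (KnotDiagram.long_region hD) i
  have h1 : ∀ j, D.long.lam i j = if GaussJones.Interlaced D.pos i j then 1 else 0 := by
    intro j
    have h2 : D.long.lam i j = 1 ↔ GaussJones.Interlaced D.pos i j := by
      have h3 := cut_iff D.long D.long.sign i j
      unfold GaussDiagram.Cut at h3
      rw [interlaced_iff D.pos D.sign]
      unfold lam
      rw [← h3]
      constructor
      · rintro (h4 | h4)
        · exact h4
        · exact absurd rfl h4.2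
      · exact Or.inl
    by_cases h4 : GaussJones.Interlaced D.pos i j
    · rw [if_pos h4, h2.2 h4]
    · rw [if_neg h4]
      have h5 : D.long.lam i j ≠ 1 := fun h6 => h4 (h2.1 h6)
      revert h5
      generalize D.long.lam i j = x
      revert x
      decide
  unfold Lv at h
  simp only [h1, Pi.one_apply, mul_one, Finset.sum_boole] at h
  rw [Nat.card_eq_fintype_card, Fintype.card_subtype]
  exact (ZMod.natCast_eq_zero_iff_even).1 h

end Pool.Agent.ThA
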