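import Pool.Agent.ThA.L4

/-!
# ThA, module L3C: the second integer `Chi` of a Laurent polynomial

For `f = ∑ p_k A^k`, `V = ∑ v_m t^m` with `t = A^(-4)`, `Chi f = ∑ χ(m) m v_m`, where `χ` is the
Legendre symbol modulo `3`.  It is the real part of the mean excess of every state.
-/

set_option autoImplicit false

open Complex LaurentPolynomial

namespace Pool.Agent.ThA

open Pool.Agent.GaussJones

/-- The sum of `χ(m) m v_m`, for `V = ∑ v_m t^m` with `t = A^(-4)`, where `χ(m) = 1, -1, 0` for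
`m = 1, 2, 0` modulo `3`. -/
noncomputable def Chi (P : ℤ[T;T⁻¹]) : ℤ :=
  ∑ k ∈ P.coeff.support, k / 4 * (if k / 4 % 3 = 1 then 1 else if k / 4 % 3 = 2 then -1 else 0) *
    P.coeff k

theorem Chi_one : Chi 1 = 0 := by
  unfold Chi
  refine Finset.sum_eq_zero fun k _ => ?_
  have h1 : (1 : ℤ[T;T⁻¹]) = T 0 := T_zero.symm
  rw [h1, T_apply]
  by_cases h : (0 : ℤ) = k
  · subst h
    simp
  · rw [if_neg h, mul_zero]

/-- the imaginary part of `exp (i π k / 6)` for `k` divisible by `4` -/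
theorem im_T (k : ℤ) (hk : (4 : ℤ) ∣ k) :
    (M2.ev (Real.pi / 6) (T k)).im =
      Real.sqrt 3 / 2 * ((if k / 4 % 3 = 1 then 1 else if k / 4 % 3 = 2 then -1 else 0 : ℤ) : ℝ) := by
  obtain ⟨m, rfl⟩ := hk
  rw [M2.ev_T]
  have h1 : (((4 * m : ℤ) : ℂ) * (((Real.pi / 6 : ℝ) : ℂ) * I)) =
      ((m * (2 * Real.pi / 3) : ℝ) : ℂ) * I := by
    push_cast
    ring
  rw [h1, exp_ofReal_mul_I_im]
  have hm4 : 4 * m / 4 = m := by omega
  rw [hm4]
  have hc : ∀ (j : ℤ) (y : ℝ), Real.sin ((3 * j : ℤ) * (2 * Real.pi / 3) + y) = Real.sin y := by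
    intro j y
    have : ((3 * j : ℤ) : ℝ) * (2 * Real.pi / 3) + y = y + j * (2 * Real.pi) := by
      push_cast
      ring
    rw [this, Real.sin_add_int_mul_two_pi]
  have hpi3 : Real.sin (2 * Real.pi / 3) = Real.sqrt 3 / 2 := by
    have : 2 * Real.pi / 3 = Real.pi - Real.pi / 3 := by ring
    rw [this, Real.sin_pi_sub, Real.sin_pi_div_three]
  have h0 : m % 3 = 0 ∨ m % 3 = 1 ∨ m % 3 = 2 := by omega
  rcases h0 with h | h | h
  · rw [if_neg (by omega), if_neg (by omega)]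
    have : ((m : ℤ) : ℝ) * (2 * Real.pi / 3) = (3 * (m / 3) : ℤ) * (2 * Real.pi / 3) + 0 := by
      rw [add_zero]
      congr 2
      omega
    rw [this, hc, Real.sin_zero]
    simp
  · rw [if_pos h]
    have : ((m : ℤ) : ℝ) * (2 * Real.pi / 3) =
        (3 * (m / 3) : ℤ) * (2 * Real.pi / 3) + 2 * Real.pi / 3 := by
      have h5 : (m : ℝ) = ((3 * (m / 3) : ℤ) : ℝ) + 1 := by
        have : m = 3 * (m / 3) + 1 := by omega
        exact_mod_cast congrArg (fun z : ℤ => (z : ℝ)) this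
      rw [h5]
      ring
    rw [this, hc, hpi3]
    simp
  · rw [if_neg (by omega), if_pos h]
    have : ((m : ℤ) : ℝ) * (2 * Real.pi / 3) =
        (3 * (m / 3 + 1) : ℤ) * (2 * Real.pi / 3) + -(2 * Real.pi / 3) := by
      have h5 : (m : ℝ) = ((3 * (m / 3 + 1) : ℤ) : ℝ) - 1 := by
        have : m = 3 * (m / 3 + 1) - 1 := by omega
        exact_mod_cast congrArg (fun z : ℤ => (z : ℝ)) this
      rw [h5]
      ring
    rw [this, hc, Real.sin_neg, hpi3]
    simp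

/-- **L3C.** The real part of the derivative of `x ↦ f (exp (x i))` at `π / 6`. -/
theorem deriv_re (P : ℤ[T;T⁻¹]) (h4 : ∀ k, P.coeff k ≠ 0 → (4 : ℤ) ∣ k) (D : ℂ)
    (hD : HasDerivAt (fun x : ℝ => M2.ev x P) D (Real.pi / 6)) :
    D.re = -2 * Real.sqrt 3 * (Chi P : ℝ) := by
  rw [hD.unique (hasDerivAt_ev P (Real.pi / 6)), re_sum]
  unfold Chi
  push_cast
  rw [Finset.mul_sum]
  refine Finset.sum_congr rfl fun k hk => ?_
  have h1 : ((P.coeff k : ℂ) * (k * I * M2.ev (Real.pi / 6) (T k))).re =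
      -((k : ℝ) * P.coeff k * (M2.ev (Real.pi / 6) (T k)).im) := by
    simp [mul_im, mul_re]
    ring
  have h4k : (4 : ℤ) ∣ k := h4 k (Finsupp.mem_support_iff.1 hk)
  have h6 : (k : ℝ) = 4 * ((k / 4 : ℤ) : ℝ) := by
    have : k = 4 * (k / 4) := by omega
    exact_mod_cast congrArg (fun z : ℤ => (z : ℝ)) this
  rw [h1, im_T k h4k]
  push_cast
  rw [h6]
  ring

/-- **`Chi` in terms of the states**, for every cutting state `σ` -/
theorem Chi_state {n : ℕ} {g : Code n} (hg : EvenCode g) (e σ : Fin n → Bool) :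
    (Chi (fPoly g e) : ℝ) = (M2.EE (kap g) e σ).re := by
  obtain ⟨ε, -, h2, h3⟩ := M2.main (kap g) e (kap_switch hg)
  have h5 : (ε : ℂ) = 1 := h2.symm.trans (ev_one hg e)
  have h6 := deriv_re _ (L1.exponents hg e) _ (h3 σ)
  rw [h5, one_mul] at h6
  have h7 : (-6 * (M2.PP e σ : ℂ) * I - 2 * (Real.sqrt 3 : ℂ) * M2.EE (kap g) e σ).re =
      -2 * Real.sqrt 3 * (M2.EE (kap g) e σ).re := by
    simp [sub_re, mul_im, mul_re]
  rw [h7] at h6
  have h9 : -2 * Real.sqrt 3 ≠ 0 := by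
    have := Real.sqrt_pos.2 (show (0 : ℝ) < 3 by norm_num)
    intro h
    linarith
  exact (mul_left_cancel₀ h9 h6).symm

end Pool.Agent.ThA
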