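import Pool.Agent.ThA.DefsS
import Pool.Agent.ThA.M4K
import Pool.Agent.ThA.Open

/-!
# ThA, module M4S: the sharper bound for the mean value over the sets of classes which are cut
-/

set_option autoImplicit false

namespace Pool.Agent.ThA

open Finset Pool.Agent.ThmA

section Mean

variable {ι : Type*} [DecidableEq ι]

omit [DecidableEq ι] in
/-- the total variation of the measure with the weights `w c`, `1 - w c`, `|w c| = 1` -/
noncomputable def tv (w : ι → ℂ) (S : Finset ι) : ℝ := ∏ c ∈ S, (1 + ‖1 - w c‖)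

omit [DecidableEq ι] in
theorem tv_pos (w : ι → ℂ) (S : Finset ι) : 0 < tv w S :=
  Finset.prod_pos fun _ _ => by positivity

omit [DecidableEq ι] in
theorem tv_le_pow (w : ι → ℂ) (S : Finset ι) (r : ℝ) (h : ∀ c ∈ S, ‖1 - w c‖ ≤ r) :
    tv w S ≤ (1 + r) ^ S.card := by
  unfold tv
  refine (Finset.prod_le_prod (fun c _ => by positivity) fun c hc =>
    add_le_add_right (h c hc) 1).trans ?_
  rw [Finset.prod_const]

theorem tv_union (w : ι → ℂ) (S S' : Finset ι) (h : Disjoint S S') :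
    tv w (S ∪ S') = tv w S * tv w S' := Finset.prod_union h

theorem norm_mean_le_tv (w : ι → ℂ) (hw : ∀ c, ‖w c‖ = 1) (S : Finset ι) (X : Finset ι → ℂ)
    (hX : ∀ F, ‖X F‖ ≤ 1) : ‖mean w S X‖ ≤ tv w S := by
  calc ‖mean w S X‖ ≤ ∑ F ∈ S.powerset, ‖(∏ c ∈ F, w c) * (∏ c ∈ S \ F, (1 - w c)) * X F‖ :=
        norm_sum_le _ _
    _ ≤ ∑ F ∈ S.powerset, (∏ c ∈ F, (1 : ℝ)) * ∏ c ∈ S \ F, ‖1 - w c‖ := by
        refine Finset.sum_le_sum fun F _ => ?_
        rw [norm_mul, norm_mul, norm_prod, norm_prod, Finset.prod_congr rfl fun c _ => hw c]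
        refine mul_le_of_le_one_right ?_ (hX F)
        exact mul_nonneg (Finset.prod_nonneg fun _ _ => zero_le_one)
          (Finset.prod_nonneg fun _ _ => norm_nonneg _)
    _ = tv w S := (Finset.prod_add (fun _ => (1 : ℝ)) (fun c => ‖1 - w c‖) S).symm

/-- the mean value of a function with steps in `[0, 2]`, relative to a base set -/
theorem norm_mean_sub_tv (w : ι → ℂ) (hw : ∀ c, ‖w c‖ = 1) (X : Finset ι → ℤ)
    (hX : ∀ F, ∀ c, c ∉ F → X F ≤ X (insert c F) ∧ X (insert c F) ≤ X F + 2) (r : ℝ) (hr : 0 < r)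
    (S0 S : Finset ι) (hd : Disjoint S0 S) (hS : ∀ c ∈ S, ‖1 - w c‖ ≤ r) :
    ‖mean w (S0 ∪ S) (fun F => (X F : ℂ)) - mean w S0 (fun F => (X F : ℂ))‖ ≤
      S.card + tv w S0 * (((1 + r) ^ S.card - 1) / r) := by
  induction S using Finset.induction_on with
  | empty => simp
  | insert a S ha ih =>
    have hd' : Disjoint S0 S := Finset.disjoint_of_subset_right (Finset.subset_insert a S) hd
    have ha0 : a ∉ S0 := fun h => (Finset.disjoint_left.1 hd h) (Finset.mem_insert_self a S)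
    have haU : a ∉ S0 ∪ S := fun h => (Finset.mem_union.1 h).elim ha0 ha
    have hS' : ∀ c ∈ S, ‖1 - w c‖ ≤ r := fun c hc => hS c (Finset.mem_insert_of_mem hc)
    rw [Finset.union_insert, mean_insert w (S0 ∪ S) _ haU]
    have hd1 : mean w (S0 ∪ S) (fun F => ((X (insert a F) : ℤ) : ℂ) - (X F : ℂ)) =
        1 + mean w (S0 ∪ S)
          (fun F => ((if a ∈ F then 0 else X (insert a F) - X F - 1 : ℤ) : ℂ)) := by
      rw [← mean_one w (S0 ∪ S)]
      unfold mean
      rw [← Finset.sum_add_distrib]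
      refine Finset.sum_congr rfl fun F hF => ?_
      have haF : a ∉ F := fun h => haU (Finset.mem_powerset.1 hF h)
      beta_reduce
      rw [if_neg haF]
      push_cast
      ring
    have hb : ‖mean w (S0 ∪ S)
        (fun F => ((if a ∈ F then 0 else X (insert a F) - X F - 1 : ℤ) : ℂ))‖ ≤
        tv w S0 * (1 + r) ^ S.card := by
      refine (norm_mean_le_tv w hw _ _ fun F => ?_).trans ?_
      · rw [Complex.norm_intCast]
        have h1 : |(if a ∈ F then 0 else X (insert a F) - X F - 1 : ℤ)| ≤ 1 := by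
          by_cases haF : a ∈ F
          · rw [if_pos haF]
            norm_num
          · rw [if_neg haF]
            obtain ⟨h, h'⟩ := hX F a haF
            rw [abs_le]
            constructor <;> omega
        exact_mod_cast h1
      · rw [tv_union w S0 S hd']
        exact mul_le_mul_of_nonneg_left (tv_le_pow w S r hS') (tv_pos w S0).le
    have h3 : ‖w a * mean w (S0 ∪ S) (fun F => ((X (insert a F) : ℤ) : ℂ) - (X F : ℂ))‖ ≤
        1 + tv w S0 * (1 + r) ^ S.card := by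
      rw [norm_mul, hw a, one_mul, hd1]
      refine (norm_add_le _ _).trans ?_
      rw [norm_one]
      exact add_le_add le_rfl hb
    have h4 := ih hd' hS'
    rw [Finset.card_insert_of_notMem ha, pow_succ]
    push_cast
    calc ‖mean w (S0 ∪ S) (fun F => (X F : ℂ)) +
          w a * mean w (S0 ∪ S) (fun F => ((X (insert a F) : ℤ) : ℂ) - (X F : ℂ)) -
            mean w S0 (fun F => (X F : ℂ))‖
        = ‖(mean w (S0 ∪ S) (fun F => (X F : ℂ)) - mean w S0 (fun F => (X F : ℂ))) +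
          w a * mean w (S0 ∪ S) (fun F => ((X (insert a F) : ℤ) : ℂ) - (X F : ℂ))‖ := by
          congr 1
          ring
      _ ≤ (S.card + tv w S0 * (((1 + r) ^ S.card - 1) / r)) +
          (1 + tv w S0 * (1 + r) ^ S.card) := (norm_add_le _ _).trans (add_le_add h4 h3)
      _ = (S.card : ℝ) + 1 + tv w S0 * (((1 + r) ^ S.card * (1 + r) - 1) / r) := by
          field_simp
          ring

end Mean

/-- the bound in terms of three sets of classes -/
theorem im_mcut_le_S {m : ℕ} (Z : Fin m → ℂ) (Y : Finset (Fin m) → ℤ) (hZ : ∀ c, ‖Z c‖ = 1)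
    (hY : ∀ F, ∀ c, c ∉ F → Y F - 2 ≤ Y (insert c F) ∧ Y (insert c F) ≤ Y F)
    (S1 S2 S3 : Finset (Fin m)) (h31 : Disjoint S3 S1) (h32 : Disjoint (S3 ∪ S1) S2)
    (h3 : ∀ c ∈ S3, (Z c).im = 0) (h1 : ∀ c ∈ S1, ‖1 - Z c‖ ≤ 1)
    (h0 : ∀ c, c ∉ S1 → c ∉ S2 → c ∉ S3 → Z c = 1) :
    |(mcut Z Y).im| ≤ bndS S1.card S2.card S3.card := by
  set B := (S3 ∪ S1) ∪ S2 with hBdef
  have hB : ∀ c, c ∉ B → Z c = 1 := fun c hc =>
    h0 c (fun h => hc (Finset.mem_union_left _ (Finset.mem_union_right _ h)))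
      (fun h => hc (Finset.mem_union_right _ h))
      fun h => hc (Finset.mem_union_left _ (Finset.mem_union_left _ h))
  have hX : ∀ F, ∀ c, c ∉ F → Y (B \ F) ≤ Y (B \ insert c F) ∧
      Y (B \ insert c F) ≤ Y (B \ F) + 2 := fun F c hc => by
    by_cases hcB : c ∈ B
    · have h2 : B \ F = insert c (B \ insert c F) := by
        ext x
        simp only [Finset.mem_sdiff, Finset.mem_insert, not_or]
        constructor
        · rintro ⟨h, h'⟩
          by_cases hx : x = c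
          · exact Or.inl hx
          · exact Or.inr ⟨h, hx, h'⟩
        · rintro (h | ⟨h, -, h'⟩)
          · exact h ▸ ⟨hcB, hc⟩
          · exact ⟨h, h'⟩
      have h3 := hY (B \ insert c F) c (fun h => (Finset.mem_sdiff.1 h).2 (Finset.mem_insert_self _ _))
      rw [← h2] at h3
      omega
    · have h4 : B \ insert c F = B \ F := by
        ext x
        simp only [Finset.mem_sdiff, Finset.mem_insert, not_or]
        constructor
        · rintro ⟨h, -, h'⟩
          exact ⟨h, h'⟩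
        · rintro ⟨h, h'⟩
          exact ⟨h, fun hx => hcB (hx ▸ h), h'⟩
      rw [h4]
      omega
  have hn2 : ∀ c, ‖1 - Z c‖ ≤ 2 := fun c => by
    refine (norm_sub_le _ _).trans ?_
    rw [norm_one, hZ c]
    norm_num
  have k1 := norm_mean_sub_tv Z hZ (fun F => Y (B \ F)) hX 1 one_pos S3 S1 h31 h1
  have k2 := norm_mean_sub_tv Z hZ (fun F => Y (B \ F)) hX 2 two_pos (S3 ∪ S1) S2 h32
    fun c _ => hn2 c
  have v3 : tv Z S3 ≤ 3 ^ S3.card := by
    have := tv_le_pow Z S3 2 fun c _ => hn2 c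
    norm_num at this
    exact this
  have v1 : tv Z S1 ≤ 2 ^ S1.card := by
    have := tv_le_pow Z S1 1 h1
    norm_num at this
    exact this
  have v31 : tv Z (S3 ∪ S1) ≤ 3 ^ S3.card * 2 ^ S1.card := by
    rw [tv_union Z S3 S1 h31]
    exact mul_le_mul v3 v1 (tv_pos Z S1).le (by positivity)
  have e1 : (0 : ℝ) ≤ 2 ^ S1.card - 1 := by
    have : (1 : ℝ) ≤ 2 ^ S1.card := one_le_pow₀ (by norm_num)
    linarith
  have e2 : (0 : ℝ) ≤ (3 ^ S2.card - 1) / 2 := by
    have : (1 : ℝ) ≤ 3 ^ S2.card := one_le_pow₀ (by norm_num)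
    linarith
  have m1 := mul_le_mul_of_nonneg_right v3 e1
  have m2 := mul_le_mul_of_nonneg_right v31 e2
  rw [show (1 : ℝ) + 1 = 2 by norm_num, div_one] at k1
  rw [show (1 : ℝ) + 2 = 3 by norm_num] at k2
  have h4 : (mcut Z Y).im = ((mean Z ((S3 ∪ S1) ∪ S2) (fun F => ((Y (B \ F) : ℤ) : ℂ)) -
      mean Z (S3 ∪ S1) (fun F => ((Y (B \ F) : ℤ) : ℂ))) +
      (mean Z (S3 ∪ S1) (fun F => ((Y (B \ F) : ℤ) : ℂ)) -
      mean Z S3 (fun F => ((Y (B \ F) : ℤ) : ℂ)))).im := by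
    rw [sub_add_sub_cancel, mcut_eq_mean Z Y B hB, Complex.sub_im,
      mean_im_zero Z S3 h3 (fun F => Y (B \ F)), sub_zero]
  rw [h4]
  refine (Complex.abs_im_le_norm _).trans ((norm_add_le _ _).trans ?_)
  unfold bndS
  have h5 : (S1.card : ℝ) + S2.card + 3 ^ S3.card * (2 ^ S1.card * (3 ^ S2.card + 1) / 2 - 1) =
      (S2.card + 3 ^ S3.card * 2 ^ S1.card * ((3 ^ S2.card - 1) / 2)) +
      (S1.card + 3 ^ S3.card * (2 ^ S1.card - 1)) := by ring
  rw [h5]
  refine add_le_add (k2.trans ?_) (k1.trans ?_)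
  · linarith
  · linarith

/-- `exp (- i π a / 3) = q b` for `a` prime to `6` -/
theorem exp_coprime (a : ℤ) (h2 : ¬ (2 : ℤ) ∣ a) (h3 : ¬ (3 : ℤ) ∣ a) :
    ∃ b : Bool, Complex.exp (-(Real.pi : ℂ) * Complex.I * (a : ℂ) / 3) = M2.q b := by
  have h : ∃ (k : ℤ) (b : Bool), a = 6 * k + if b then 1 else -1 := by
    have h5 : a % 6 = 1 ∨ a % 6 = 5 := by omega
    rcases h5 with h5 | h5
    · exact ⟨a / 6, true, by simp; omega⟩
    · exact ⟨a / 6 + 1, false, by simp; omega⟩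
  obtain ⟨k, b, rfl⟩ := h
  refine ⟨b, ?_⟩
  rw [q_exp]
  have h5 : -(Real.pi : ℂ) * Complex.I * (((6 * k + if b then 1 else -1 : ℤ)) : ℂ) / 3 =
      -(Real.pi : ℂ) * Complex.I * ((6 * k : ℤ) : ℂ) / 3 +
      -(Real.pi : ℂ) * Complex.I * (((if b then 1 else -1 : ℤ)) : ℂ) / 3 := by
    push_cast
    ring
  rw [h5, Complex.exp_add, (exp_eq_one_iff (6 * k)).2 (dvd_mul_right 6 k), one_mul]

theorem norm_q (b : Bool) : ‖M2.q b‖ = 1 := by
  rw [q_exp, norm_exp_eq]

theorem norm_one_sub (a : ℤ) (h2 : ¬ (2 : ℤ) ∣ a) (h3 : ¬ (3 : ℤ) ∣ a) :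
    ‖1 - Complex.exp (-(Real.pi : ℂ) * Complex.I * (a : ℂ) / 3)‖ ≤ 1 := by
  obtain ⟨b, hb⟩ := exp_coprime a h2 h3
  rw [hb, ← q_not, norm_q]

/-- the bound for `Z c = exp (- i π a_c / 3)` with integers `a_c` -/
theorem im_mcut_exp_le_S {m : ℕ} (a : Fin m → ℤ) (Y : Finset (Fin m) → ℤ)
    (hY : ∀ F, ∀ c, c ∉ F → Y F - 2 ≤ Y (insert c F) ∧ Y (insert c F) ≤ Y F) :
    |(mcut (fun c => Complex.exp (-(Real.pi : ℂ) * Complex.I * (a c : ℂ) / 3)) Y).im| ≤
      bndS (Nat.card {c : Fin m // ¬ (2 : ℤ) ∣ a c ∧ ¬ (3 : ℤ) ∣ a c})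
        (Nat.card {c : Fin m // (2 : ℤ) ∣ a c ∧ ¬ (3 : ℤ) ∣ a c})
        (Nat.card {c : Fin m // ¬ (2 : ℤ) ∣ a c ∧ (3 : ℤ) ∣ a c}) := by
  classical
  have h := im_mcut_le_S (fun c => Complex.exp (-(Real.pi : ℂ) * Complex.I * (a c : ℂ) / 3)) Y
    (fun c => norm_exp_eq (a c)) hY
    (univ.filter fun c => ¬ (2 : ℤ) ∣ a c ∧ ¬ (3 : ℤ) ∣ a c)
    (univ.filter fun c => (2 : ℤ) ∣ a c ∧ ¬ (3 : ℤ) ∣ a c)
    (univ.filter fun c => ¬ (2 : ℤ) ∣ a c ∧ (3 : ℤ) ∣ a c)
    (by
      rw [Finset.disjoint_left]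
      intro c h h'
      exact (Finset.mem_filter.1 h').2.2 (Finset.mem_filter.1 h).2.2)
    (by
      rw [Finset.disjoint_left]
      intro c h h'
      rw [Finset.mem_union, Finset.mem_filter, Finset.mem_filter] at h
      rw [Finset.mem_filter] at h'
      rcases h with h | h
      · exact h.2.1 h'.2.1
      · exact h.2.1 h'.2.1)
    (fun c hc => exp_im_zero (a c) (Finset.mem_filter.1 hc).2.2)
    (fun c hc => norm_one_sub (a c) (Finset.mem_filter.1 hc).2.1 (Finset.mem_filter.1 hc).2.2)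
    (fun c h1 h2 h3 => by
      refine (exp_eq_one_iff (a c)).2 ?_
      rw [Finset.mem_filter] at h1 h2 h3
      have h1' : ¬ (¬ (2 : ℤ) ∣ a c ∧ ¬ (3 : ℤ) ∣ a c) := fun h => h1 ⟨Finset.mem_univ _, h⟩
      have h2' : ¬ ((2 : ℤ) ∣ a c ∧ ¬ (3 : ℤ) ∣ a c) := fun h => h2 ⟨Finset.mem_univ _, h⟩
      have h3' : ¬ (¬ (2 : ℤ) ∣ a c ∧ (3 : ℤ) ∣ a c) := fun h => h3 ⟨Finset.mem_univ _, h⟩
      omega)
  rw [Nat.card_eq_fintype_card, Fintype.card_subtype, Nat.card_eq_fintype_card,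
    Fintype.card_subtype, Nat.card_eq_fintype_card, Fintype.card_subtype]
  exact h

open Pool.Agent.GaussJones in
/-- **the bound**, for every code -/
theorem im_EE_le_S {n m : ℕ} {g : Code n} (C : TwistClasses g m) (e : Fin n → Bool) :
    |(M2.EE (kap g) e (cutting C)).im| ≤ bndS (C.t₁ e) (C.t₂ e) (C.t₃ e) := by
  have h1 := im_mcut_exp_le_S (fun c => if C.par c = true then C.length e c else -C.length e c)
    (YY (MM C) C.cls) (fun F c _ => by
      have := YY_step3 (MM C) (MM_symm C) C.cls (MM_cls C) F c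
      omega)
  have h2 : (fun c => Complex.exp (-(Real.pi : ℂ) * Complex.I *
      (((if C.par c = true then C.length e c else -C.length e c : ℤ)) : ℂ) / 3)) =
      ZZ C.cls (zz C e) := funext fun c => (ZZ_exp C e c).symm
  rw [h2, ← EE_eq] at h1
  have h3 : ∀ (k : ℤ) (c : Fin m), (k ∣ (if C.par c = true then C.length e c
      else -C.length e c) ↔ k ∣ C.length e c) := by
    intro k c
    split_ifs
    · rfl
    · rw [Int.dvd_neg]
  simp only [h3] at h1
  exact h1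

end Pool.Agent.ThA
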