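import Pool.Agent.ThA.Const
import Pool.Agent.ThA.L3C
import Pool.Agent.ThA.M4S
import Pool.Agent.ThA.Even

/-!
# Theorem A: the bound with `bndS`, and `6 ∣ k`
-/

set_option autoImplicit false

namespace Pool.Agent.ThA

open Pool.Agent.GaussJones

variable {n m : ℕ} {g : Code n}

/-- **Theorem A**, with the numbers of classes whose sum of signs is `± 1`, `± 2`, `3` modulo `6` -/
theorem Lam_bound_S (hg : EvenCode g) (C : TwistClasses g m) (e : Fin n → Bool) :
    Real.sqrt 3 * |(Lam (fPoly g e) : ℝ) - C.mu e| ≤ bndS (C.t₁ e) (C.t₂ e) (C.t₃ e) := by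
  have h4 : 0 < Real.sqrt 3 := Real.sqrt_pos.2 (by norm_num)
  rw [Lam_eq hg C e, add_sub_cancel_left, abs_div, abs_of_pos h4, mul_div_cancel₀ _ h4.ne']
  exact im_EE_le_S C e

/-- the total change is divisible by `6` -/
theorem Moves.six_dvd {D D' : Diagram} {k : ℤ} (h : Moves D D' k) : (6 : ℤ) ∣ k := by
  induction h with
  | refl => exact dvd_zero _
  | same _ _ _ _ _ ih => exact ih
  | insert D' D'' k I _ _ h6 ih =>
    refine dvd_add ih ?_
    split_ifs
    · exact h6
    · exact dvd_zero _
  | delete D' D'' k I _ _ h6 ih =>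
    refine dvd_sub ih ?_
    split_ifs
    · exact h6
    · exact dvd_zero _

end Pool.Agent.ThA
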