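import Pool.Agent.ThA.L1K
import Pool.Agent.ThA.M2

/-!
# ThA, module L1K2: the exponents of every state sum are even
-/

set_option autoImplicit false

open LaurentPolynomial

namespace Pool.Agent.ThA

theorem L1K.Cls.prod {α : Type} (S : Finset α) (f : α → ℤ[T;T⁻¹]) (r : α → ℤ)
    (h : ∀ a ∈ S, L1K.Cls (r a) (f a)) : L1K.Cls (∑ a ∈ S, r a) (∏ a ∈ S, f a) := by
  classical
  induction S using Finset.induction_on with
  | empty =>
    rw [Finset.sum_empty, Finset.prod_empty]
    exact L1K.cls_one
  | insert a S ha ih =>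
    rw [Finset.sum_insert ha, Finset.prod_insert ha]
    exact (h a (Finset.mem_insert_self _ _)).mul
      (ih fun b hb => h b (Finset.mem_insert_of_mem hb))

/-- **K1.** The exponents of the normalized state sum are even, for every `κ`. -/
theorem exponents_even {n : ℕ} (κ : (Fin n → Bool) → ℕ) (e : Fin n → Bool) (k : ℤ)
    (hk : (M2.fsum κ e).coeff k ≠ 0) : (2 : ℤ) ∣ k := by
  have h3 : L1K.Cls 0 (M2.fsum κ e) := by
    unfold M2.fsum
    have h1 : L1K.Cls n (∏ i, if e i = true then (-T (-3) : ℤ[T;T⁻¹]) else -T 3) := by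
      have := L1K.Cls.prod (Finset.univ : Finset (Fin n))
        (fun i => if e i = true then (-T (-3) : ℤ[T;T⁻¹]) else -T 3) (fun _ => 1) (fun i _ => by
          beta_reduce
          split_ifs
          · exact (L1K.cls_T (by norm_num)).neg
          · exact (L1K.cls_T (by norm_num)).neg)
      rwa [Finset.sum_const, Finset.card_univ, Fintype.card_fin, nsmul_eq_mul, mul_one] at this
    have h2 : L1K.Cls n (∑ s : Fin n → Bool, (∏ i, if s i = e i then T 1 else T (-1)) *
        (-(T 2 + T (-2)) : ℤ[T;T⁻¹]) ^ κ s) := by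
      refine L1K.Cls.sum _ _ fun s _ => ?_
      have h4 := L1K.Cls.prod (Finset.univ : Finset (Fin n))
        (fun i => if s i = e i then (T 1 : ℤ[T;T⁻¹]) else T (-1)) (fun _ => 1) (fun i _ => by
          beta_reduce
          split_ifs
          · exact L1K.cls_T (by norm_num)
          · exact L1K.cls_T (by norm_num))
      rw [Finset.sum_const, Finset.card_univ, Fintype.card_fin, nsmul_eq_mul, mul_one] at h4
      have h5 : L1K.Cls 0 (-(T 2 + T (-2)) : ℤ[T;T⁻¹]) := by
        rw [neg_add, ← sub_eq_add_neg]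
        exact (L1K.cls_T (m := 2) (by norm_num)).neg.sub (L1K.cls_T (by norm_num))
      exact (h4.mul (h5.pow _)).congr ⟨0, by ring⟩
    refine (h1.mul h2).congr ?_
    omega
  have h4 := h3.coeff k hk
  rwa [sub_zero] at h4

end Pool.Agent.ThA
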