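import Pool.Agent.ThA.AsmK
import Pool.Agent.ThA.M4S
import Pool.Agent.ThA.L1K2
import Pool.Agent.ThA.ChainK

/-!
# Theorem A for all codes and for knotoids
-/

set_option autoImplicit false

namespace Pool.Agent.ThA

open Pool.Agent.GaussJones Pool.Agent.Helper16.Knotoid

/-- **the formula for `LamK`** -/
theorem formulaK : FormulaK := fun _ g e s =>
  LamK_fsum (kap g) e (fun k hk => exponents_even (kap g) e k hk) s

variable {n m : ℕ}

/-- **Theorem A for all codes** -/
theorem LamK_bound {g : Code n} (C : TwistClasses g m) (e : Fin n → Bool) :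
    Real.sqrt 3 * |(LamK (fPoly g e) : ℝ) / 12 - C.mu e| ≤ bndS (C.t₁ e) (C.t₂ e) (C.t₃ e) := by
  have h4 : 0 < Real.sqrt 3 := Real.sqrt_pos.2 (by norm_num)
  rw [formulaK n g e (cutting C), PP_eq, add_sub_cancel_left, abs_div, abs_of_pos h4,
    mul_div_cancel₀ _ h4.ne']
  exact im_EE_le_S C e

/-- **Theorem A for knotoids** -/
theorem knotoid_bound (D : GaussDiagram n) (C : TwistClasses D.pos m) :
    Real.sqrt 3 * |(LamK D.normalizedBracket : ℝ) / 12 - C.mu D.sign| ≤
      bndS (C.t₁ D.sign) (C.t₂ D.sign) (C.t₃ D.sign) := by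
  rw [normalizedBracket_eq]
  exact LamK_bound C D.sign

/-- **the 6-move law for knotoids** -/
theorem knotoid_law {D D' : KDiagram} {k : ℤ} (h : KMoves D D' k) :
    LamK D'.f = LamK D.f + 12 * k :=
  h.law formulaK fun D => normalizedBracket_eq D.D

end Pool.Agent.ThA
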