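import Pool.Agent.Helper16.Knotoid.Defs

/-!
# ThA, module L1K: the exponents of the normalized bracket of a Gauss diagram are even
-/

set_option autoImplicit false

open LaurentPolynomial

namespace Pool.Agent.ThA.L1K

open Pool.Agent.Helper16.Knotoid

/-- all exponents of `P` are congruent to `r` modulo `2` -/
def Cls (r : ℤ) (P : ℤ[T;T⁻¹]) : Prop :=
  P ∈ Submodule.span ℤ (Set.range fun k : ℤ => (T (2 * k + r) : ℤ[T;T⁻¹]))

theorem cls_T {m r : ℤ} (h : (2 : ℤ) ∣ m - r) : Cls r (T m) := by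
  obtain ⟨k, hk⟩ := h
  refine Submodule.subset_span ⟨k, ?_⟩
  show T (2 * k + r) = T m
  congr 1
  omega

theorem Cls.congr {r r' : ℤ} {P : ℤ[T;T⁻¹]} (h : Cls r P) (hr : (2 : ℤ) ∣ r - r') : Cls r' P := by
  obtain ⟨k, hk⟩ := hr
  have h1 : Set.range (fun k : ℤ => (T (2 * k + r) : ℤ[T;T⁻¹])) =
      Set.range (fun k : ℤ => (T (2 * k + r') : ℤ[T;T⁻¹])) := by
    ext P
    constructor
    · rintro ⟨l, rfl⟩
      refine ⟨l + k, ?_⟩
      show T (2 * (l + k) + r') = T (2 * l + r)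
      congr 1
      omega
    · rintro ⟨l, rfl⟩
      refine ⟨l - k, ?_⟩
      show T (2 * (l - k) + r) = T (2 * l + r')
      congr 1
      omega
  unfold Cls at h ⊢
  rwa [← h1]

theorem Cls.neg {r : ℤ} {P : ℤ[T;T⁻¹]} (h : Cls r P) : Cls r (-P) := Submodule.neg_mem _ h

theorem Cls.sub {r : ℤ} {P Q : ℤ[T;T⁻¹]} (h : Cls r P) (h' : Cls r Q) : Cls r (P - Q) :=
  Submodule.sub_mem _ h h'

theorem Cls.sum {r : ℤ} {α : Type} (S : Finset α) (f : α → ℤ[T;T⁻¹])
    (h : ∀ a ∈ S, Cls r (f a)) : Cls r (∑ a ∈ S, f a) := Submodule.sum_mem _ h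

theorem Cls.mul {r s : ℤ} {P Q : ℤ[T;T⁻¹]} (h : Cls r P) (h' : Cls s Q) : Cls (r + s) (P * Q) := by
  have h1 := Submodule.mul_mem_mul h h'
  rw [Submodule.span_mul_span] at h1
  refine Submodule.span_mono ?_ h1
  rintro _ ⟨_, ⟨k, rfl⟩, _, ⟨l, rfl⟩, rfl⟩
  refine ⟨k + l, ?_⟩
  show T (2 * (k + l) + (r + s)) = T (2 * k + r) * T (2 * l + s)
  rw [← T_add]
  congr 1
  ring

theorem cls_one : Cls 0 (1 : ℤ[T;T⁻¹]) := by
  rw [← T_zero]
  exact cls_T (by norm_num)

theorem Cls.pow {P : ℤ[T;T⁻¹]} (h : Cls 0 P) (m : ℕ) : Cls 0 (P ^ m) := by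
  induction m with
  | zero =>
    rw [pow_zero]
    exact cls_one
  | succ m ih =>
    rw [pow_succ]
    exact (ih.mul h).congr ⟨0, by ring⟩

theorem Cls.coeff {r : ℤ} {P : ℤ[T;T⁻¹]} (h : Cls r P) (k : ℤ) (hk : P.coeff k ≠ 0) :
    (2 : ℤ) ∣ k - r := by
  unfold Cls at h
  by_contra hn
  apply hk
  refine Submodule.span_induction (p := fun P _ => P.coeff k = 0) ?_ ?_ ?_ ?_ h
  · rintro _ ⟨l, rfl⟩
    show (T (2 * l + r) : ℤ[T;T⁻¹]).coeff k = 0
    rw [T_apply, if_neg]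
    intro h'
    exact hn ⟨l, by omega⟩
  · rfl
  · intro x y _ _ hx hy
    show (x + y).coeff k = 0
    rw [AddMonoidAlgebra.coeff_add, Finsupp.add_apply, hx, hy, add_zero]
  · intro a x _ hx
    show (a • x).coeff k = 0
    rw [AddMonoidAlgebra.coeff_smul, Finsupp.smul_apply, hx, smul_zero]

/-- a sum of signs has the parity of the number of its terms -/
theorem parity {α : Type} (S : Finset α) (f : α → Bool) :
    (2 : ℤ) ∣ (∑ c ∈ S, if f c = true then (1 : ℤ) else -1) - S.card := by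
  classical
  induction S using Finset.induction_on with
  | empty => simp
  | insert a S ha ih =>
    rw [Finset.sum_insert ha, Finset.card_insert_of_notMem ha]
    push_cast
    split_ifs <;> omega

/-- **L1K.** -/
theorem exponents {n : ℕ} (D : GaussDiagram n) (k : ℤ) (hk : D.normalizedBracket.coeff k ≠ 0) :
    (2 : ℤ) ∣ k := by
  have hw : (2 : ℤ) ∣ D.writhe - n := by
    have h := parity (Finset.univ : Finset (Fin n)) D.sign
    rw [Finset.card_univ, Fintype.card_fin] at h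
    exact h
  have hb : Cls n D.bracket := by
    unfold GaussDiagram.bracket
    refine Cls.sum _ _ fun s _ => ?_
    have h1 : Cls n (T (GaussDiagram.stateSign s) : ℤ[T;T⁻¹]) := by
      refine cls_T ?_
      have h := parity (Finset.univ : Finset (Fin n)) s
      rw [Finset.card_univ, Fintype.card_fin] at h
      exact h
    have h2 : Cls 0 ((-T 2 - T (-2)) : ℤ[T;T⁻¹]) :=
      (cls_T (m := 2) (by norm_num)).neg.sub (cls_T (by norm_num))
    exact (h1.mul (h2.pow _)).congr ⟨0, by ring⟩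
  have hu : Cls 0 ((-1 : ℤ[T;T⁻¹]) ^ D.writhe.natAbs) := cls_one.neg.pow _
  have ht : Cls (-3 * D.writhe) (T (-3 * D.writhe) : ℤ[T;T⁻¹]) := cls_T (by simp)
  have h3 : Cls 0 D.normalizedBracket := by
    unfold GaussDiagram.normalizedBracket
    refine ((hu.mul ht).mul hb).congr ?_
    omega
  have h4 := h3.coeff k hk
  rwa [sub_zero] at h4

end Pool.Agent.ThA.L1K
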