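import Pool.Agent.ThA.M2
import Pool.Agent.ThA.M3b
import Pool.Agent.ThA.Loops

/-!
# Theorem A, module L2: the derivative of the f-polynomial at `A = 1` vanishes

For every code in which each crossing is interlaced with an even number of crossings.
-/

set_option autoImplicit false

open LaurentPolynomial Module

namespace Pool.Agent.ThA

open Pool.Agent.GaussJones

variable {n : ℕ}

/-! ### The sum of `k * p_k` -/

/-- the sum of `k * p_k` over the coefficients `p_k` of a Laurent polynomial -/
noncomputable def dsum (P : ℤ[T;T⁻¹]) : ℤ := P.coeff.sum fun k a => k * a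

theorem dsum_add (P Q : ℤ[T;T⁻¹]) : dsum (P + Q) = dsum P + dsum Q := by
  unfold dsum
  rw [AddMonoidAlgebra.coeff_add, Finsupp.sum_add_index']
  · intro a
    rw [mul_zero]
  · intro a b c
    rw [mul_add]

/-- `dsum` as a homomorphism -/
noncomputable def dsumHom : ℤ[T;T⁻¹] →+ ℤ := AddMonoidHom.mk' dsum dsum_add

theorem dsum_zero : dsum 0 = 0 := dsumHom.map_zero

theorem dsum_neg (P : ℤ[T;T⁻¹]) : dsum (-P) = -dsum P := dsumHom.map_neg P

theorem dsum_sum {ι : Type} (S : Finset ι) (P : ι → ℤ[T;T⁻¹]) :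
    dsum (∑ i ∈ S, P i) = ∑ i ∈ S, dsum (P i) := map_sum dsumHom P S

theorem dsum_T (m : ℤ) : dsum (T m) = m := by
  unfold dsum
  change ((AddMonoidAlgebra.single m (1 : ℤ)).coeff.sum fun k a => k * a) = m
  rw [AddMonoidAlgebra.coeff_single, Finsupp.sum_single_index (mul_zero m), mul_one]

theorem dsum_term (k : ℕ) : ∀ m : ℤ, dsum (T m * (-(T 2 + T (-2))) ^ k) = m * (-2) ^ k := by
  induction k with
  | zero =>
    intro m
    rw [pow_zero, mul_one, pow_zero, mul_one, dsum_T]
  | succ k ih =>
    intro m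
    have h1 : (T m * (-(T 2 + T (-2))) ^ (k + 1) : ℤ[T;T⁻¹]) =
        -(T (m + 2) * (-(T 2 + T (-2))) ^ k + T (m + -2) * (-(T 2 + T (-2))) ^ k) := by
      rw [pow_succ, T_add, T_add]
      ring
    rw [h1, dsum_neg, dsum_add, ih, ih, pow_succ]
    ring

theorem neg_one_pow_mul (N : ℕ) (P : ℤ[T;T⁻¹]) : dsum ((-1) ^ N * P) = (-1) ^ N * dsum P := by
  rcases Nat.even_or_odd N with h | h
  · rw [h.neg_one_pow, h.neg_one_pow, one_mul, one_mul]
  · rw [h.neg_one_pow, h.neg_one_pow, neg_one_mul, neg_one_mul, dsum_neg]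

theorem dsum_fsum (κ : (Fin n → Bool) → ℕ) (e : Fin n → Bool) :
    dsum (M2.fsum κ e) = (-1) ^ n * ∑ s : Fin n → Bool,
      (-3 * ∑ i, sgn e i + ∑ i, if s i = e i then (1 : ℤ) else -1) * (-2) ^ κ s := by
  rw [M2.fsum_eq, mul_assoc, neg_one_pow_mul, Finset.mul_sum, dsum_sum]
  congr 1
  refine Finset.sum_congr rfl fun s _ => ?_
  rw [← mul_assoc, ← T_add, dsum_term]

/-! ### Sums of products over the states -/

theorem sum_prod {R : Type} [CommRing R] (w : Fin n → Bool → R) :
    ∑ s : Fin n → Bool, ∏ c, w c (s c) = ∏ c, (w c true + w c false) := by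
  have h := Finset.prod_univ_sum (fun _ : Fin n => (Finset.univ : Finset Bool)) w
  rw [Fintype.piFinset_univ] at h
  rw [← h]
  refine Finset.prod_congr rfl fun c _ => ?_
  rw [Fintype.sum_bool]

theorem sum_prod_lin {R : Type} [CommRing R] (q g : Fin n → Bool → R) :
    ∑ s : Fin n → Bool, (∑ c, g c (s c)) * ∏ c, q c (s c) =
      ∑ c, (g c true * q c true + g c false * q c false) *
        ∏ d ∈ Finset.univ.erase c, (q d true + q d false) := by
  simp only [Finset.sum_mul]
  rw [Finset.sum_comm]
  refine Finset.sum_congr rfl fun c _ => ?_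
  have h1 : ∀ s : Fin n → Bool, g c (s c) * ∏ d, q d (s d) =
      ∏ d, (if d = c then g c (s d) * q d (s d) else q d (s d)) := by
    intro s
    rw [← Finset.mul_prod_erase Finset.univ _ (Finset.mem_univ c),
      ← Finset.mul_prod_erase Finset.univ
        (fun d => if d = c then g c (s d) * q d (s d) else q d (s d))
        (Finset.mem_univ c), if_pos rfl, mul_assoc]
    congr 2
    refine Finset.prod_congr rfl fun d hd => ?_
    rw [if_neg (Finset.ne_of_mem_erase hd)]
  rw [Finset.sum_congr rfl fun s _ => h1 s,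
    sum_prod (fun d b => if d = c then g c b * q d b else q d b),
    ← Finset.mul_prod_erase Finset.univ _ (Finset.mem_univ c), if_pos rfl, if_pos rfl]
  congr 1
  refine Finset.prod_congr rfl fun d hd => ?_
  rw [if_neg (Finset.ne_of_mem_erase hd), if_neg (Finset.ne_of_mem_erase hd)]

/-! ### Counting the kernel -/

/-- the sign character of the field with two elements -/
def chi (a : ZMod 2) : ℤ := if a = 0 then 1 else -1

theorem chi_add (a b : ZMod 2) : chi (a + b) = chi a * chi b := by
  revert a b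
  decide

theorem chi_sum {ι : Type} (S : Finset ι) (f : ι → ZMod 2) :
    chi (∑ i ∈ S, f i) = ∏ i ∈ S, chi (f i) := by
  classical
  induction S using Finset.induction_on with
  | empty => rfl
  | insert a S ha ih => rw [Finset.sum_insert ha, Finset.prod_insert ha, chi_add, ih]

/-- the condition at the row `i` -/
def hh (L : Matrix (Fin n) (Fin n) (ZMod 2)) (x : Fin n → ZMod 2) (i : Fin n) (b : Bool) : ℤ :=
  (if b = true then -1 else 1) *
    if L.mulVec x i + (if b = true then (0 : ZMod 2) else 1) * x i = 0 then 1 else 0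

theorem mulVec_add_diagonal (L : Matrix (Fin n) (Fin n) (ZMod 2)) (d x : Fin n → ZMod 2)
    (i : Fin n) : (L + Matrix.diagonal d).mulVec x i = L.mulVec x i + d i * x i := by
  rw [Matrix.add_mulVec, Pi.add_apply, Matrix.mulVec_diagonal]

theorem two_pow_ker (L : Matrix (Fin n) (Fin n) (ZMod 2)) (s : Fin n → Bool) :
    (2 : ℤ) ^ finrank (ZMod 2) (LinearMap.ker
      (L + Matrix.diagonal fun i => if s i = true then (0 : ZMod 2) else 1).mulVecLin) =
    ∑ x : Fin n → ZMod 2, ∏ i,
      if L.mulVec x i + (if s i = true then (0 : ZMod 2) else 1) * x i = 0 then 1 else 0 := by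
  classical
  have h1 := Module.card_eq_pow_finrank (K := ZMod 2) (V := LinearMap.ker
      (L + Matrix.diagonal fun i => if s i = true then (0 : ZMod 2) else 1).mulVecLin)
  rw [ZMod.card] at h1
  have h2 : (2 : ℤ) ^ finrank (ZMod 2) (LinearMap.ker
      (L + Matrix.diagonal fun i => if s i = true then (0 : ZMod 2) else 1).mulVecLin) =
      ((Fintype.card (LinearMap.ker
      (L + Matrix.diagonal fun i => if s i = true then (0 : ZMod 2) else 1).mulVecLin) : ℕ) : ℤ) := by
    rw [h1]
    push_cast
    rfl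
  rw [h2]
  have h3 : ∀ x : Fin n → ZMod 2, (∏ i,
      if L.mulVec x i + (if s i = true then (0 : ZMod 2) else 1) * x i = 0 then (1 : ℤ) else 0) =
      if x ∈ LinearMap.ker
      (L + Matrix.diagonal fun i => if s i = true then (0 : ZMod 2) else 1).mulVecLin
      then 1 else 0 := by
    intro x
    have h4 : x ∈ LinearMap.ker
        (L + Matrix.diagonal fun i => if s i = true then (0 : ZMod 2) else 1).mulVecLin ↔
        ∀ i, L.mulVec x i + (if s i = true then (0 : ZMod 2) else 1) * x i = 0 := by
      rw [LinearMap.mem_ker, Matrix.mulVecLin_apply, funext_iff]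
      simp only [mulVec_add_diagonal, Pi.zero_apply]
    by_cases hx : ∀ i, L.mulVec x i + (if s i = true then (0 : ZMod 2) else 1) * x i = 0
    · rw [if_pos (h4.2 hx)]
      exact Finset.prod_eq_one fun i _ => if_pos (hx i)
    · rw [if_neg fun h => hx (h4.1 h)]
      push Not at hx
      obtain ⟨i, hi⟩ := hx
      exact Finset.prod_eq_zero (Finset.mem_univ i) (if_neg hi)
  rw [Finset.sum_congr rfl fun x _ => h3 x, Finset.sum_boole, ← Fintype.card_subtype]

section

variable {L : Matrix (Fin n) (Fin n) (ZMod 2)}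

/-- the vector all of whose entries are `1` -/
def oo (n : ℕ) : Fin n → ZMod 2 := fun _ => 1

/-- the vector all of whose entries are `1` except the entry `j` -/
def uu (j : Fin n) : Fin n → ZMod 2 := oo n + Pi.single j 1

theorem uu_self (j : Fin n) : uu j j = 0 := by
  unfold uu oo
  rw [Pi.add_apply, Pi.single_eq_same]
  decide

theorem uu_of_ne {i j : Fin n} (h : i ≠ j) : uu j i = 1 := by
  unfold uu oo
  rw [Pi.add_apply, Pi.single_eq_of_ne h, add_zero]

theorem oo_ne_uu (j : Fin n) : oo n ≠ uu j := by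
  intro h
  have := congrFun h j
  rw [uu_self] at this
  exact one_ne_zero (α := ZMod 2) this

theorem mulVec_oo (hE : ∀ i, ∑ j, L i j = 0) (i : Fin n) : L.mulVec (oo n) i = 0 := by
  unfold Matrix.mulVec dotProduct oo
  simp only [mul_one]
  exact hE i

theorem mulVec_uu (hE : ∀ i, ∑ j, L i j = 0) (i j : Fin n) : L.mulVec (uu j) i = L i j := by
  unfold uu
  rw [Matrix.mulVec_add, Pi.add_apply, mulVec_oo hE, zero_add, Matrix.mulVec_single_one]
  rfl

theorem hh_zero {x : Fin n → ZMod 2} {i : Fin n} (hx : x i = 0) :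
    hh L x i true + hh L x i false = 0 := by
  unfold hh
  rw [hx, mul_zero, mul_zero, add_zero]
  simp only [if_true, Bool.false_eq_true, if_false]
  ring

theorem hh_oo (hE : ∀ i, ∑ j, L i j = 0) (i : Fin n) :
    hh L (oo n) i true = -1 ∧ hh L (oo n) i false = 0 := by
  unfold hh
  rw [mulVec_oo hE]
  unfold oo
  constructor
  · simp
  · simp

theorem hh_uu_self (hE : ∀ i, ∑ j, L i j = 0) (h0 : ∀ i, L i i = 0) (j : Fin n) :
    hh L (uu j) j true = -1 ∧ hh L (uu j) j false = 1 := by
  unfold hh
  rw [mulVec_uu hE, h0, uu_self]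
  constructor
  · simp
  · simp

theorem hh_uu (hE : ∀ i, ∑ j, L i j = 0) {i j : Fin n} (h : i ≠ j) :
    hh L (uu j) i true + hh L (uu j) i false = -1 * chi (L i j) := by
  unfold hh
  rw [mulVec_uu hE, uu_of_ne h]
  rcases z2_cases (L i j) with h1 | h1 <;> rw [h1] <;> decide

theorem prod_erase_card {R : Type} [CommRing R] (j : Fin n) (f : Fin n → R) (a : R)
    (hf : ∀ i, i ≠ j → f i = a) : (∏ d ∈ Finset.univ.erase j, f d) = a ^ (n - 1) := by
  rw [Finset.prod_congr rfl fun d hd => hf d (Finset.ne_of_mem_erase hd), Finset.prod_const,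
    Finset.card_erase_of_mem (Finset.mem_univ j), Finset.card_univ, Fintype.card_fin]

/-- the sum over the kernels, for a sum over one crossing -/
theorem sum_one (hE : ∀ i, ∑ j, L i j = 0) (h0 : ∀ i, L i i = 0) (hS : ∀ i j, L i j = L j i)
    (j : Fin n) (a b : ℤ) :
    ∑ x : Fin n → ZMod 2, (a * hh L x j true + b * hh L x j false) *
      ∏ d ∈ Finset.univ.erase j, (hh L x d true + hh L x d false) =
      (-1) ^ n * (2 * a - b) := by
  have hn : n = (n - 1) + 1 := by have := j.pos; omega
  rw [Finset.sum_eq_add (oo n) (uu j) (oo_ne_uu j)]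
  · have e1 : (∏ d ∈ Finset.univ.erase j, (hh L (oo n) d true + hh L (oo n) d false)) =
        (-1) ^ (n - 1) := by
      refine prod_erase_card j _ (-1) fun i _ => ?_
      obtain ⟨h1, h2⟩ := hh_oo hE i
      rw [h1, h2, add_zero]
    have e2 : (∏ d ∈ Finset.univ.erase j, (hh L (uu j) d true + hh L (uu j) d false)) =
        (-1) ^ (n - 1) := by
      rw [Finset.prod_congr rfl fun d hd => hh_uu hE (Finset.ne_of_mem_erase hd),
        Finset.prod_mul_distrib, prod_erase_card j (fun _ => (-1 : ℤ)) (-1) fun _ _ => rfl]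
      have h1 : (∏ i, chi (L i j)) = 1 := by
        rw [← chi_sum, Finset.sum_congr rfl fun i _ => hS i j, hE]
        rfl
      rw [← Finset.mul_prod_erase Finset.univ _ (Finset.mem_univ j), h0] at h1
      have h2 : chi 0 = 1 := rfl
      rw [h2, one_mul] at h1
      rw [h1, mul_one]
    obtain ⟨h1, h2⟩ := hh_oo hE j
    obtain ⟨h3, h4⟩ := hh_uu_self hE h0 j
    rw [e1, e2, h1, h2, h3, h4]
    have h5 : ((-1 : ℤ)) ^ n = (-1) ^ (n - 1) * (-1) := by
      conv_lhs => rw [hn]
      exact pow_succ _ _
    rw [h5]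
    ring
  · rintro x - ⟨hx1, hx2⟩
    have h1 : ∃ i, i ≠ j ∧ x i = 0 := by
      by_contra hcon
      push Not at hcon
      have h2 : ∀ i, i ≠ j → x i = 1 := fun i hi => (z2_cases (x i)).resolve_left (hcon i hi)
      rcases z2_cases (x j) with h3 | h3
      · apply hx2
        funext i
        by_cases hi : i = j
        · rw [hi, h3, uu_self]
        · rw [h2 i hi, uu_of_ne hi]
      · apply hx1
        funext i
        by_cases hi : i = j
        · rw [hi, h3]
          rfl
        · rw [h2 i hi]
          rfl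
    obtain ⟨i, hi, hxi⟩ := h1
    rw [Finset.prod_eq_zero (Finset.mem_erase.2 ⟨hi, Finset.mem_univ i⟩) (hh_zero hxi), mul_zero]
  · intro h
    exact absurd (Finset.mem_univ _) h
  · intro h
    exact absurd (Finset.mem_univ _) h

/-- the plain sum over the kernels -/
theorem sum_zero (hE : ∀ i, ∑ j, L i j = 0) :
    ∑ x : Fin n → ZMod 2, ∏ d, (hh L x d true + hh L x d false) = (-1) ^ n := by
  rw [Finset.sum_eq_single (oo n)]
  · have h1 : ∀ d, hh L (oo n) d true + hh L (oo n) d false = -1 := by
      intro d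
      obtain ⟨h1, h2⟩ := hh_oo hE d
      rw [h1, h2, add_zero]
    rw [Finset.prod_congr rfl fun d _ => h1 d, Finset.prod_const, Finset.card_univ,
      Fintype.card_fin]
  · intro x _ hx
    have h1 : ∃ i, x i = 0 := by
      by_contra hcon
      push Not at hcon
      exact hx (funext fun i => (z2_cases (x i)).resolve_left (hcon i))
    obtain ⟨i, hxi⟩ := h1
    exact Finset.prod_eq_zero (Finset.mem_univ i) (hh_zero hxi)
  · intro h
    exact absurd (Finset.mem_univ _) h

end

/-- **the sum over the states** -/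
theorem sum_states_ker (L : Matrix (Fin n) (Fin n) (ZMod 2)) (hE : ∀ i, ∑ j, L i j = 0)
    (h0 : ∀ i, L i i = 0) (hS : ∀ i j, L i j = L j i) (κ : (Fin n → Bool) → ℕ)
    (hκ : ∀ s, κ s = finrank (ZMod 2) (LinearMap.ker
      (L + Matrix.diagonal fun i => if s i = true then (0 : ZMod 2) else 1).mulVecLin))
    (hsw : ∀ s c, κ (Function.update s c (!(s c))) = κ s + 1 ∨
      κ s = κ (Function.update s c (!(s c))) + 1) (e : Fin n → Bool) :
    ∑ s : Fin n → Bool, (-3 * ∑ i, sgn e i + ∑ i, if s i = e i then (1 : ℤ) else -1) *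
      (-2) ^ κ s = 0 := by
  obtain ⟨ε, -, hε⟩ := M2.exists_eps κ hsw
  have h1 : ∀ s : Fin n → Bool, (-2 : ℤ) ^ κ s =
      ε * ∑ x : Fin n → ZMod 2, ∏ i, hh L x i (s i) := by
    intro s
    have h2 : (-2 : ℤ) ^ κ s = (-1) ^ κ s * 2 ^ κ s := by rw [← mul_pow]; norm_num
    rw [h2, hε, hκ, two_pow_ker, mul_assoc, Finset.mul_sum]
    congr 1
    refine Finset.sum_congr rfl fun x _ => ?_
    unfold M2.osg hh
    rw [← Finset.prod_mul_distrib]
  have h3 : ∀ s : Fin n → Bool,
      (-3 * ∑ i, sgn e i + ∑ i, if s i = e i then (1 : ℤ) else -1) * (-2) ^ κ s =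
      ε * ∑ x : Fin n → ZMod 2, ((-3 * ∑ i, sgn e i) * ∏ i, hh L x i (s i) +
        (∑ i, if s i = e i then (1 : ℤ) else -1) * ∏ i, hh L x i (s i)) := by
    intro s
    rw [h1, Finset.sum_add_distrib, ← Finset.mul_sum, ← Finset.mul_sum]
    ring
  rw [Finset.sum_congr rfl fun s _ => h3 s, ← Finset.mul_sum, Finset.sum_comm]
  have h4 : ∀ x : Fin n → ZMod 2, ∑ s : Fin n → Bool,
      ((-3 * ∑ i, sgn e i) * ∏ i, hh L x i (s i) +
        (∑ i, if s i = e i then (1 : ℤ) else -1) * ∏ i, hh L x i (s i)) =
      (-3 * ∑ i, sgn e i) * ∏ d, (hh L x d true + hh L x d false) +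
      ∑ j, ((if true = e j then (1 : ℤ) else -1) * hh L x j true +
        (if false = e j then (1 : ℤ) else -1) * hh L x j false) *
        ∏ d ∈ Finset.univ.erase j, (hh L x d true + hh L x d false) := by
    intro x
    rw [Finset.sum_add_distrib, ← Finset.mul_sum, sum_prod (hh L x),
      sum_prod_lin (hh L x) (fun i b => if b = e i then (1 : ℤ) else -1)]
  rw [Finset.sum_congr rfl fun x _ => h4 x, Finset.sum_add_distrib, ← Finset.mul_sum,
    sum_zero hE, Finset.sum_comm, Finset.sum_congr rfl fun j _ => sum_one hE h0 hS j _ _,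
    ← Finset.mul_sum]
  have h5 : ∑ j : Fin n, (2 * (if true = e j then (1 : ℤ) else -1) -
      (if false = e j then (1 : ℤ) else -1)) = 3 * ∑ j, sgn e j := by
    rw [Finset.mul_sum]
    refine Finset.sum_congr rfl fun j _ => ?_
    unfold sgn
    cases e j <;> decide
  rw [h5]
  ring

/-- switching one smoothing changes the number of loops by one -/
theorem loops_switch {g : Code n} (hg : EvenCode g) (s : Fin n → Bool) (c : Fin n) :
    loops g (Function.update s c (!(s c))) - 1 = loops g s - 1 + 1 ∨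
      loops g s - 1 = loops g (Function.update s c (!(s c))) - 1 + 1 := by
  rw [loops_rank, loops_rank]
  set N := LL g + Matrix.diagonal fun i => if s i = true then (0 : ZMod 2) else 1 with hN
  have h1 : (LL g + Matrix.diagonal fun i =>
      if Function.update s c (!(s c)) i = true then (0 : ZMod 2) else 1) = flip N c := by
    ext i j
    unfold flip
    rw [hN, Matrix.add_apply, Matrix.add_apply, add_assoc]
    congr 1
    by_cases hij : i = j
    · subst hij
      rw [Matrix.diagonal_apply_eq, Matrix.diagonal_apply_eq]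
      by_cases hi : i = c
      · subst hi
        have e1 : (if i = i ∧ i = i then (1 : ZMod 2) else 0) = 1 := if_pos ⟨rfl, rfl⟩
        rw [Function.update_self, e1]
        cases s i
        · exact (by decide : (0 : ZMod 2) = 1 + 1)
        · exact (by decide : (1 : ZMod 2) = 0 + 1)
      · have e1 : (if i = c ∧ i = c then (1 : ZMod 2) else 0) = 0 := if_neg fun h => hi h.1
        rw [Function.update_of_ne hi, e1, add_zero]
    · rw [Matrix.diagonal_apply_ne _ hij, Matrix.diagonal_apply_ne _ hij,
        if_neg fun h => hij (h.1.trans h.2.symm), add_zero]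
  rw [h1]
  have h2 := flip_finrank N (symm_diagonal _ _ (LL_symm g))
    (even_diagonal _ _ (LL_self g) (LL_even hg)) c
  rcases h2 with h2 | h2
  · exact Or.inl h2
  · exact Or.inr h2.symm

/-- **the derivative at `A = 1`** -/
theorem dsum_fPoly {g : Code n} (hg : EvenCode g) (e : Fin n → Bool) : dsum (fPoly g e) = 0 := by
  have h1 : fPoly g e = M2.fsum (fun s => loops g s - 1) e := rfl
  rw [h1, dsum_fsum, sum_states_ker (LL g) (LL_even hg) (LL_self g) (LL_symm g)
    (fun s => loops g s - 1) (loops_rank g) (loops_switch hg) e, mul_zero]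

end Pool.Agent.ThA
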