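import Pool.Agent.ThA.L3K
import Pool.Agent.ThA.Asm

/-!
# ThA, module M2K: the value and the derivative of the f-polynomial at `exp (-π i / 3)`

At this point the loops have the value `1`, so that no parity of the number of circles is needed.
-/

set_option autoImplicit false

open Complex LaurentPolynomial

namespace Pool.Agent.ThA

namespace M2

variable {n : ℕ}

/-- the point `exp (-π i / 3)` is the weight of a smoothing of type `A` -/
theorem ev_neg (k : ℤ) : ev (-(Real.pi / 3)) (T k) = q true ^ k := by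
  rw [ev_T_zpow]
  congr 1
  rw [Complex.exp_mul_I, ← Complex.ofReal_cos, ← Complex.ofReal_sin, Real.cos_neg, Real.sin_neg,
    Real.cos_pi_div_three, Real.sin_pi_div_three]
  unfold q
  rw [if_pos rfl]
  push_cast
  ring

theorem q_mul : q true * q false = 1 := by
  unfold q
  rw [if_pos rfl, if_neg (by decide)]
  have h2 := sqrt3_sq
  have h3 := I_sq
  linear_combination (-1 / 4 : ℂ) * (I ^ 2) * h2 - (3 / 4 : ℂ) * h3

theorem q_true_ne : q true ≠ 0 := fun h => by
  have h1 := q_mul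
  rw [h, zero_mul] at h1
  exact zero_ne_one h1

theorem q_zpow_neg_one : q true ^ (-1 : ℤ) = q false := by
  rw [zpow_neg, _root_.zpow_one]
  exact inv_eq_of_mul_eq_one_right q_mul

theorem q_three : q true ^ 3 = -1 := by
  have h1 := q_mul
  have h2 := q_add
  have h3 : q false = 1 - q true := by rw [← h2]; ring
  rw [h3] at h1
  linear_combination (-(q true) - 1) * h1

theorem q_zpow_three (k : ℤ) : q true ^ (3 * k) = (-1) ^ k := by
  rw [zpow_mul]
  congr 1
  have h : q true ^ (3 : ℤ) = q true ^ 3 := by norm_cast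
  rw [h, q_three]

theorem ev_dK : ev (-(Real.pi / 3)) (-(T 2 + T (-2))) = 1 := by
  rw [map_neg, map_add, ev_neg, ev_neg]
  have h1 := q_mul
  have h2 := q_add
  have h3 : q true ^ (2 : ℤ) = q true ^ 2 := by norm_cast
  have h4 : q true ^ (-2 : ℤ) = q false ^ 2 := by
    have h5 : q true ^ (-2 : ℤ) = (q true ^ (-1 : ℤ)) ^ 2 := by
      rw [← zpow_natCast, ← zpow_mul]
      norm_num
    rw [h5, q_zpow_neg_one]
  rw [h3, h4]
  linear_combination 2 * h1 - (q true + q false + 1) * h2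

theorem hasDerivAt_dK : HasDerivAt (fun x : ℝ => ev x (-(T 2 + T (-2)))) (-(2 * Real.sqrt 3))
    (-(Real.pi / 3)) := by
  have h1 := ((hasDerivAt_ev_T 2 (-(Real.pi / 3))).fun_add
    (hasDerivAt_ev_T (-2) (-(Real.pi / 3)))).fun_neg
  have h2 : (fun x : ℝ => ev x (-(T 2 + T (-2)))) = fun x : ℝ => -(ev x (T 2) + ev x (T (-2))) := by
    funext x
    rw [map_neg, map_add]
  rw [h2]
  refine h1.congr_deriv ?_
  rw [ev_neg, ev_neg]
  have h3 : q true ^ (2 : ℤ) = q true ^ 2 := by norm_cast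
  have h4 : q true ^ (-2 : ℤ) = q false ^ 2 := by
    have h5 : q true ^ (-2 : ℤ) = (q true ^ (-1 : ℤ)) ^ 2 := by
      rw [← zpow_natCast, ← zpow_mul]
      norm_num
    rw [h5, q_zpow_neg_one]
  rw [h3, h4]
  unfold q
  rw [if_pos rfl, if_neg (by decide)]
  have h5 := I_sq
  push_cast
  linear_combination (2 * (Real.sqrt 3 : ℂ)) * h5

theorem hasDerivAt_termK (m : ℤ) (k : ℕ) :
    HasDerivAt (fun x : ℝ => ev x (T m * (-(T 2 + T (-2))) ^ k))
      ((m * I - 2 * Real.sqrt 3 * k) * (q true ^ m)) (-(Real.pi / 3)) := by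
  have h1 := (hasDerivAt_ev_T m (-(Real.pi / 3))).fun_mul (hasDerivAt_dK.fun_pow k)
  have h2 : (fun x : ℝ => ev x (T m * (-(T 2 + T (-2))) ^ k)) =
      fun x : ℝ => ev x (T m) * (ev x (-(T 2 + T (-2)))) ^ k := by
    funext x
    rw [map_mul, map_pow]
  rw [h2]
  refine h1.congr_deriv ?_
  rw [ev_dK, ev_neg, one_pow, one_pow]
  ring

/-- the weight of a state -/
theorem weightK (e s : Fin n → Bool) :
    (-1) ^ n * q true ^ (-3 * ∑ i, sgn e i) *
      q true ^ (∑ c, if s c = e c then (1 : ℤ) else -1) = ∏ c, q (s c == e c) := by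
  have h1 : ((-1 : ℂ) ^ n) = ∏ _i : Fin n, (-1 : ℂ) := by
    rw [Finset.prod_const, Finset.card_univ, Fintype.card_fin]
  rw [h1, Finset.mul_sum, zpow_sum _ _ q_true_ne, zpow_sum _ _ q_true_ne,
    ← Finset.prod_mul_distrib, ← Finset.prod_mul_distrib]
  refine Finset.prod_congr rfl fun c _ => ?_
  have h2 : q true ^ (-3 * sgn e c) = -1 := by
    have h3 : (-3 : ℤ) * sgn e c = 3 * (-sgn e c) := by ring
    rw [h3, q_zpow_three]
    unfold sgn
    split_ifs
    · norm_num
    · norm_num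
  rw [h2]
  cases hs : s c <;> cases he : e c
  · simp
  · simp [inv_eq_of_mul_eq_one_right q_mul]
  · simp [inv_eq_of_mul_eq_one_right q_mul]
  · simp

/-- the normalized state sum has the value `1` at `exp (-π i / 3)` -/
theorem evK_one (κ : (Fin n → Bool) → ℕ) (e : Fin n → Bool) :
    ev (-(Real.pi / 3)) (fsum κ e) = 1 := by
  rw [fsum_eq, map_mul, map_mul, map_pow, map_neg, map_one, map_sum, ev_neg, Finset.mul_sum]
  refine (Finset.sum_congr rfl fun s _ => ?_).trans (sum_q e)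
  rw [map_mul, map_pow, ev_dK, ev_neg, one_pow, mul_one, ← weightK e s]

/-- **the derivative of the normalized state sum at `exp (-π i / 3)`** -/
theorem mainK (κ : (Fin n → Bool) → ℕ) (e σ : Fin n → Bool) :
    HasDerivAt (fun x : ℝ => ev x (fsum κ e))
      (-6 * PP e σ * I - 2 * Real.sqrt 3 * EE κ e σ) (-(Real.pi / 3)) := by
  have h0 : (fun x : ℝ => ev x (fsum κ e)) = fun x : ℝ =>
      (-1) ^ n * ∑ s : Fin n → Bool,
        ev x (T ((-3 * ∑ i, sgn e i) + ∑ i, if s i = e i then (1 : ℤ) else -1) *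
          (-(T 2 + T (-2))) ^ κ s) := by
    funext x
    rw [fsum_eq, map_mul, map_mul, map_pow, map_neg, map_one, map_sum, mul_assoc]
    congr 1
    rw [Finset.mul_sum]
    refine Finset.sum_congr rfl fun s _ => ?_
    rw [← map_mul, T_add, mul_assoc]
  rw [h0]
  have h1 := (HasDerivAt.fun_sum (u := Finset.univ) fun s (_ : s ∈ Finset.univ) =>
    hasDerivAt_termK ((-3 * ∑ i, sgn e i) + ∑ i, if s i = e i then (1 : ℤ) else -1)
      (κ s)).const_mul ((-1 : ℂ) ^ n)
  refine h1.congr_deriv ?_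
  rw [← sum_kappa κ e σ, Finset.mul_sum]
  refine Finset.sum_congr rfl fun s _ => ?_
  rw [← weightK e s, zpow_add₀ q_true_ne]
  push_cast
  ring

end M2

/-- the imaginary part of the derivative at `-π / 3` -/
theorem deriv_imK' (P : ℤ[T;T⁻¹]) (h2 : ∀ k, P.coeff k ≠ 0 → (2 : ℤ) ∣ k) (D : ℂ)
    (hD : HasDerivAt (fun x : ℝ => M2.ev x P) D (-(Real.pi / 3))) :
    D.im = -(1 / 2) * (LamK P : ℝ) := by
  rw [← deriv_imK P h2 _ (hasDerivAt_ev P (Real.pi / 3)),
    hD.unique (hasDerivAt_ev P (-(Real.pi / 3))), im_sum, im_sum]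
  refine Finset.sum_congr rfl fun k _ => ?_
  have h3 : ∀ x : ℝ, ((P.coeff k : ℂ) * (k * I * M2.ev x (T k))).im =
      (k : ℝ) * P.coeff k * Real.cos (k * x) := by
    intro x
    rw [M2.ev_T]
    have h4 : (k : ℂ) * ((x : ℂ) * I) = ((k * x : ℝ) : ℂ) * I := by
      push_cast
      ring
    have h5 : (cexp (((k * x : ℝ) : ℂ) * I)).re = Real.cos (k * x) :=
      Complex.exp_ofReal_mul_I_re _
    rw [h4, ← h5]
    generalize cexp (((k * x : ℝ) : ℂ) * I) = z
    simp [mul_im, mul_re]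
    ring
  rw [h3, h3]
  congr 1
  rw [mul_neg, Real.cos_neg]

/-- **`Λ = LamK / 12` in terms of the states**, for every state `σ` -/
theorem LamK_fsum {n : ℕ} (κ : (Fin n → Bool) → ℕ) (e : Fin n → Bool)
    (h2 : ∀ k, (M2.fsum κ e).coeff k ≠ 0 → (2 : ℤ) ∣ k) (σ : Fin n → Bool) :
    (LamK (M2.fsum κ e) : ℝ) / 12 = M2.PP e σ + (M2.EE κ e σ).im / Real.sqrt 3 := by
  have h6 := deriv_imK' _ h2 _ (M2.mainK κ e σ)
  have h7 : (-6 * (M2.PP e σ : ℂ) * I - 2 * (Real.sqrt 3 : ℂ) * M2.EE κ e σ).im =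
      -6 * (M2.PP e σ : ℝ) - 2 * Real.sqrt 3 * (M2.EE κ e σ).im := by
    simp [sub_im, mul_im, mul_re]
  rw [h7] at h6
  have h8 : Real.sqrt 3 * Real.sqrt 3 = 3 := Real.mul_self_sqrt (by norm_num)
  have h9 : Real.sqrt 3 ≠ 0 := (Real.sqrt_pos.2 (by norm_num)).ne'
  field_simp
  linear_combination (2 * Real.sqrt 3) * h6 + (4 * (M2.EE κ e σ).im) * h8

end Pool.Agent.ThA
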