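import Pool.Agent.ThA.L3C
import Pool.Agent.ThA.M2K
import Pool.Agent.ThA.L1K2

/-!
# ThA, module L3CK: the second integer `ChiK` for all Gauss codes (knotoids)

For `f = ∑ p_k A^k` with even exponents `ChiK f = -∑ k χ(k/2) p_k`, where `χ` is the Legendre symbol
modulo `3`; `ChiK f / 4` is the real part of the mean excess of every state.
-/

set_option autoImplicit false

open Complex LaurentPolynomial

namespace Pool.Agent.ThA

open Pool.Agent.GaussJones

/-- The sum of `-k χ(k/2) p_k` over the exponents `k`, where `χ(m) = 1, -1, 0` for `m = 1, 2, 0`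
modulo `3`. -/
noncomputable def ChiK (P : ℤ[T;T⁻¹]) : ℤ :=
  ∑ k ∈ P.coeff.support, -k * (if k / 2 % 3 = 1 then 1 else if k / 2 % 3 = 2 then -1 else 0) *
    P.coeff k

theorem ChiK_one : ChiK 1 = 0 := by
  unfold ChiK
  refine Finset.sum_eq_zero fun k _ => ?_
  have h1 : (1 : ℤ[T;T⁻¹]) = T 0 := T_zero.symm
  rw [h1, T_apply]
  by_cases h : (0 : ℤ) = k
  · subst h
    simp
  · rw [if_neg h, mul_zero]

/-- the imaginary part of `exp (-i π k / 3)` for even `k` -/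
theorem im_TK (k : ℤ) (hk : (2 : ℤ) ∣ k) :
    (M2.ev (-(Real.pi / 3)) (T k)).im =
      -(Real.sqrt 3 / 2 *
        ((if k / 2 % 3 = 1 then 1 else if k / 2 % 3 = 2 then -1 else 0 : ℤ) : ℝ)) := by
  obtain ⟨m, rfl⟩ := hk
  have h1 := im_T (4 * m) ⟨m, rfl⟩
  rw [M2.ev_T] at h1 ⊢
  have h2 : (((4 * m : ℤ) : ℂ) * (((Real.pi / 6 : ℝ) : ℂ) * I)) =
      ((m * (2 * Real.pi / 3) : ℝ) : ℂ) * I := by
    push_cast
    ring
  have h3 : (((2 * m : ℤ) : ℂ) * (((-(Real.pi / 3) : ℝ) : ℂ) * I)) =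
      ((-(m * (2 * Real.pi / 3)) : ℝ) : ℂ) * I := by
    push_cast
    ring
  rw [h2, exp_ofReal_mul_I_im] at h1
  rw [h3, exp_ofReal_mul_I_im, Real.sin_neg, h1]
  have h4 : 4 * m / 4 = m := by omega
  have h5 : 2 * m / 2 = m := by omega
  rw [h4, h5]

/-- **L3CK.** The real part of the derivative of `x ↦ f (exp (x i))` at `-π / 3`. -/
theorem deriv_reK (P : ℤ[T;T⁻¹]) (h2 : ∀ k, P.coeff k ≠ 0 → (2 : ℤ) ∣ k) (D : ℂ)
    (hD : HasDerivAt (fun x : ℝ => M2.ev x P) D (-(Real.pi / 3))) :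
    D.re = -(Real.sqrt 3 / 2) * (ChiK P : ℝ) := by
  rw [hD.unique (hasDerivAt_ev P (-(Real.pi / 3))), re_sum]
  unfold ChiK
  push_cast
  rw [Finset.mul_sum]
  refine Finset.sum_congr rfl fun k hk => ?_
  have h1 : ((P.coeff k : ℂ) * (k * I * M2.ev (-(Real.pi / 3)) (T k))).re =
      -((k : ℝ) * P.coeff k * (M2.ev (-(Real.pi / 3)) (T k)).im) := by
    simp [mul_im, mul_re]
    ring
  rw [h1, im_TK k (h2 k (Finsupp.mem_support_iff.1 hk))]
  push_cast
  ring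

/-- **`ChiK` in terms of the states**, for every code and every cutting state `σ` -/
theorem ChiK_state {n : ℕ} (g : Code n) (e σ : Fin n → Bool) :
    (ChiK (fPoly g e) : ℝ) / 4 = (M2.EE (kap g) e σ).re := by
  have h6 := deriv_reK _ (exponents_even (kap g) e) _ (M2.mainK (kap g) e σ)
  have h7 : (-6 * (M2.PP e σ : ℂ) * I - 2 * (Real.sqrt 3 : ℂ) * M2.EE (kap g) e σ).re =
      -2 * Real.sqrt 3 * (M2.EE (kap g) e σ).re := by
    simp [sub_re, mul_im, mul_re]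
  rw [h7] at h6
  have h9 : Real.sqrt 3 ≠ 0 := (Real.sqrt_pos.2 (show (0 : ℝ) < 3 by norm_num)).ne'
  have h10 : Real.sqrt 3 * ((ChiK (fPoly g e) : ℝ) / 4) =
      Real.sqrt 3 * (M2.EE (kap g) e σ).re := by
    have h11 : (ChiK (M2.fsum (kap g) e) : ℝ) = (ChiK (fPoly g e) : ℝ) := rfl
    rw [h11] at h6
    linarith
  exact mul_left_cancel₀ h9 h10

end Pool.Agent.ThA
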