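import Pool.Agent.ThA.Asm
import Pool.Agent.ThA.L1
import Pool.Agent.ThA.L2
import Pool.Agent.ThA.L3

/-!
# Theorem A, module L4: the number `Λ` in terms of the states

The value of `f` at `exp (π i / 6)` is `1`, and `Λ (f) = P + Im E / √3` for every cutting state.
-/

set_option autoImplicit false

open Module Complex LaurentPolynomial

namespace Pool.Agent.ThA

open Pool.Agent.GaussJones

variable {n : ℕ} {g : Code n} {m : ℕ}

/-- the parity of the number of circles -/
theorem neg_one_pow_kap (hg : EvenCode g) (s : Fin n → Bool) :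
    (-1 : ℤ) ^ kap g s = M2.osg s := by
  have h1 := L1.even_loops hg s
  have h2 : M2.osg s = (-1) ^ (Finset.univ.filter fun i => s i = true).card := by
    unfold M2.osg
    rw [Finset.prod_ite, Finset.prod_const, Finset.prod_const_one, mul_one]
  have h3 : (-1 : ℤ) ^ (kap g s + (Finset.univ.filter fun i => s i = true).card) = 1 :=
    h1.neg_one_pow
  rw [pow_add] at h3
  rw [h2]
  rcases neg_one_pow_eq_or ℤ (Finset.univ.filter fun i => s i = true).card with h9 | h9 <;>
    rw [h9] at h3 ⊢ <;> linarith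

/-- **the value of `f` at `exp (π i / 6)` is `1`** -/
theorem ev_one (hg : EvenCode g) (e : Fin n → Bool) :
    M2.ev (Real.pi / 6) (fPoly g e) = 1 := by
  rw [fPoly_eq, M2.fsum_eq, map_mul, map_mul, map_pow, map_neg, map_one, map_sum, M2.ev_T_zpow,
    Finset.mul_sum]
  refine (Finset.sum_congr rfl fun s _ => ?_).trans (M2.sum_q e)
  have h3 : (-1 : ℂ) ^ kap g s = M2.osg s := by
    have := congrArg (fun z : ℤ => (z : ℂ)) (neg_one_pow_kap hg s)
    push_cast at this
    exact this
  rw [map_mul, map_pow, M2.ev_d, M2.ev_T_zpow, h3, ← M2.weight e s]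
  unfold M2.om
  ring

/-- **`Λ` in terms of the states**, for every cutting state `σ` -/
theorem Lam_state (hg : EvenCode g) (e σ : Fin n → Bool) :
    (Lam (fPoly g e) : ℝ) = M2.PP e σ + (M2.EE (kap g) e σ).im / Real.sqrt 3 :=
  Lam_fsum (kap g) e (kap_switch hg) (L1.exponents hg e) (dsum_fPoly hg e) (ev_one hg e) σ

/-- **`Λ` and the signed number of parallel crossings** -/
theorem Lam_eq (hg : EvenCode g) (C : TwistClasses g m) (e : Fin n → Bool) :
    (Lam (fPoly g e) : ℝ) =
      C.mu e + (M2.EE (kap g) e (cutting C)).im / Real.sqrt 3 := by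
  rw [← PP_eq]
  exact Lam_state hg e _

/-- **the bound** -/
theorem Lam_bound (hg : EvenCode g) (C : TwistClasses g m) (e : Fin n → Bool) :
    Real.sqrt 3 * |(Lam (fPoly g e) : ℝ) - C.mu e| ≤ bnd (C.num e 3) (C.num e 6) := by
  have h4 : 0 < Real.sqrt 3 := Real.sqrt_pos.2 (by norm_num)
  rw [Lam_eq hg C e, add_sub_cancel_left, abs_div, abs_of_pos h4, mul_div_cancel₀ _ h4.ne']
  exact im_EE_le hg C e

end Pool.Agent.ThA
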