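import Pool.Agent.ThA.M4

/-!
# ThA, module Push: from the crossings which are cut to the classes which are cut

If `G W = Y (the set of classes met by W)` then
`∑_W G W ∏_(i ∉ W) x i ∏_(i ∈ W) y i = ∑_F Y F ∏_(c ∉ F) X c ∏_(c ∈ F) (B c - X c)`,
`X c = ∏_(cls i = c) x i`, `B c = ∏_(cls i = c) (x i + y i)`, in every commutative ring.
-/

set_option autoImplicit false

namespace Pool.Agent.ThA.Push8

open Finset

section

variable {R : Type*} [CommRing R]

/-- the sum over the sets of classes which are cut -/
def pcut {m : ℕ} (X B : Fin m → R) (Y : Finset (Fin m) → R) : R :=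
  ∑ F : Finset (Fin m), Y F * (∏ c ∈ Fᶜ, X c) * ∏ c ∈ F, (B c - X c)

/-- the two values at one class -/
theorem pcut_split {m : ℕ} (X B : Fin m → R) (Y : Finset (Fin m) → R) (c : Fin m) :
    pcut X B Y = ∑ F ∈ (univ.erase c).powerset,
      (X c * Y F + (B c - X c) * Y (insert c F)) *
        ((∏ d ∈ univ.erase c \ F, X d) * ∏ d ∈ F, (B d - X d)) := by
  have hc : c ∉ univ.erase c := Finset.notMem_erase c univ
  have h1 : pcut X B Y = ∑ F ∈ (insert c (univ.erase c)).powerset,
      Y F * (∏ d ∈ insert c (univ.erase c) \ F, X d) * ∏ d ∈ F, (B d - X d) := by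
    unfold pcut
    rw [Finset.insert_erase (Finset.mem_univ c), Finset.powerset_univ]
    refine Finset.sum_congr rfl fun F _ => ?_
    rw [Finset.compl_eq_univ_sdiff]
  rw [h1, Finset.sum_powerset_insert hc, ← Finset.sum_add_distrib]
  refine Finset.sum_congr rfl fun F hF => ?_
  have hF' : F ⊆ univ.erase c := Finset.mem_powerset.1 hF
  have hcF : c ∉ F := fun h => hc (hF' h)
  have h2 : insert c (univ.erase c) \ F = insert c (univ.erase c \ F) :=
    Finset.insert_sdiff_of_notMem _ hcF
  have h3 : insert c (univ.erase c) \ insert c F = univ.erase c \ F := by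
    ext x
    simp only [Finset.mem_sdiff, Finset.mem_insert, not_or, Finset.mem_erase, Finset.mem_univ,
      and_true]
    tauto
  have h4 : c ∉ univ.erase c \ F := fun h => hc (Finset.mem_sdiff.1 h).1
  rw [h2, h3, Finset.prod_insert h4, Finset.prod_insert hcF]
  ring

/-- one more crossing in the class `c` -/
theorem pcut_mul {m : ℕ} (X B X' B' : Fin m → R) (Y : Finset (Fin m) → R) (c : Fin m) (x y : R)
    (hc : X' c = x * X c) (hc' : B' c = (x + y) * B c) (h : ∀ d, d ≠ c → X' d = X d)
    (h' : ∀ d, d ≠ c → B' d = B d) :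
    pcut X' B' Y = x * pcut X B Y + y * pcut X B (fun F => Y (insert c F)) := by
  rw [pcut_split X' B' Y c, pcut_split X B Y c, pcut_split X B _ c, Finset.mul_sum,
    Finset.mul_sum, ← Finset.sum_add_distrib]
  refine Finset.sum_congr rfl fun F hF => ?_
  have hF' : F ⊆ univ.erase c := Finset.mem_powerset.1 hF
  have h1 : ∏ d ∈ univ.erase c \ F, X' d = ∏ d ∈ univ.erase c \ F, X d :=
    Finset.prod_congr rfl fun d hd => h d (Finset.ne_of_mem_erase (Finset.mem_sdiff.1 hd).1)
  have h2 : ∏ d ∈ F, (B' d - X' d) = ∏ d ∈ F, (B d - X d) :=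
    Finset.prod_congr rfl fun d hd => by
      rw [h d (Finset.ne_of_mem_erase (hF' hd)), h' d (Finset.ne_of_mem_erase (hF' hd))]
  have h3 : insert c (insert c F) = insert c F := Finset.insert_idem c F
  rw [h1, h2, hc, hc', h3]
  ring

/-- the push forward, for the crossings in `S` -/
theorem push_aux {n m : ℕ} (cls : Fin n → Fin m) (x y : Fin n → R) (S : Finset (Fin n)) :
    ∀ Y : Finset (Fin m) → R,
    ∑ W ∈ S.powerset, Y (W.image cls) * (∏ i ∈ S \ W, x i) * ∏ i ∈ W, y i =
      pcut (fun c => ∏ i ∈ S.filter (fun i => cls i = c), x i)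
        (fun c => ∏ i ∈ S.filter (fun i => cls i = c), (x i + y i)) Y := by
  induction S using Finset.induction_on with
  | empty =>
    intro Y
    unfold pcut
    rw [Finset.powerset_empty, Finset.sum_singleton, Finset.sum_eq_single ∅]
    · simp
    · intro F _ hF
      obtain ⟨c, hc⟩ := Finset.nonempty_of_ne_empty hF
      rw [Finset.prod_eq_zero hc (by simp), mul_zero]
    · intro h
      exact absurd (Finset.mem_univ _) h
  | insert a S ha ih =>
    intro Y
    rw [Finset.sum_powerset_insert ha,
      pcut_mul (fun c => ∏ i ∈ S.filter (fun i => cls i = c), x i)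
        (fun c => ∏ i ∈ S.filter (fun i => cls i = c), (x i + y i))
        (fun c => ∏ i ∈ (insert a S).filter (fun i => cls i = c), x i)
        (fun c => ∏ i ∈ (insert a S).filter (fun i => cls i = c), (x i + y i))
        Y (cls a) (x a) (y a) ?_ ?_ ?_ ?_,
      ← ih Y, ← ih (fun F => Y (insert (cls a) F)), Finset.mul_sum, Finset.mul_sum]
    · congr 1
      · refine Finset.sum_congr rfl fun W hW => ?_
        have haW : a ∉ W := fun h => ha (Finset.mem_powerset.1 hW h)
        have h3 : a ∉ S \ W := fun h => ha (Finset.mem_sdiff.1 h).1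
        rw [Finset.insert_sdiff_of_notMem _ haW, Finset.prod_insert h3]
        ring
      · refine Finset.sum_congr rfl fun W hW => ?_
        have haW : a ∉ W := fun h => ha (Finset.mem_powerset.1 hW h)
        have h2 : insert a S \ insert a W = S \ W := by
          ext z
          simp only [Finset.mem_sdiff, Finset.mem_insert, not_or]
          constructor
          · rintro ⟨h | h, h', h''⟩
            · exact absurd h h'
            · exact ⟨h, h''⟩
          · rintro ⟨h, h'⟩
            exact ⟨Or.inr h, fun h'' => ha (h'' ▸ h), h'⟩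
        rw [h2, Finset.prod_insert haW, Finset.image_insert]
        ring
    · rw [Finset.filter_insert, if_pos rfl, Finset.prod_insert]
      exact fun h => ha (Finset.mem_filter.1 h).1
    · rw [Finset.filter_insert, if_pos rfl, Finset.prod_insert]
      exact fun h => ha (Finset.mem_filter.1 h).1
    · intro d hd
      rw [Finset.filter_insert, if_neg (fun h => hd h.symm)]
    · intro d hd
      rw [Finset.filter_insert, if_neg (fun h => hd h.symm)]

/-- **Push forward**, general form. -/
theorem push_gen {n m : ℕ} (cls : Fin n → Fin m) (x y : Fin n → R) (G : Finset (Fin n) → R)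
    (Y : Finset (Fin m) → R) (hG : ∀ W, G W = Y (W.image cls)) :
    ∑ W : Finset (Fin n), G W * (∏ i ∈ Wᶜ, x i) * ∏ i ∈ W, y i =
      ∑ F : Finset (Fin m), Y F * (∏ c ∈ Fᶜ, ∏ i ∈ univ.filter (fun i => cls i = c), x i) *
        ∏ c ∈ F, (∏ i ∈ univ.filter (fun i => cls i = c), (x i + y i) -
          ∏ i ∈ univ.filter (fun i => cls i = c), x i) := by
  have h := push_aux cls x y univ Y
  unfold pcut at h
  rw [← h, Finset.powerset_univ]
  refine Finset.sum_congr rfl fun W _ => ?_
  rw [hG W, Finset.compl_eq_univ_sdiff]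

end

/-- **Push forward**, for the weights `z i`, `1 - z i`. -/
theorem push {n m : ℕ} (cls : Fin n → Fin m) (z : Fin n → ℂ) (e : Finset (Fin n) → ℤ)
    (Y : Finset (Fin m) → ℤ) (he : ∀ W, e W = Y (W.image cls)) :
    ∑ W : Finset (Fin n), (e W : ℂ) * (∏ i ∈ Wᶜ, z i) * ∏ i ∈ W, (1 - z i) =
      mcut (fun c => ∏ i ∈ univ.filter (fun i => cls i = c), z i) Y := by
  have h := push_gen cls z (fun i => 1 - z i) (fun W => (e W : ℂ)) (fun F => (Y F : ℂ))
    (fun W => by rw [he W])
  rw [h]
  unfold mcut
  refine Finset.sum_congr rfl fun F _ => ?_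
  congr 1
  refine Finset.prod_congr rfl fun c _ => ?_
  congr 1
  refine Finset.prod_eq_one fun i _ => ?_
  ring

/-- the products over the classes of `exp (- i π a / 3)` -/
theorem prod_class_exp {n m : ℕ} (cls : Fin n → Fin m) (a : Fin n → ℤ) (c : Fin m) :
    ∏ i ∈ univ.filter (fun i => cls i = c),
      Complex.exp (-(Real.pi : ℂ) * Complex.I * (a i : ℂ) / 3) =
    Complex.exp (-(Real.pi : ℂ) * Complex.I *
      ((∑ i, if cls i = c then a i else 0 : ℤ) : ℂ) / 3) := by
  rw [← Complex.exp_sum]
  congr 1
  rw [← Finset.sum_filter]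
  push_cast
  rw [Finset.mul_sum, Finset.sum_div]

end Pool.Agent.ThA.Push8
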